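import Pool.Agent.K4H6.Cov.Trk
import Pool.Agent.Y745.SW.Blk5

set_option autoImplicit false

/-! Coverage: the pointwise inequality and its integral, for a general kernel. -/

namespace Pool.Agent.K4H6.Cov

open Filter Topology MeasureTheory Complex H370 TH803UC TH803CL Pool.Agent.Y745.SW

noncomputable section

/-- the pointwise inequality -/
lemma pointwiseK {kt : ℂ → ℂ} {R : ℝ → ℝ} (hDI : P_DIk kt) (hTRK : P_TRKk kt R) (hζ : GoodL riemannZeta) {j : ℕ} {C N : ℝ} {B : ℝ → ℝ}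
    (hW : Wf j C N B) {a L Λ d η1 N0 κ1 Y0 t U1 U2 : ℝ} (ha : 0 < a) (hU : 1 ≤ U1) (hΛ : 0 ≤ Λ) (hΛL : Λ ≤ L)
    (hL : 10 ≤ L) (hd : 0 < d) (hdL : d * L ≤ 1 / 10) (hη0 : 0 ≤ η1) (hη1 : η1 ≤ 1) (hN0 : 0 ≤ N0) (hY0 : 1 ≤ Y0)
    (hker : ∀ u : ℂ, ‖u‖ ≤ 6 * d → ‖kt (Λ * u) - 1‖ ≤ η1) :
    2 * (St B a U1 U2 0 t).re - 2 * ∫ x in (0:ℝ)..1, R x * ‖St B a U1 U2 (Λ * x) t‖ ^ 2 ≤
      (((isoS U1 U2 d).filter (fun s => |s.im - t| ≤ N / a)).card : ℝ) +
      10 * ∑ s ∈ Zf riemannZeta U1 U2, (mult riemannZeta s : ℝ) * err B a N N0 κ1 Y0 L d η1 t (zz s) := by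
  classical
  set Z := (Zf riemannZeta U1 U2).image zz with hZ
  set m : ℂ → ℕ := fun z => mult riemannZeta (1 / 2 + I * z) with hm
  set th' : ℝ → ℝ := th a N N0 κ1 Y0 L with hth
  have hLpos : 0 < L := by linarith
  have hth0 : ∀ y : ℝ, y * L < Y0 → th' y = (N - N0) / a := by
    intro y hy
    simp only [hth, th]
    rw [if_pos hy]
  have hconj := Zconj' hζ (A := U1) (B := U2) hU
  have hmc := Zmc' hζ (A := U1) (B := U2) hU
  have hmain := hDI Z m (vt B a t) th' Λ L d η1 t hconj (Zpos' hζ hU) hmc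
    (fun z => vt_conj hW.cont hW.even a t z) (fun z hz => vt_real hW a t z hz) hΛ hΛL hL hd hdL hη0 hη1 hker
    (fun y h0 hy => by
      rw [hth0 y ?_, hth0 0 (by linarith)]
      nlinarith)
  -- (1)
  have e1 : ∑ z ∈ Z.filter (fun z => 0 ≤ z.im), cw m z * (vt B a t z).re = (St B a U1 U2 0 t).re := by
    have h := split_real' Z hconj m hmc (fun z => (vt B a t z).re) (fun z => by
      rw [vt_conj hW.cont hW.even, Complex.conj_re])
    rw [← h]
    unfold St
    rw [hZ, Finset.sum_image (fun s _ s' _ h => zz_inj h), Complex.re_sum]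
    refine Finset.sum_congr rfl fun s _ => ?_
    simp only [hm]
    rw [zz_back']
    simp
  -- (2)
  have e2 : ∑ z ∈ Z, ∑ w ∈ Z, (m z : ℂ) * (m w : ℂ) * (vt B a t z * vt B a t w * kt (Λ * (z - w)) ^ 2) =
      ∑ s ∈ Zf riemannZeta U1 U2, ∑ s' ∈ Zf riemannZeta U1 U2, (mult riemannZeta s : ℂ) * (mult riemannZeta s' : ℂ) *
      (vt B a t (zz s) * vt B a t (zz s') * kt (Λ * (zz s - zz s')) ^ 2) := by
    rw [hZ, Finset.sum_image (fun s _ s' _ h => zz_inj h)]
    refine Finset.sum_congr rfl fun s _ => ?_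
    rw [Finset.sum_image (fun s _ s' _ h => zz_inj h)]
    refine Finset.sum_congr rfl fun s' _ => ?_
    simp only [hm]
    rw [zz_back', zz_back']
  -- (3)
  have e3 : ∑ z ∈ Z.filter (fun z => 0 ≤ z.im), cw m z *
      ((if |z.re - t| ≤ th' |z.im| + 2 * d then 2 * ‖1 - vt B a t z‖ + η1 else 0) +
        (if |z.re - t| ≤ th' |z.im| - 2 * d then 0 else 2 * ‖vt B a t z‖ * Real.exp (|z.im| * L))) =
      ∑ s ∈ Zf riemannZeta U1 U2, (mult riemannZeta s : ℝ) * err B a N N0 κ1 Y0 L d η1 t (zz s) := by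
    have h := split_real' Z hconj m hmc (fun z => err B a N N0 κ1 Y0 L d η1 t z) (fun z => by
      have h1 : ‖1 - vt B a t ((starRingEnd ℂ) z)‖ = ‖1 - vt B a t z‖ := by
        rw [vt_conj hW.cont hW.even, ← map_one (starRingEnd ℂ), ← map_sub, RCLike.norm_conj, map_one]
      have h2 : ‖vt B a t ((starRingEnd ℂ) z)‖ = ‖vt B a t z‖ := by
        rw [vt_conj hW.cont hW.even, RCLike.norm_conj]
      simp only [err, Complex.conj_re, Complex.conj_im, abs_neg]
      rw [h1, h2])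
    have h' : ∑ z ∈ Z, (m z : ℝ) * err B a N N0 κ1 Y0 L d η1 t z =
        ∑ s ∈ Zf riemannZeta U1 U2, (mult riemannZeta s : ℝ) * err B a N N0 κ1 Y0 L d η1 t (zz s) := by
      rw [hZ, Finset.sum_image (fun s _ s' _ h => zz_inj h)]
      refine Finset.sum_congr rfl fun s _ => ?_
      simp only [hm]
      rw [zz_back']
    rw [← h', h]
    rfl
  -- (4)
  have e4 : (((isoP Z m d).filter (fun z => |z.re - t| ≤ th' 0)).card : ℝ) ≤
      (((isoS U1 U2 d).filter (fun s => |s.im - t| ≤ N / a)).card : ℝ) := by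
    have hsub : (isoP Z m d).filter (fun z => |z.re - t| ≤ th' 0) ⊆
        ((isoS U1 U2 d).filter (fun s => |s.im - t| ≤ N / a)).image zz := by
      intro z hz
      rw [Finset.mem_filter] at hz
      obtain ⟨hz1, hz2⟩ := hz
      unfold isoP at hz1
      rw [Finset.mem_filter, hZ, Finset.mem_image] at hz1
      obtain ⟨⟨s, hs, rfl⟩, h1, h2, h3⟩ := hz1
      have h2' : mult riemannZeta (1 / 2 + I * zz s) = 1 := h2
      rw [zz_back'] at h2'
      rw [zz_im] at h1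
      refine Finset.mem_image_of_mem _ ?_
      rw [Finset.mem_filter]
      constructor
      · unfold isoS
        rw [Finset.mem_filter]
        refine ⟨hs, by linarith, h2', fun s' hs' hne => ?_⟩
        have := h3 (zz s') (Finset.mem_image_of_mem _ hs') (fun h => hne (zz_inj h))
        rwa [zz_dist'] at this
      · rw [zz_re, hth0 0 (by linarith)] at hz2
        refine hz2.trans ?_
        gcongr
        linarith
    exact_mod_cast (Finset.card_le_card hsub).trans Finset.card_image_le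
  rw [e1, e2, e3, hTRK B a t Λ U1 U2 hW.cont hW.even hU] at hmain
  linarith

section

variable {B : ℝ → ℝ} {c : ℕ → ℂ} {ε τ η K T U1 U2 : ℝ}

/-- the pair term -/
lemma pair_termK {kt : ℂ → ℂ} {R : ℝ → ℝ} (hk0 : Ker kt R) (hB : Continuous B) (hMN : P_MN) (he : ∀ ξ, B (-ξ) = B ξ) (hε : 0 < ε) (hε2 : ε < 1 / 2) (hτ : 0 < τ)
    (hτε : τ ≤ ε / 4) (hη : 0 < η) (hL : 0 < Real.log T) {t : ℝ}
    (hEF : ∀ u : ℝ, 0 ≤ u → u ≤ (1 - ε) * Real.log T →
      ‖St B (τ * Real.log T) U1 U2 u t - cexp (I * u * t) * ((Mu B (τ * Real.log T) (Real.log T) u : ℝ) -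
        DPp c B (τ * Real.log T) u (XT ε T) t - DPm c B (τ * Real.log T) u (XT ε T) t)‖ ≤ 1 / 2)
    (hMs : ∀ u : ℝ, 2 * (τ * Real.log T) ≤ u → |Mu B (τ * Real.log T) (Real.log T) u| ≤ 1 / 2) :
    2 * ∫ x in (0:ℝ)..1, R x * ‖St B (τ * Real.log T) U1 U2 ((1 - ε) * Real.log T * x) t‖ ^ 2 ≤
      (1 + η) * (R 0 / ((1 - ε) * τ) * ∫ ξ in (-1:ℝ)..1, B ξ ^ 2) +
      (1 + 1 / η) * (2 * R 0 * ∫ x in (0:ℝ)..(4 * τ),
        Gd B (τ * Real.log T) (Real.log T) U1 U2 ((1 - ε) * Real.log T * x) t) +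
      (1 + η) * Dq R c B ε τ (4 * τ) T t + (1 + 1 / η) * (2 * R 0) := by
  set L := Real.log T with hLd
  set a := τ * L with ha
  set Λ := (1 - ε) * L with hΛ
  have ha0 : 0 < a := mul_pos hτ hL
  have hΛ0 : 0 < Λ := mul_pos (by linarith) hL
  have h4τ : 4 * τ ≤ 1 := by linarith
  have h4τ0 : 0 ≤ 4 * τ := by linarith
  have hRc : Continuous R := hk0.rcont
  have hR0 : ∀ x, 0 ≤ R x := hk0.rnonneg
  have hRle : ∀ x ∈ Set.Icc (0:ℝ) 1, 0 ≤ R x ∧ R x ≤ R 0 := fun x hx =>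
    ⟨hR0 x, hk0.rle x⟩
  have hSc : Continuous (fun x : ℝ => R x * ‖St B a U1 U2 (Λ * x) t‖ ^ 2) := by
    have h1 := (St_cont hB a U1 U2).comp (f := fun x : ℝ => (Λ * x, t)) (by fun_prop)
    simp only [Function.comp_def] at h1
    exact hRc.mul (h1.norm.pow 2)
  have hGc : Continuous (fun x : ℝ => Gd B a L U1 U2 (Λ * x) t) := by
    have h1 := (Gd_cont hB a L U1 U2).comp (f := fun x : ℝ => (Λ * x, t)) (by fun_prop)
    simpa only [Function.comp_def] using h1
  have hMc : Continuous (fun x : ℝ => Mu B a L (Λ * x)) := (Mu_cont hB a L).comp (by fun_prop)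
  have hDc : Continuous (fun x : ℝ => DPq c B a (Λ * x) (XT ε T) t) := by
    have h1 := (DPq_cont c hB a (XT ε T)).comp (f := fun x : ℝ => (Λ * x, t)) (by fun_prop)
    simpa only [Function.comp_def] using h1
  have hnorm : ∀ u : ℝ, ‖cexp (I * u * t)‖ = 1 := by
    intro u
    have : I * (u : ℂ) * t = ((u * t : ℝ) : ℂ) * I := by push_cast; ring
    rw [this, Complex.norm_exp_ofReal_mul_I]
  rw [← intervalIntegral.integral_add_adjacent_intervals (b := 4 * τ) (hSc.intervalIntegrable _ _)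
    (hSc.intervalIntegrable _ _), mul_add]
  -- small frequencies
  have hlow : 2 * ∫ x in (0:ℝ)..(4 * τ), R x * ‖St B a U1 U2 (Λ * x) t‖ ^ 2 ≤
      (1 + η) * (R 0 / ((1 - ε) * τ) * ∫ ξ in (-1:ℝ)..1, B ξ ^ 2) +
      (1 + 1 / η) * (2 * R 0 * ∫ x in (0:ℝ)..(4 * τ), Gd B a L U1 U2 (Λ * x) t) := by
    have h1 : ∫ x in (0:ℝ)..(4 * τ), R x * ‖St B a U1 U2 (Λ * x) t‖ ^ 2 ≤
        ∫ x in (0:ℝ)..(4 * τ), ((1 + η) * (R x * Mu B a L (Λ * x) ^ 2) + (1 + 1 / η) * (R 0 *
          Gd B a L U1 U2 (Λ * x) t)) := by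
      refine intervalIntegral.integral_mono_on h4τ0 (hSc.intervalIntegrable _ _) ?_ fun x hx => ?_
      · exact ((continuous_const.mul (hRc.mul (hMc.pow 2))).add
          (continuous_const.mul (continuous_const.mul hGc))).intervalIntegrable _ _
      · have hx1 : x ∈ Set.Icc (0:ℝ) 1 := ⟨hx.1, hx.2.trans h4τ⟩
        obtain ⟨r0, r1⟩ := hRle x hx1
        have h2 : ‖St B a U1 U2 (Λ * x) t‖ ≤ |Mu B a L (Λ * x)| +
            ‖St B a U1 U2 (Λ * x) t - cexp (I * (Λ * x : ℝ) * t) * (Mu B a L (Λ * x) : ℝ)‖ := by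
          have e : ‖cexp (I * (Λ * x : ℝ) * t) * (Mu B a L (Λ * x) : ℝ)‖ = |Mu B a L (Λ * x)| := by
            rw [norm_mul, hnorm, one_mul, Complex.norm_real, Real.norm_eq_abs]
          rw [← e]
          refine le_trans ?_ (norm_add_le _ _)
          rw [add_sub_cancel]
        have h3 : ‖St B a U1 U2 (Λ * x) t‖ ^ 2 ≤ (1 + η) * Mu B a L (Λ * x) ^ 2 + (1 + 1 / η) *
            Gd B a L U1 U2 (Λ * x) t := by
          refine (pow_le_pow_left₀ (norm_nonneg _) h2 2).trans ?_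
          have := sq_split (x := |Mu B a L (Λ * x)|)
            (y := ‖St B a U1 U2 (Λ * x) t - cexp (I * (Λ * x : ℝ) * t) * (Mu B a L (Λ * x) : ℝ)‖) hη
          rw [sq_abs] at this
          exact this
        have hG0 : 0 ≤ Gd B a L U1 U2 (Λ * x) t := by unfold Gd; positivity
        have hη1 : 0 ≤ 1 + 1 / η := by positivity
        calc R x * ‖St B a U1 U2 (Λ * x) t‖ ^ 2 ≤ R x * ((1 + η) * Mu B a L (Λ * x) ^ 2 + (1 + 1 / η) *
            Gd B a L U1 U2 (Λ * x) t) := mul_le_mul_of_nonneg_left h3 r0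
          _ = (1 + η) * (R x * Mu B a L (Λ * x) ^ 2) + (1 + 1 / η) * (R x * Gd B a L U1 U2 (Λ * x) t) := by ring
          _ ≤ _ := by gcongr
    have h2 : ∫ x in (0:ℝ)..(4 * τ), ((1 + η) * (R x * Mu B a L (Λ * x) ^ 2) + (1 + 1 / η) * (R 0 *
          Gd B a L U1 U2 (Λ * x) t)) = (1 + η) * (∫ x in (0:ℝ)..(4 * τ), R x * Mu B a L (Λ * x) ^ 2) +
          (1 + 1 / η) * (R 0 * ∫ x in (0:ℝ)..(4 * τ), Gd B a L U1 U2 (Λ * x) t) := by
      rw [intervalIntegral.integral_add, intervalIntegral.integral_const_mul, intervalIntegral.integral_const_mul,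
        intervalIntegral.integral_const_mul]
      · exact (continuous_const.mul (hRc.mul (hMc.pow 2))).intervalIntegrable _ _
      · exact (continuous_const.mul (continuous_const.mul hGc)).intervalIntegrable _ _
    have h3 : 2 * ∫ x in (0:ℝ)..(4 * τ), R x * Mu B a L (Λ * x) ^ 2 ≤
        R 0 / ((1 - ε) * τ) * ∫ ξ in (-1:ℝ)..1, B ξ ^ 2 := by
      have h4 := hMN B R (R 0) hB he hRc hRle a L Λ ha0 hL hΛ0
      have e : R 0 * (L ^ 2 / (Λ * a)) = R 0 / ((1 - ε) * τ) := by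
        rw [hΛ, ha]
        have : (1 - ε) ≠ 0 := by linarith
        field_simp
      rw [e] at h4
      refine le_trans (mul_le_mul_of_nonneg_left ?_ (by norm_num)) h4
      refine intervalIntegral.integral_mono_interval le_rfl h4τ0 h4τ ?_ ?_
      · refine Filter.Eventually.of_forall fun x => ?_
        exact mul_nonneg (hR0 x) (sq_nonneg _)
      · exact (hRc.mul (hMc.pow 2)).intervalIntegrable _ _
    rw [h2] at h1
    have h5 := mul_le_mul_of_nonneg_left h3 (by positivity : (0:ℝ) ≤ 1 + η)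
    linarith
  -- large frequencies
  have hhigh : 2 * ∫ x in (4 * τ)..1, R x * ‖St B a U1 U2 (Λ * x) t‖ ^ 2 ≤
      (1 + η) * Dq R c B ε τ (4 * τ) T t + (1 + 1 / η) * (2 * R 0) := by
    rw [Dq_eq hε hε2 hτ hτε le_rfl h4τ R hL]
    have h1 : ∫ x in (4 * τ)..1, R x * ‖St B a U1 U2 (Λ * x) t‖ ^ 2 ≤
        ∫ x in (4 * τ)..1, ((1 + η) * (R x * ‖DPq c B a (Λ * x) (XT ε T) t‖ ^ 2) + (1 + 1 / η) * R 0) := by
      refine intervalIntegral.integral_mono_on h4τ (hSc.intervalIntegrable _ _) ?_ fun x hx => ?_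
      · exact ((continuous_const.mul (hRc.mul (hDc.norm.pow 2))).add continuous_const).intervalIntegrable _ _
      · have hx1 : x ∈ Set.Icc (0:ℝ) 1 := ⟨h4τ0.trans hx.1, hx.2⟩
        obtain ⟨r0, r1⟩ := hRle x hx1
        have hu := u_ge hε hε2 hτ hτε le_rfl h4τ hL hx.1
        have hu0 : 0 ≤ Λ * x := mul_nonneg hΛ0.le hx1.1
        have hu1 : Λ * x ≤ (1 - ε) * L := by
          calc Λ * x ≤ Λ * 1 := mul_le_mul_of_nonneg_left hx1.2 hΛ0.le
            _ = _ := by rw [mul_one]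
        have h2 := hEF (Λ * x) hu0 hu1
        have h3 := hMs (Λ * x) hu
        rw [DPm_zero ha0 (by linarith), DPp_eq c B ha0 (by linarith), sub_zero] at h2
        have h4 : ‖St B a U1 U2 (Λ * x) t‖ ≤ ‖DPq c B a (Λ * x) (XT ε T) t‖ + 1 := by
          have h5 : ‖cexp (I * (Λ * x : ℝ) * t) * ((Mu B a L (Λ * x) : ℝ) - DPq c B a (Λ * x) (XT ε T) t)‖ ≤
              1 / 2 + ‖DPq c B a (Λ * x) (XT ε T) t‖ := by
            rw [norm_mul, hnorm, one_mul]
            refine (norm_sub_le _ _).trans ?_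
            rw [Complex.norm_real, Real.norm_eq_abs]
            linarith
          have h6 : ‖St B a U1 U2 (Λ * x) t‖ ≤ ‖St B a U1 U2 (Λ * x) t - cexp (I * (Λ * x : ℝ) * t) *
              ((Mu B a L (Λ * x) : ℝ) - DPq c B a (Λ * x) (XT ε T) t)‖ +
              ‖cexp (I * (Λ * x : ℝ) * t) * ((Mu B a L (Λ * x) : ℝ) - DPq c B a (Λ * x) (XT ε T) t)‖ := by
            refine le_trans ?_ (norm_add_le _ _)
            rw [sub_add_cancel]
          linarith
        have h7 : ‖St B a U1 U2 (Λ * x) t‖ ^ 2 ≤ (1 + η) * ‖DPq c B a (Λ * x) (XT ε T) t‖ ^ 2 + (1 + 1 / η) := by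
          refine (pow_le_pow_left₀ (norm_nonneg _) h4 2).trans ?_
          have := sq_split (x := ‖DPq c B a (Λ * x) (XT ε T) t‖) (y := 1) hη
          linarith
        have hη1 : 0 ≤ 1 + 1 / η := by positivity
        calc R x * ‖St B a U1 U2 (Λ * x) t‖ ^ 2 ≤ R x * ((1 + η) * ‖DPq c B a (Λ * x) (XT ε T) t‖ ^ 2 +
              (1 + 1 / η)) := mul_le_mul_of_nonneg_left h7 r0
          _ = (1 + η) * (R x * ‖DPq c B a (Λ * x) (XT ε T) t‖ ^ 2) + (1 + 1 / η) * R x := by ring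
          _ ≤ _ := by gcongr
    have h2 : ∫ x in (4 * τ)..1, ((1 + η) * (R x * ‖DPq c B a (Λ * x) (XT ε T) t‖ ^ 2) + (1 + 1 / η) * R 0) =
        (1 + η) * (∫ x in (4 * τ)..1, R x * ‖DPq c B a (Λ * x) (XT ε T) t‖ ^ 2) + (1 - 4 * τ) *
          ((1 + 1 / η) * R 0) := by
      rw [intervalIntegral.integral_add, intervalIntegral.integral_const_mul, intervalIntegral.integral_const,
        smul_eq_mul]
      · exact (continuous_const.mul (hRc.mul (hDc.norm.pow 2))).intervalIntegrable _ _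
      · exact continuous_const.intervalIntegrable _ _
    rw [h2] at h1
    have h3 : (1 - 4 * τ) * ((1 + 1 / η) * R 0) ≤ (1 + 1 / η) * R 0 := by
      have : 0 ≤ (1 + 1 / η) * R 0 := mul_nonneg (by positivity) (hR0 0)
      nlinarith
    linarith
  linarith

/-- the block inequality -/
lemma blockK {kt : ℂ → ℂ} {R : ℝ → ℝ} (hk0 : Ker kt R) (hDI : P_DIk kt) (hTRK : P_TRKk kt R) (hMN : P_MN) (hζ : GoodL riemannZeta) {j : ℕ} {C N : ℝ}
    (hW : Wf j C N B) (hN : 1 ≤ N) (hK : 0 < K) (hε : 0 < ε) (hε2 : ε < 1 / 2) (hτ : 0 < τ)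
    (hτε : τ ≤ ε / 4) (hη : 0 < η) {L δ η1 N0 κ1 Y0 CS ε2 : ℝ} (hLd : L = Real.log T) (hL : 10 ≤ L) (hT : T + L ≤ 2 * T - L)
    (hU : 1 ≤ U1) (hδ : 0 < δ) (hδ1 : δ ≤ 1 / 10) (hη0 : 0 ≤ η1) (hη1 : η1 ≤ 1) (hN0 : 0 ≤ N0) (hY0 : 1 ≤ Y0)
    (hker : ∀ u : ℂ, ‖u‖ ≤ 6 * (δ / L) → ‖kt (((1 - ε) * L : ℝ) * u) - 1‖ ≤ η1)
    (hEF : ∀ t u : ℝ, T + L ≤ t → t ≤ 2 * T - L → 0 ≤ u → u ≤ (1 - ε) * L →
      ‖St B (τ * L) U1 U2 u t - cexp (I * u * t) * ((Mu B (τ * L) L u : ℝ) -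
        DPp c B (τ * L) u (XT ε T) t - DPm c B (τ * L) u (XT ε T) t)‖ ≤ 1 / 2)
    (hMs : ∀ u : ℝ, 2 * (τ * L) ≤ u → |Mu B (τ * L) L u| ≤ 1 / 2) (hCS : 0 < CS)
    (hSM : ∀ u : ℝ, 0 ≤ u → u ≤ (1 - ε) * L →
      ∫ t in (T + L)..(2 * T - L), ‖St B (τ * L) U1 U2 u t - cexp (I * u * t) * (Mu B (τ * L) L u : ℝ)‖ ^ 2 ≤
      CS * K ^ 2 * (T * (1 + u / (τ * L))))
    (hERS : ∫ t in (T + L)..(2 * T - L), ∑ s ∈ Zf riemannZeta U1 U2, (mult riemannZeta s : ℝ) *
      err B (τ * L) N N0 κ1 Y0 L (δ / L) η1 t (zz s) ≤ ε2 * (N / τ * T))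
    {S : Set ℝ} (hS : MeasurableSet S) (hSI : S ⊆ Set.Icc (T + L) (2 * T - L)) :
    volume.real S * (2 * Mu B (τ * L) L 0 - K - (1 + η) * (R 0 / ((1 - ε) * τ) * ∫ ξ in (-1:ℝ)..1, B ξ ^ 2) -
      (1 + 1 / η) * (2 * R 0)) - CS * K * T - (1 + 1 / η) * (2 * R 0) * (20 * τ * (CS * K ^ 2 * T)) -
      (1 + η) * (∫ t in S, Dq R c B ε τ (4 * τ) T t) - 10 * (ε2 * (N / τ * T)) ≤
    ∫ t in S, (((isoS U1 U2 (δ / L)).filter (fun s => |s.im - t| ≤ N / (τ * L))).card : ℝ) := by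
  classical
  have hL0 : 0 < L := by linarith
  have hτL : 0 < τ * L := mul_pos hτ hL0
  have hT0 : 0 < T := by linarith
  have h4τ : 4 * τ ≤ 1 := by linarith
  have h4τ0 : 0 ≤ 4 * τ := by linarith
  have hSf : volume S ≠ ⊤ := ne_top_of_le_ne_top (by simp) (measure_mono hSI)
  obtain ⟨hni, -⟩ := count_int (isoS U1 U2 (δ / L)) S hS hSf (r := N / (τ * L)) (by positivity)
  set E : ℝ → ℝ := fun t => ∑ s ∈ Zf riemannZeta U1 U2, (mult riemannZeta s : ℝ) *
      err B (τ * L) N N0 κ1 Y0 L (δ / L) η1 t (zz s) with hE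
  have hEi : IntegrableOn E (Set.Icc (T + L) (2 * T - L)) := by
    refine integrable_finsetSum _ fun s _ => ?_
    exact (err_int hW.cont _ _ _ _ _ _ _ _ hη0 _ _ _).const_mul _
  have hE0 : ∀ t, 0 ≤ E t := fun t => Finset.sum_nonneg fun s _ =>
    mul_nonneg (Nat.cast_nonneg _) (err_nonneg _ _ _ _ _ _ _ _ _ hη0 _ _)
  -- the functions
  set g1 : ℝ → ℝ := fun t => Gd B (τ * L) L U1 U2 0 t with hg1
  set g2 : ℝ → ℝ := fun t => ∫ x in (0:ℝ)..(4 * τ), Gd B (τ * L) L U1 U2 ((1 - ε) * L * x) t with hg2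
  have hg1c : Continuous g1 := by
    have h1 := (Gd_cont hW.cont (τ * L) L U1 U2).comp (f := fun t : ℝ => ((0:ℝ), t)) (by fun_prop)
    simpa only [Function.comp_def] using h1
  have hGc2 : Continuous (Function.uncurry fun t x : ℝ => Gd B (τ * L) L U1 U2 ((1 - ε) * L * x) t) := by
    exact (Gd_cont hW.cont (τ * L) L U1 U2).comp (f := fun p : ℝ × ℝ => ((1 - ε) * L * p.2, p.1)) (by fun_prop)
  have hg2c : Continuous g2 := by
    apply intervalIntegral.continuous_parametric_intervalIntegral_of_continuous'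
    exact hGc2
  have hDc : Continuous (fun t : ℝ => Dq R c B ε τ (4 * τ) T t) :=
    Dq_cont hW.cont hε hε2 hτ hτε le_rfl h4τ hk0.rcont (by rw [← hLd]; exact hL0)
  set Mb := R 0 / ((1 - ε) * τ) * ∫ ξ in (-1:ℝ)..1, B ξ ^ 2 with hMb
  set q := (1 + 1 / η) * (2 * R 0) with hq
  have hq0 : 0 ≤ q := mul_nonneg (by positivity) (mul_nonneg (by norm_num) (hk0.rnonneg 0))
  -- the pointwise inequality
  have hpt : ∀ t ∈ S, (2 * Mu B (τ * L) L 0 - K - (1 + η) * Mb - q) - (1 / K) * g1 t - q * g2 t -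
      (1 + η) * Dq R c B ε τ (4 * τ) T t ≤
      (((isoS U1 U2 (δ / L)).filter (fun s => |s.im - t| ≤ N / (τ * L))).card : ℝ) + 10 * E t := by
    intro t ht
    obtain ⟨ht1, ht2⟩ := hSI ht
    have h1 := pointwiseK hDI hTRK hζ hW (a := τ * L) (L := L) (Λ := (1 - ε) * L) (d := δ / L) (η1 := η1) (N0 := N0)
      (κ1 := κ1) (Y0 := Y0) (t := t) (U1 := U1) (U2 := U2) hτL hU (mul_nonneg (by linarith) hL0.le)
      (by nlinarith) hL (by positivity) (by rw [div_mul_cancel₀ _ hL0.ne']; exact hδ1) hη0 hη1 hN0 hY0 hker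
    have h2 := pair_termK (R := R) (kt := kt) hk0 (B := B) (c := c) (ε := ε) (τ := τ) (η := η) (T := T) (U1 := U1) (U2 := U2) hW.cont hMN
      hW.even hε hε2 hτ hτε hη (by rw [← hLd]; exact hL0) (t := t) (by rw [← hLd]; exact fun u h3 h4 => hEF t u ht1 ht2 h3 h4)
      (by rw [← hLd]; exact hMs)
    rw [← hLd] at h2
    have h3 : 2 * Mu B (τ * L) L 0 - K - (1 / K) * g1 t ≤ 2 * (St B (τ * L) U1 U2 0 t).re := by
      have h4 : g1 t = ‖St B (τ * L) U1 U2 0 t - (Mu B (τ * L) L 0 : ℝ)‖ ^ 2 := by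
        simp only [hg1, Gd]
        congr 2
        simp
      have h5 : |(St B (τ * L) U1 U2 0 t - (Mu B (τ * L) L 0 : ℝ)).re| ≤
          ‖St B (τ * L) U1 U2 0 t - (Mu B (τ * L) L 0 : ℝ)‖ := Complex.abs_re_le_norm _
      rw [Complex.sub_re, Complex.ofReal_re] at h5
      rw [h4]
      set y := ‖St B (τ * L) U1 U2 0 t - (Mu B (τ * L) L 0 : ℝ)‖
      have h6 : 2 * y ≤ K + 1 / K * y ^ 2 := by
        have : 0 ≤ (K - y) ^ 2 / K := by positivity
        have e : (K - y) ^ 2 / K = K - 2 * y + 1 / K * y ^ 2 := by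
          field_simp
          ring
        rw [e] at this
        linarith
      linarith [(abs_le.1 h5).1]
    have h4 : q * g2 t = (1 + 1 / η) * (2 * R 0 * g2 t) := by rw [hq]; ring
    rw [h4]
    simp only [hg2, hE, hq]
    linarith
  -- integration
  have hfin : IsFiniteMeasure (volume.restrict S) := ⟨by
    rw [Measure.restrict_apply_univ]; exact lt_top_iff_ne_top.2 hSf⟩
  have hcI : ∀ f : ℝ → ℝ, Continuous f → IntegrableOn f S := fun f hf =>
    (hf.continuousOn.integrableOn_compact isCompact_Icc).mono_set hSI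
  have hmono := setIntegral_mono_on (μ := volume) (s := S)
    (f := fun t => (2 * Mu B (τ * L) L 0 - K - (1 + η) * Mb - q) - (1 / K) * g1 t - q * g2 t -
      (1 + η) * Dq R c B ε τ (4 * τ) T t)
    (g := fun t => (((isoS U1 U2 (δ / L)).filter (fun s => |s.im - t| ≤ N / (τ * L))).card : ℝ) + 10 * E t)
    (hcI _ (by fun_prop)) (hni.add ((hEi.mono_set hSI).const_mul 10)) hS hpt
  rw [integral_add hni ((hEi.mono_set hSI).const_mul 10), integral_const_mul] at hmono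
  have hI1 : IntegrableOn (fun _ : ℝ => (2 * Mu B (τ * L) L 0 - K - (1 + η) * Mb - q)) S := hcI _ continuous_const
  have hI2 : IntegrableOn (fun t : ℝ => (1 / K) * g1 t) S := hcI _ (by fun_prop)
  have hI3 : IntegrableOn (fun t : ℝ => q * g2 t) S := hcI _ (by fun_prop)
  have hI4 : IntegrableOn (fun t : ℝ => (1 + η) * Dq R c B ε τ (4 * τ) T t) S := hcI _ (by fun_prop)
  have hI12 : IntegrableOn (fun t : ℝ => (2 * Mu B (τ * L) L 0 - K - (1 + η) * Mb - q) - (1 / K) * g1 t) S :=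
    hI1.sub hI2
  have hI123 : IntegrableOn (fun t : ℝ => (2 * Mu B (τ * L) L 0 - K - (1 + η) * Mb - q) - (1 / K) * g1 t -
    q * g2 t) S := hI12.sub hI3
  rw [integral_sub hI123 hI4, integral_sub hI12 hI3, integral_sub hI1 hI2,
    setIntegral_const, integral_const_mul, integral_const_mul, integral_const_mul, smul_eq_mul] at hmono
  -- bounds of the integrals
  have hb1 : ∫ t in S, g1 t ≤ CS * K ^ 2 * T := by
    have h1 : ∫ t in S, g1 t ≤ ∫ t in Set.Icc (T + L) (2 * T - L), g1 t := by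
      refine setIntegral_mono_set (hg1c.continuousOn.integrableOn_compact isCompact_Icc) ?_
        (Filter.Eventually.of_forall hSI)
      refine Filter.Eventually.of_forall fun t => ?_
      simp only [hg1, Gd]
      positivity
    have h2 := hSM 0 le_rfl (by nlinarith)
    rw [intervalIntegral.integral_of_le hT, ← integral_Icc_eq_integral_Ioc, zero_div, add_zero, mul_one] at h2
    exact h1.trans h2
  have hb2 : ∫ t in S, g2 t ≤ 20 * τ * (CS * K ^ 2 * T) := by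
    have hg20 : ∀ t, 0 ≤ g2 t := fun t => intervalIntegral.integral_nonneg h4τ0 fun x _ => by
      unfold Gd; positivity
    have h1 : ∫ t in S, g2 t ≤ ∫ t in Set.Icc (T + L) (2 * T - L), g2 t :=
      setIntegral_mono_set (hg2c.continuousOn.integrableOn_compact isCompact_Icc)
        (Filter.Eventually.of_forall hg20) (Filter.Eventually.of_forall hSI)
    have h2 : ∫ t in Set.Icc (T + L) (2 * T - L), g2 t =
        ∫ x in (0:ℝ)..(4 * τ), ∫ t in (T + L)..(2 * T - L), Gd B (τ * L) L U1 U2 ((1 - ε) * L * x) t := by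
      rw [integral_Icc_eq_integral_Ioc, ← intervalIntegral.integral_of_le hT]
      refine MeasureTheory.intervalIntegral_intervalIntegral_swap ?_
      refine (hGc2.continuousOn.integrableOn_compact (K := Set.uIcc (T + L) (2 * T - L) ×ˢ Set.uIcc 0 (4 * τ)) ?_).mono_set ?_
      · exact isCompact_uIcc.prod isCompact_uIcc
      · exact Set.prod_mono Set.uIoc_subset_uIcc Set.uIoc_subset_uIcc
    have h3 : ∫ x in (0:ℝ)..(4 * τ), ∫ t in (T + L)..(2 * T - L), Gd B (τ * L) L U1 U2 ((1 - ε) * L * x) t ≤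
        ∫ _x in (0:ℝ)..(4 * τ), 5 * (CS * K ^ 2 * T) := by
      refine intervalIntegral.integral_mono_on h4τ0 ?_ (by simp) fun x hx => ?_
      · refine Continuous.intervalIntegrable ?_ _ _
        apply intervalIntegral.continuous_parametric_intervalIntegral_of_continuous'
        exact (Gd_cont hW.cont (τ * L) L U1 U2).comp (f := fun p : ℝ × ℝ => ((1 - ε) * L * p.1, p.2)) (by fun_prop)
      · have hx1 : x ≤ 1 := hx.2.trans h4τ
        have hΛ : 0 ≤ (1 - ε) * L := mul_nonneg (by linarith) hL0.le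
        have h4 := hSM ((1 - ε) * L * x) (mul_nonneg hΛ hx.1) (by
          calc (1 - ε) * L * x ≤ (1 - ε) * L * 1 := mul_le_mul_of_nonneg_left hx1 hΛ
            _ = _ := mul_one _)
        refine h4.trans ?_
        have h5 : (1 - ε) * L * x / (τ * L) ≤ 4 := by
          rw [div_le_iff₀ hτL]
          have h6 : (1 - ε) * L * x ≤ 1 * L * (4 * τ) := by
            have := hx.2
            have := hx.1
            gcongr
            linarith
          linarith
        have h6 : T * (1 + (1 - ε) * L * x / (τ * L)) ≤ T * 5 :=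
          mul_le_mul_of_nonneg_left (by linarith) hT0.le
        calc CS * K ^ 2 * (T * (1 + (1 - ε) * L * x / (τ * L))) ≤ CS * K ^ 2 * (T * 5) :=
              mul_le_mul_of_nonneg_left h6 (by positivity)
          _ = _ := by ring
    rw [intervalIntegral.integral_const, smul_eq_mul, sub_zero] at h3
    rw [h2] at h1
    refine h1.trans (h3.trans (le_of_eq ?_))
    ring
  have hb3 : ∫ t in S, E t ≤ ε2 * (N / τ * T) := by
    have h1 : ∫ t in S, E t ≤ ∫ t in Set.Icc (T + L) (2 * T - L), E t :=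
      setIntegral_mono_set hEi (Filter.Eventually.of_forall hE0) (Filter.Eventually.of_forall hSI)
    rw [integral_Icc_eq_integral_Ioc, ← intervalIntegral.integral_of_le hT] at h1
    exact h1.trans hERS
  have hc1 : (1 / K) * ∫ t in S, g1 t ≤ CS * K * T := by
    calc (1 / K) * ∫ t in S, g1 t ≤ (1 / K) * (CS * K ^ 2 * T) := mul_le_mul_of_nonneg_left hb1 (by positivity)
      _ = _ := by field_simp
  have hc2 : q * ∫ t in S, g2 t ≤ q * (20 * τ * (CS * K ^ 2 * T)) := mul_le_mul_of_nonneg_left hb2 hq0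
  linarith

end

end

end Pool.Agent.K4H6.Cov
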