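import Pool.Agent.K4H6.Cov.KerDef

set_option autoImplicit false

/-! Coverage: the kernel from a sum of boxes. -/

namespace Pool.Agent.K4H6.Cov

open Filter Topology MeasureTheory Complex

noncomputable section

/-- the transform of a box -/
def kb (h : ℝ) (z : ℂ) : ℂ := ∫ x in (-h)..h, cexp (I * z * x)

/-- the convolution of two boxes -/
def trap (h k s : ℝ) : ℝ := max 0 (min (min (2 * h) (2 * k)) (h + k - |s|))

lemma trap_nonneg (h k s : ℝ) : 0 ≤ trap h k s := le_max_left _ _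

lemma trap_cont (h k : ℝ) : Continuous (trap h k) := by unfold trap; fun_prop

lemma trap_even (h k s : ℝ) : trap h k (-s) = trap h k s := by unfold trap; rw [abs_neg]

lemma trap_le (h k s : ℝ) : trap h k s ≤ trap h k 0 := by
  unfold trap
  rw [abs_zero]
  refine max_le_max le_rfl (min_le_min le_rfl ?_)
  linarith [abs_nonneg s]

lemma trap_lip (h k x y : ℝ) : |trap h k x - trap h k y| ≤ |x - y| := by
  unfold trap
  have h1 : |min (min (2 * h) (2 * k)) (h + k - |x|) - min (min (2 * h) (2 * k)) (h + k - |y|)| ≤ |x - y| := by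
    refine (abs_min_sub_min_le_max _ _ _ _).trans ?_
    rw [sub_self, abs_zero]
    refine max_le (abs_nonneg _) ?_
    have e : h + k - |x| - (h + k - |y|) = |y| - |x| := by ring
    rw [e]
    refine (abs_abs_sub_abs_le _ _).trans ?_
    rw [abs_sub_comm]
  refine (abs_max_sub_max_le_max _ _ _ _).trans ?_
  rw [sub_self, abs_zero]
  exact max_le (abs_nonneg _) h1

lemma trap_zero_of {h k s : ℝ} (hs : h + k ≤ |s|) : trap h k s = 0 := by
  unfold trap
  refine max_eq_left ((min_le_right _ _).trans ?_)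
  linarith

lemma kb_zero (h : ℝ) : kb h 0 = ((2 * h : ℝ) : ℂ) := by
  unfold kb
  simp only [mul_zero, zero_mul, Complex.exp_zero]
  rw [intervalIntegral.integral_const]
  simp only [sub_neg_eq_add, Complex.real_smul, mul_one]
  congr 1
  ring

lemma kb_even (h : ℝ) (z : ℂ) : kb h (-z) = kb h z := by
  unfold kb
  have h1 := intervalIntegral.integral_comp_neg (a := -h) (b := h) (fun x : ℝ => cexp (I * z * x))
  rw [neg_neg] at h1
  rw [← h1]
  refine intervalIntegral.integral_congr fun x _ => ?_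
  congr 1
  push_cast
  ring

lemma kb_cont (h : ℝ) : Continuous (kb h) := by
  unfold kb
  apply intervalIntegral.continuous_parametric_intervalIntegral_of_continuous'
  fun_prop

lemma kb_set (h : ℝ) (h0 : 0 ≤ h) (z : ℂ) : kb h z = ∫ x : ℝ, (Set.Icc (-h) h).indicator
    (fun x : ℝ => cexp (I * z * x)) x := by
  unfold kb
  rw [integral_indicator measurableSet_Icc, intervalIntegral.integral_of_le (by linarith),
    integral_Icc_eq_integral_Ioc]

lemma vol_inter (h k a : ℝ) :
    volume.real (Set.Icc (-h) h ∩ Set.Icc (a - k) (a + k)) = trap h k a := by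
  rw [Set.Icc_inter_Icc, Measure.real, Real.volume_Icc, ENNReal.toReal_ofReal']
  unfold trap
  rw [max_comm]
  congr 1
  rcases abs_cases a with ⟨h1, h2⟩ | ⟨h1, h2⟩
  · rw [h1]
    simp only [min_def, max_def]
    split_ifs <;> linarith
  · rw [h1]
    simp only [min_def, max_def]
    split_ifs <;> linarith

lemma kb_mul (h k : ℝ) (h0 : 0 ≤ h) (k0 : 0 ≤ k) (h1 : h ≤ 1 / 2) (k1 : k ≤ 1 / 2) (z : ℂ) :
    kb h z * kb k z = ∫ α in (-1 : ℝ)..1, (trap h k α : ℂ) * cexp (I * z * α) := by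
  set f : ℝ → ℂ := (Set.Icc (-h) h).indicator (fun x : ℝ => cexp (I * z * x)) with hf
  set g : ℝ → ℂ := (Set.Icc (-k) k).indicator (fun x : ℝ => cexp (I * z * x)) with hg
  have hcont : Continuous (fun x : ℝ => cexp (I * z * x)) := by fun_prop
  have hfi : Integrable f := by
    rw [hf, integrable_indicator_iff measurableSet_Icc]
    exact hcont.continuousOn.integrableOn_Icc
  have hgi : Integrable g := by
    rw [hg, integrable_indicator_iff measurableSet_Icc]
    exact hcont.continuousOn.integrableOn_Icc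
  have h2 := integral_convolution (ContinuousLinearMap.mul ℝ ℂ) (μ := volume) (ν := volume) hfi hgi
  rw [kb_set h h0, kb_set k k0, ← hf, ← hg]
  rw [ContinuousLinearMap.mul_apply'] at h2
  rw [← h2]
  have h3 : ∀ a : ℝ, (convolution f g (ContinuousLinearMap.mul ℝ ℂ) volume) a =
      (trap h k a : ℂ) * cexp (I * z * a) := by
    intro a
    rw [convolution_def]
    have h4 : ∀ t : ℝ, (ContinuousLinearMap.mul ℝ ℂ) (f t) (g (a - t)) =
        (Set.Icc (-h) h ∩ Set.Icc (a - k) (a + k)).indicator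
          (fun _ : ℝ => cexp (I * z * a)) t := by
      intro t
      rw [ContinuousLinearMap.mul_apply', hf, hg]
      by_cases ht : t ∈ Set.Icc (-h) h
      · by_cases ht2 : a - t ∈ Set.Icc (-k) k
        · have ht3 : t ∈ Set.Icc (-h) h ∩ Set.Icc (a - k) (a + k) := by
            refine ⟨ht, ?_, ?_⟩
            · have := ht2.2; linarith
            · have := ht2.1; linarith
          rw [Set.indicator_of_mem ht, Set.indicator_of_mem ht2, Set.indicator_of_mem ht3]
          rw [← Complex.exp_add]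
          congr 1
          push_cast
          ring
        · have ht3 : t ∉ Set.Icc (-h) h ∩ Set.Icc (a - k) (a + k) := by
            rintro ⟨_, h5, h6⟩
            apply ht2
            constructor <;> linarith
          rw [Set.indicator_of_notMem ht2, Set.indicator_of_notMem ht3, mul_zero]
      · have ht3 : t ∉ Set.Icc (-h) h ∩ Set.Icc (a - k) (a + k) :=
          fun h => ht h.1
        rw [Set.indicator_of_notMem ht, Set.indicator_of_notMem ht3, zero_mul]
    simp_rw [h4]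
    rw [integral_indicator (measurableSet_Icc.inter measurableSet_Icc), setIntegral_const, vol_inter,
      Complex.real_smul]
  simp_rw [h3]
  rw [intervalIntegral.integral_of_le (by norm_num), ← integral_Icc_eq_integral_Ioc,
    ← integral_indicator measurableSet_Icc]
  congr 1
  ext a
  by_cases ha : a ∈ Set.Icc (-1 : ℝ) 1
  · rw [Set.indicator_of_mem ha]
  · rw [Set.indicator_of_notMem ha]
    have h5 : 1 < |a| := by
      by_contra h6
      push Not at h6
      exact ha (abs_le.1 h6)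
    rw [trap_zero_of (by linarith)]
    simp

/-- the half widths of the boxes -/
def hw (i : Fin 8) : ℝ := (![12, 14, 15, 16, 17, 18, 19, 20] : Fin 8 → ℝ) i / 60

lemma hw_pos (i : Fin 8) : 0 ≤ hw i := by
  unfold hw
  fin_cases i <;> norm_num

lemma hw_le (i : Fin 8) : hw i ≤ 1 / 3 := by
  unfold hw
  fin_cases i <;> norm_num

lemma hw_sum : ∑ i, 2 * hw i = 131 / 30 := by
  unfold hw
  simp [Fin.sum_univ_succ]
  norm_num

/-- the kernel -/
def kt (z : ℂ) : ℂ := ((30 / 131 : ℝ) : ℂ) * ∑ i, kb (hw i) z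

/-- the spectral density -/
def Rt (s : ℝ) : ℝ := (30 / 131) ^ 2 * ∑ i, ∑ j, trap (hw i) (hw j) s

/-- the measure -/
def mu : Measure ℝ := ∑ i : Fin 8, (ENNReal.ofReal (30 / 131)) • volume.restrict (Set.Ioc (-hw i) (hw i))

lemma mu_int {E : Type*} [NormedAddCommGroup E] {f : ℝ → E} (hf : Continuous f) : Integrable f mu := by
  unfold mu
  rw [integrable_finsetSum_measure]
  intro i _
  refine Integrable.smul_measure ?_ ENNReal.ofReal_ne_top
  exact hf.integrableOn_Ioc

lemma mu_eq {f : ℝ → ℂ} (hf : Continuous f) :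
    ∫ x, f x ∂mu = ((30 / 131 : ℝ) : ℂ) * ∑ i, ∫ x in (-hw i)..(hw i), f x := by
  unfold mu
  rw [integral_finsetSum_measure, Finset.mul_sum]
  · refine Finset.sum_congr rfl fun i _ => ?_
    rw [integral_smul_measure, ENNReal.toReal_ofReal (by norm_num), Complex.real_smul,
      intervalIntegral.integral_of_le (by linarith [hw_pos i])]
  · intro i _
    refine Integrable.smul_measure ?_ ENNReal.ofReal_ne_top
    exact hf.integrableOn_Ioc

/-- the vectors -/
def gv (Λ : ℝ) (z : ℂ) (x : ℝ) : ℂ := cexp (I * z * (Λ * x))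

lemma gv_cont (Λ : ℝ) (z : ℂ) : Continuous (gv Λ z) := by
  unfold gv
  fun_prop

lemma gv_memLp (Λ : ℝ) (z : ℂ) : MemLp (gv Λ z) 2 mu := by
  rw [memLp_two_iff_integrable_sq_norm (gv_cont Λ z).aestronglyMeasurable]
  have h := gv_cont Λ z
  exact mu_int (by fun_prop)

lemma gv_inner (Λ : ℝ) (z w : ℂ) :
    ∫ x, (starRingEnd ℂ) (gv Λ z x) * gv Λ w x ∂mu = kt (Λ * (w - (starRingEnd ℂ) z)) := by
  have e : ∀ x : ℝ, (starRingEnd ℂ) (gv Λ z x) * gv Λ w x = cexp (I * (Λ * (w - (starRingEnd ℂ) z)) * x) := by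
    intro x
    simp only [gv, map_mul, Complex.conj_ofReal, ← Complex.exp_conj, Complex.conj_I]
    rw [← Complex.exp_add]
    congr 1
    ring
  simp_rw [e]
  rw [mu_eq (by fun_prop)]
  rfl

theorem gramt (Λ : ℝ) : ∃ (E : Type) (_ : NormedAddCommGroup E) (_ : InnerProductSpace ℂ E)
    (g : ℂ → E), ∀ z w, inner ℂ (g z) (g w) = kt (Λ * (w - (starRingEnd ℂ) z)) := by
  refine ⟨Lp ℂ 2 mu, inferInstance, inferInstance, fun z => (gv_memLp Λ z).toLp _, fun z w => ?_⟩
  rw [L2.inner_def, ← gv_inner]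
  apply integral_congr_ae
  filter_upwards [(gv_memLp Λ z).coeFn_toLp, (gv_memLp Λ w).coeFn_toLp] with p h1 h2
  rw [h1, h2, RCLike.inner_apply, mul_comm]

lemma kt_zero : kt 0 = 1 := by
  unfold kt
  simp_rw [kb_zero]
  rw [← Complex.ofReal_sum, hw_sum, ← Complex.ofReal_mul]
  norm_num

lemma kt_even (z : ℂ) : kt (-z) = kt z := by
  unfold kt
  simp_rw [kb_even]

lemma kt_cont : Continuous kt := by
  unfold kt
  have := fun i : Fin 8 => kb_cont (hw i)
  fun_prop

lemma kb_im_le (h Λ L : ℝ) (z : ℂ) (h0 : 0 ≤ h) (h1 : h ≤ 1 / 2) (hΛ : 0 ≤ Λ) (hL : Λ ≤ L) :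
    ‖kb h (Λ * ((starRingEnd ℂ) z - z))‖ ≤ 2 * h * Real.exp (|z.im| * L) := by
  have h2 : ∀ x ∈ Set.uIoc (-h) h,
      ‖cexp (I * (Λ * ((starRingEnd ℂ) z - z)) * x)‖ ≤ Real.exp (|z.im| * L) := by
    intro x hx
    rw [Set.uIoc_of_le (by linarith)] at hx
    rw [Complex.norm_exp, Real.exp_le_exp]
    have e1 : (I * (Λ * ((starRingEnd ℂ) z - z)) * x).re = 2 * Λ * z.im * x := by
      simp [Complex.mul_re, Complex.mul_im]; ring
    rw [e1]
    have hx2 : |x| ≤ 1 / 2 := abs_le.2 ⟨by linarith [hx.1], by linarith [hx.2]⟩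
    calc 2 * Λ * z.im * x ≤ |2 * Λ * z.im * x| := le_abs_self _
      _ = 2 * Λ * |z.im| * |x| := by
        rw [abs_mul, abs_mul, abs_mul, abs_of_nonneg hΛ]; norm_num
      _ ≤ 2 * Λ * |z.im| * (1 / 2) := by gcongr
      _ = |z.im| * Λ := by ring
      _ ≤ |z.im| * L := by gcongr
  have h3 := intervalIntegral.norm_integral_le_of_norm_le_const h2
  unfold kb
  refine h3.trans (le_of_eq ?_)
  have h4 : |h - -h| = 2 * h := by rw [abs_of_nonneg (by linarith)]; ring
  rw [h4]
  ring

lemma kt_im_le (Λ L : ℝ) (z : ℂ) (hΛ : 0 ≤ Λ) (hL : Λ ≤ L) :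
    ‖kt (Λ * ((starRingEnd ℂ) z - z))‖ ≤ Real.exp (|z.im| * L) := by
  unfold kt
  rw [norm_mul, Complex.norm_real, Real.norm_eq_abs, abs_of_pos (by norm_num)]
  have h1 : ‖∑ i, kb (hw i) (Λ * ((starRingEnd ℂ) z - z))‖ ≤ ∑ i, 2 * hw i * Real.exp (|z.im| * L) :=
    (norm_sum_le _ _).trans (Finset.sum_le_sum fun i _ => kb_im_le (hw i) Λ L z (hw_pos i)
      (by linarith [hw_le i]) hΛ hL)
  rw [← Finset.sum_mul, hw_sum] at h1
  calc (30 / 131 : ℝ) * _ ≤ 30 / 131 * (131 / 30 * Real.exp (|z.im| * L)) :=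
        mul_le_mul_of_nonneg_left h1 (by norm_num)
    _ = _ := by ring

lemma kt_sq (z : ℂ) : kt z ^ 2 = ∫ α in (-1 : ℝ)..1, (Rt α : ℂ) * cexp (I * z * α) := by
  have e1 : kt z ^ 2 = ((30 / 131 : ℝ) : ℂ) ^ 2 * ∑ i, ∑ j, kb (hw i) z * kb (hw j) z := by
    unfold kt
    rw [mul_pow, sq (∑ i, kb (hw i) z), Finset.sum_mul_sum]
  rw [e1]
  simp_rw [fun i j : Fin 8 => kb_mul (hw i) (hw j) (hw_pos i) (hw_pos j) (by linarith [hw_le i])
    (by linarith [hw_le j]) z]
  have hc : ∀ i j : Fin 8, IntervalIntegrable (fun α : ℝ => (trap (hw i) (hw j) α : ℂ) * cexp (I * z * α))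
      volume (-1) 1 := by
    intro i j
    have := trap_cont (hw i) (hw j)
    exact Continuous.intervalIntegrable (by fun_prop) _ _
  have hc2 : ∀ i : Fin 8, IntervalIntegrable (fun α : ℝ => ∑ j, (trap (hw i) (hw j) α : ℂ) * cexp (I * z * α))
      volume (-1) 1 := by
    intro i
    have := fun j => trap_cont (hw i) (hw j)
    exact Continuous.intervalIntegrable (by fun_prop) _ _
  have e2 : ∀ α : ℝ, (Rt α : ℂ) * cexp (I * z * α) = ((30 / 131 : ℝ) : ℂ) ^ 2 *
      ∑ i, ∑ j, (trap (hw i) (hw j) α : ℂ) * cexp (I * z * α) := by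
    intro α
    unfold Rt
    push_cast
    rw [mul_assoc, Finset.sum_mul]
    simp_rw [Finset.sum_mul]
  simp_rw [e2]
  rw [intervalIntegral.integral_const_mul, intervalIntegral.integral_finsetSum (fun i _ => hc2 i)]
  simp_rw [fun i => intervalIntegral.integral_finsetSum (fun (j : Fin 8) (_ : j ∈ Finset.univ) => hc i j)]

lemma Rt_cont : Continuous Rt := by
  unfold Rt
  have := fun i j : Fin 8 => trap_cont (hw i) (hw j)
  fun_prop

lemma Rt_nonneg (x : ℝ) : 0 ≤ Rt x := by
  unfold Rt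
  exact mul_nonneg (by norm_num) (Finset.sum_nonneg fun i _ => Finset.sum_nonneg fun j _ => trap_nonneg _ _ _)

lemma Rt_even (x : ℝ) : Rt (-x) = Rt x := by
  unfold Rt
  simp_rw [trap_even]

lemma Rt_le (x : ℝ) : Rt x ≤ Rt 0 := by
  unfold Rt
  exact mul_le_mul_of_nonneg_left (Finset.sum_le_sum fun i _ => Finset.sum_le_sum fun j _ => trap_le _ _ _)
    (by norm_num)

lemma Rt_lip (x y : ℝ) : |Rt x - Rt y| ≤ 64 * |x - y| := by
  unfold Rt
  rw [← mul_sub, abs_mul, abs_of_pos (by norm_num), ← Finset.sum_sub_distrib]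
  have h1 : |∑ i : Fin 8, (∑ j, trap (hw i) (hw j) x - ∑ j, trap (hw i) (hw j) y)| ≤ ∑ i : Fin 8, ∑ j : Fin 8, |x - y| := by
    refine (Finset.abs_sum_le_sum_abs _ _).trans (Finset.sum_le_sum fun i _ => ?_)
    rw [← Finset.sum_sub_distrib]
    exact (Finset.abs_sum_le_sum_abs _ _).trans (Finset.sum_le_sum fun j _ => trap_lip _ _ _ _)
  simp only [Finset.sum_const, Finset.card_univ, Fintype.card_fin, nsmul_eq_mul] at h1
  have h2 := abs_nonneg (x - y)
  push_cast at h1
  nlinarith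

theorem ker_t : Ker kt Rt where
  gram := gramt
  keven := kt_even
  kzero := kt_zero
  im_le := kt_im_le
  kcont := kt_cont
  sq := kt_sq
  rcont := Rt_cont
  rnonneg := Rt_nonneg
  reven := Rt_even
  rle := Rt_le
  rlip := ⟨64, by norm_num, Rt_lip⟩

end

end Pool.Agent.K4H6.Cov
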