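import Pool.Agent.K4H6.Cov.Box

set_option autoImplicit false

/-! Coverage: the constants of the kernel. -/

namespace Pool.Agent.K4H6.Cov

open Filter Topology MeasureTheory Complex

noncomputable section

lemma trap_comm (h k s : ℝ) : trap h k s = trap k h s := by
  unfold trap
  rw [min_comm (2 * h), add_comm h k]

lemma trap_pos {h k s : ℝ} (hk : k ≤ h) (hs : 0 ≤ s) : trap h k s = max 0 (min (2 * k) (h + k - s)) := by
  unfold trap
  rw [min_eq_right (show 2 * k ≤ 2 * h by linarith), abs_of_nonneg hs]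

lemma seg1 (c a b : ℝ) : ∫ x in a..b, x * c = c * (b ^ 2 - a ^ 2) / 2 := by
  rw [intervalIntegral.integral_mul_const, integral_id]
  ring

lemma seg2 (q a b : ℝ) : ∫ x in a..b, x * (q - x) = q * (b ^ 2 - a ^ 2) / 2 - (b ^ 3 - a ^ 3) / 3 := by
  have e : ∀ x : ℝ, x * (q - x) = q * x - x ^ 2 := fun x => by ring
  simp_rw [e]
  rw [intervalIntegral.integral_sub (Continuous.intervalIntegrable (by fun_prop) _ _)
    (Continuous.intervalIntegrable (by fun_prop) _ _), intervalIntegral.integral_const_mul, integral_id, integral_pow]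
  push_cast
  ring

lemma xt_ii (h k a b : ℝ) : IntervalIntegrable (fun x => x * trap h k x) volume a b := by
  have := trap_cont h k
  exact Continuous.intervalIntegrable (by fun_prop) _ _

lemma int_zero {h k a b : ℝ} (hab : a ≤ b) (h0 : 0 ≤ a) (hq : h + k ≤ a) :
    ∫ x in a..b, x * trap h k x = 0 := by
  rw [intervalIntegral.integral_congr (g := fun _ => (0:ℝ))]
  · simp
  · intro x hx
    rw [Set.uIcc_of_le hab] at hx
    have : trap h k x = 0 := trap_zero_of (by rw [abs_of_nonneg (h0.trans hx.1)]; linarith [hx.1])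
    simp only [this, mul_zero]

lemma int_mid {h k a b : ℝ} (hk : k ≤ h) (k0 : 0 ≤ k) (hab : a ≤ b) (ha : h - k ≤ a) (hb : b ≤ h + k) :
    ∫ x in a..b, x * trap h k x = (h + k) * (b ^ 2 - a ^ 2) / 2 - (b ^ 3 - a ^ 3) / 3 := by
  rw [← seg2]
  refine intervalIntegral.integral_congr fun x hx => ?_
  rw [Set.uIcc_of_le hab] at hx
  rw [trap_pos hk (by linarith [hx.1]), min_eq_right (by linarith [hx.1]), max_eq_right (by linarith [hx.2])]

lemma int_first {h k : ℝ} (hk : k ≤ h) (k0 : 0 ≤ k) :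
    ∫ x in (0:ℝ)..(h - k), x * trap h k x = 2 * k * (h - k) ^ 2 / 2 := by
  have h1 := seg1 (2 * k) 0 (h - k)
  rw [show (2 * k) * ((h - k) ^ 2 - 0 ^ 2) / 2 = 2 * k * (h - k) ^ 2 / 2 by ring] at h1
  rw [← h1]
  refine intervalIntegral.integral_congr fun x hx => ?_
  rw [Set.uIcc_of_le (by linarith)] at hx
  rw [trap_pos hk hx.1, min_eq_left (by linarith [hx.2]), max_eq_right (by linarith)]

/-- the full integral -/
def Af (h k : ℝ) : ℝ := (h + k - |h - k|) * |h - k| ^ 2 / 2 +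
  ((h + k) * ((h + k) ^ 2 - |h - k| ^ 2) / 2 - ((h + k) ^ 3 - |h - k| ^ 3) / 3)

/-- the integral over the second half -/
def Bf (h k : ℝ) : ℝ := if h + k ≤ 1 / 2 then 0 else
  ((h + k) * ((h + k) ^ 2 - (1 / 2) ^ 2) / 2 - ((h + k) ^ 3 - (1 / 2) ^ 3) / 3)

lemma full_le {h k : ℝ} (hk : k ≤ h) (k0 : 0 ≤ k) (hq : h + k ≤ 1) :
    ∫ x in (0:ℝ)..1, x * trap h k x = Af h k := by
  rw [← intervalIntegral.integral_add_adjacent_intervals (xt_ii h k 0 (h + k)) (xt_ii h k (h + k) 1),
    ← intervalIntegral.integral_add_adjacent_intervals (xt_ii h k 0 (h - k)) (xt_ii h k (h - k) (h + k)),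
    int_zero hq (by linarith) le_rfl, int_first hk k0, int_mid hk k0 (by linarith) le_rfl le_rfl]
  unfold Af
  rw [abs_of_nonneg (by linarith)]
  ring

lemma full {h k : ℝ} (h0 : 0 ≤ h) (k0 : 0 ≤ k) (hq : h + k ≤ 1) :
    ∫ x in (0:ℝ)..1, x * trap h k x = Af h k := by
  rcases le_total k h with hk | hk
  · exact full_le hk k0 hq
  · simp_rw [trap_comm h k]
    rw [full_le hk h0 (by linarith)]
    unfold Af
    rw [abs_sub_comm k h, add_comm k h]

lemma half_le {h k : ℝ} (hk : k ≤ h) (k0 : 0 ≤ k) (hq : h + k ≤ 1) (hp : h ≤ 1 / 2) :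
    ∫ x in (1/2:ℝ)..1, x * trap h k x = Bf h k := by
  unfold Bf
  split_ifs with h1
  · exact int_zero (by norm_num) (by norm_num) h1
  · push Not at h1
    rw [← intervalIntegral.integral_add_adjacent_intervals (xt_ii h k (1/2) (h + k)) (xt_ii h k (h + k) 1),
      int_zero hq (by linarith) le_rfl, int_mid hk k0 (by linarith) (by linarith) le_rfl]
    ring

lemma half {h k : ℝ} (h0 : 0 ≤ h) (k0 : 0 ≤ k) (h1 : h ≤ 1 / 2) (k1 : k ≤ 1 / 2) :
    ∫ x in (1/2:ℝ)..1, x * trap h k x = Bf h k := by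
  rcases le_total k h with hk | hk
  · exact half_le hk k0 (by linarith) h1
  · simp_rw [trap_comm h k]
    rw [half_le hk h0 (by linarith) k1]
    unfold Bf
    rw [add_comm k h]

lemma xR_int (a b : ℝ) : ∫ x in a..b, x * Rt x = (30 / 131) ^ 2 * ∑ i, ∑ j, ∫ x in a..b, x * trap (hw i) (hw j) x := by
  have hc2 : ∀ i : Fin 8, IntervalIntegrable (fun x : ℝ => ∑ j, x * trap (hw i) (hw j) x) volume a b := by
    intro i
    have := fun j => trap_cont (hw i) (hw j)
    exact Continuous.intervalIntegrable (by fun_prop) _ _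
  have e2 : ∀ x : ℝ, x * Rt x = (30 / 131) ^ 2 * ∑ i, ∑ j, x * trap (hw i) (hw j) x := by
    intro x
    unfold Rt
    rw [mul_left_comm, Finset.mul_sum]
    simp_rw [Finset.mul_sum]
  simp_rw [e2]
  rw [intervalIntegral.integral_const_mul, intervalIntegral.integral_finsetSum (fun i _ => hc2 i)]
  simp_rw [fun i => intervalIntegral.integral_finsetSum (fun (j : Fin 8) (_ : j ∈ Finset.univ) =>
    xt_ii (hw i) (hw j) a b)]

lemma Rt_zero : Rt 0 = 28710 / 17161 := by
  unfold Rt trap hw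
  simp only [Fin.sum_univ_succ, Finset.univ_eq_empty, Finset.sum_empty]
  norm_num [Fin.succ]

lemma full_val : ∫ x in (0:ℝ)..1, x * Rt x = (1143947 / 617796 + 28517 / 3088980 - 28710 / 17161) / 2 := by
  rw [xR_int]
  simp_rw [fun i j : Fin 8 => full (hw_pos i) (hw_pos j) (by linarith [hw_le i, hw_le j] : hw i + hw j ≤ 1)]
  unfold Af hw
  simp only [Fin.sum_univ_succ, Finset.univ_eq_empty, Finset.sum_empty]
  norm_num [Fin.succ, abs_of_nonneg, abs_of_nonpos]

lemma half_val : ∫ x in (1/2:ℝ)..1, x * Rt x = 28517 / 3088980 / 2 := by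
  rw [xR_int]
  simp_rw [fun i j : Fin 8 => half (hw_pos i) (hw_pos j) (by linarith [hw_le i] : hw i ≤ 1 / 2)
    (by linarith [hw_le j] : hw j ≤ 1 / 2)]
  unfold Bf hw
  simp only [Fin.sum_univ_succ, Finset.univ_eq_empty, Finset.sum_empty]
  norm_num [Fin.succ]

end

end Pool.Agent.K4H6.Cov
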