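import Mathlib

set_option autoImplicit false

/-! Coverage: the final computation. -/

namespace Pool.Agent.K4H6.Cov

lemma aux1 {A T g M r1 D1 : ℝ} (hA0 : 0 ≤ A) (hAT : A ≤ T) (hg : 0 < g) (hg1 : g ≤ 1 / 1000)
    (hr1 : 0 ≤ r1) (hr11 : r1 ≤ 1 / 2) (hgM : 4 ≤ g * M) (hM1 : 1 ≤ M)
    (k0 : D1 ≤ (1 + g) * (A * ((2 * r1 + g) * M + 1) + 3 * (g * M) * T) + g * T) :
    (1 + g) * D1 ≤ A * (2 * r1) * M + 18 * g * (T * M) := by
  have hT0 : 0 ≤ T := hA0.trans hAT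
  have hM0 : 0 < M := by linarith
  have l1 : A * (g * M) ≤ T * (g * M) := mul_le_mul_of_nonneg_right hAT (by positivity)
  have l2 : A * 1 ≤ T * (g * M) := mul_le_mul hAT (by linarith) (by norm_num) hT0
  have k4 : A * ((2 * r1 + g) * M + 1) ≤ A * (2 * r1) * M + 2 * g * (T * M) := by
    linarith
  have k5 : A * (2 * r1) * M ≤ T * M := by
    have : A * (2 * r1) ≤ T * 1 := mul_le_mul hAT (by linarith) (by positivity) hT0
    rw [mul_one] at this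
    exact mul_le_mul_of_nonneg_right this hM0.le
  have k6 : g * T ≤ g * (T * M) := by
    have : T * 1 ≤ T * M := mul_le_mul_of_nonneg_left hM1 hT0
    rw [mul_one] at this
    exact mul_le_mul_of_nonneg_left this hg.le
  obtain ⟨P, hP⟩ : ∃ P, P = A * (2 * r1) * M := ⟨_, rfl⟩
  obtain ⟨Q, hQ⟩ : ∃ Q, Q = T * M := ⟨_, rfl⟩
  have hQ0 : 0 ≤ Q := by rw [hQ]; positivity
  have hP0 : 0 ≤ P := by rw [hP]; positivity
  rw [← hP, ← hQ] at k4 k5 ⊢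
  rw [← hQ] at k6
  have k7 : D1 ≤ (1 + g) * (P + 5 * g * Q) + g * Q := by
    refine k0.trans ?_
    have l3 : A * ((2 * r1 + g) * M + 1) + 3 * (g * M) * T ≤ P + 5 * g * Q := by
      have e : 3 * (g * M) * T = 3 * g * Q := by rw [hQ]; ring
      rw [e]
      linarith
    have := mul_le_mul_of_nonneg_left l3 (by linarith : 0 ≤ 1 + g)
    linarith
  have k8 : (1 + g) * D1 ≤ (1 + g) * ((1 + g) * (P + 5 * g * Q) + g * Q) :=
    mul_le_mul_of_nonneg_left k7 (by linarith)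
  have k9 : (1 + g) * ((1 + g) * (P + 5 * g * Q) + g * Q) = P + (2 * g + g ^ 2) * P +
      (1 + g) * ((1 + g) * (5 * g) + g) * Q := by ring
  have hg2 : g ^ 2 ≤ g := by nlinarith
  have k10 : (2 * g + g ^ 2) * P ≤ 3 * g * Q := by
    have l4 : 2 * g + g ^ 2 ≤ 3 * g := by linarith
    exact mul_le_mul l4 k5 hP0 (by positivity)
  have k11 : (1 + g) * ((1 + g) * (5 * g) + g) * Q ≤ 15 * g * Q := by
    refine mul_le_mul_of_nonneg_right ?_ hQ0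
    have l5 : (1 + g) * ((1 + g) * (5 * g) + g) = g * ((1 + g) * ((1 + g) * 5 + 1)) := by ring
    rw [l5]
    have l6 : (1 + g) * ((1 + g) * 5 + 1) ≤ 15 := by nlinarith
    have := mul_le_mul_of_nonneg_left l6 hg.le
    linarith
  linarith

lemma aux2 {T g M r2 D2 : ℝ} (hT0 : 0 ≤ T) (hg : 0 < g) (hg1 : g ≤ 1 / 1000)
    (hr2 : 0 ≤ r2) (hr21 : r2 ≤ 1 / 2) (hgM : 4 ≤ g * M) (hM1 : 1 ≤ M)
    (k0 : D2 ≤ (1 + g) * (T * ((2 * r2 + g) * M + 1))) :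
    (1 + g) * D2 ≤ T * (2 * r2) * M + 10 * g * (T * M) := by
  have hM0 : 0 < M := by linarith
  have l2 : T * 1 ≤ T * (g * M) := mul_le_mul_of_nonneg_left (by linarith) hT0
  have k1 : T * ((2 * r2 + g) * M + 1) ≤ T * (2 * r2) * M + 2 * g * (T * M) := by linarith
  have k2 : T * (2 * r2) * M ≤ T * M := by
    have : T * (2 * r2) ≤ T * 1 := mul_le_mul_of_nonneg_left (by linarith) hT0
    rw [mul_one] at this
    exact mul_le_mul_of_nonneg_right this hM0.le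
  obtain ⟨P, hP⟩ : ∃ P, P = T * (2 * r2) * M := ⟨_, rfl⟩
  obtain ⟨Q, hQ⟩ : ∃ Q, Q = T * M := ⟨_, rfl⟩
  have hQ0 : 0 ≤ Q := by rw [hQ]; positivity
  have hP0 : 0 ≤ P := by rw [hP]; positivity
  rw [← hP, ← hQ] at k1 k2 ⊢
  have k3 : (1 + g) * D2 ≤ (1 + g) * ((1 + g) * (P + 2 * g * Q)) := by
    refine mul_le_mul_of_nonneg_left (k0.trans ?_) (by linarith)
    exact mul_le_mul_of_nonneg_left k1 (by linarith)
  have k4 : (1 + g) * ((1 + g) * (P + 2 * g * Q)) = P + (2 * g + g ^ 2) * P + (1 + g) ^ 2 * (2 * g) * Q := by ring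
  have hg2 : g ^ 2 ≤ g := by nlinarith
  have k5 : (2 * g + g ^ 2) * P ≤ 3 * g * Q := by
    have l4 : 2 * g + g ^ 2 ≤ 3 * g := by linarith
    exact mul_le_mul l4 k2 hP0 (by positivity)
  have k6 : (1 + g) ^ 2 * (2 * g) * Q ≤ 7 * g * Q := by
    refine mul_le_mul_of_nonneg_right ?_ hQ0
    have l6 : (1 + g) ^ 2 ≤ 7 / 2 := by nlinarith
    have := mul_le_mul_of_nonneg_right l6 (by linarith : 0 ≤ 2 * g)
    linarith
  linarith

lemma aux3 {A T g M R0 x : ℝ} (hA0 : 0 ≤ A) (hAT : A ≤ T) (hg : 0 < g) (hg1 : g ≤ 1 / 1000)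
    (hM0 : 0 ≤ M) (hR0 : 0 ≤ R0) (hR02 : R0 ≤ 2) (hx : x ≤ (1 + 2 * g) * (R0 * M)) :
    A * ((1 + g) * x) ≤ A * R0 * M + 8 * g * (T * M) := by
  have hT0 : 0 ≤ T := hA0.trans hAT
  have l1 : A * ((1 + g) * x) ≤ A * ((1 + g) * ((1 + 2 * g) * (R0 * M))) :=
    mul_le_mul_of_nonneg_left (mul_le_mul_of_nonneg_left hx (by linarith)) hA0
  have l2 : A * ((1 + g) * ((1 + 2 * g) * (R0 * M))) = A * R0 * M + (3 * g + 2 * g ^ 2) * (A * R0 * M) := by ring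
  have l3 : A * R0 * M ≤ T * 2 * M := by gcongr
  have hg2 : 2 * g ^ 2 ≤ g := by nlinarith
  have l4 : (3 * g + 2 * g ^ 2) * (A * R0 * M) ≤ (4 * g) * (T * 2 * M) := by
    have : 3 * g + 2 * g ^ 2 ≤ 4 * g := by linarith
    exact mul_le_mul this l3 (by positivity) (by positivity)
  linarith

lemma aux4 {A T g M R0 r1 r2 Mu0 K CS q τ y D1 D2 : ℝ} (hT0 : 0 ≤ T) (hgM : 0 ≤ g * M)
    (g1 : A * ((1 + g) * y) ≤ A * R0 * M + 8 * g * (T * M)) (g3 : A * ((1 - g) * M) ≤ A * Mu0)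
    (g4 : T * (K * (1 + CS)) ≤ T * (g * M)) (g5 : T * (q + 4) ≤ T * (g * M))
    (g6 : T * (q * (20 * τ * (CS * K ^ 2))) ≤ T * (g * M)) (g7 : A * K ≤ T * K) (g8 : A * q ≤ T * q)
    (g9 : A * (g * M) ≤ T * (g * M)) (hd1 : (1 + g) * D1 ≤ A * (2 * r1) * M + 18 * g * (T * M))
    (hd2 : (1 + g) * D2 ≤ T * (2 * r2) * M + 10 * g * (T * M))
    (hmain : A * (2 * Mu0 - K - (1 + g) * y - q) - CS * K * T -
      q * (20 * τ * (CS * K ^ 2 * T)) - (1 + g) * (D1 + D2) - T * (g * M) ≤ A * (g * M)) :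
    A * (2 - R0 - 2 * r1) * M ≤ T * (2 * r2 + 50 * g) * M := by
  have h1 : 0 ≤ T * (g * M) := mul_nonneg hT0 hgM
  linarith

lemma cov_calc {A T N τ g C CS CD q R0 r1 r2 K C7 w M I2 Mu0 Z1 Z2 D1 D2 X ε2 εs : ℝ}
    (hA0 : 0 ≤ A) (hAT : A ≤ T) (hN : 1 ≤ N) (hτ : 0 < τ) (hτ1 : τ ≤ 1) (hg : 0 < g) (hg1 : g ≤ 1 / 1000)
    (hR0 : 0 ≤ R0) (hR02 : R0 ≤ 2) (hr1 : 0 ≤ r1) (hr11 : r1 ≤ 1 / 2) (hr2 : 0 ≤ r2) (hr21 : r2 ≤ 1 / 2)
    (hCD : 0 < CD) (hCS : 0 < CS) (hC : 1 ≤ C) (hC7 : 0 ≤ C7)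
    (hK : K = C * N) (hεs : εs = g) (hε2 : ε2 = g / (10 * Real.pi)) (hw : w = g * M)
    (hM : M = N / (Real.pi * τ)) (hI0 : 0 ≤ I2) (hI : I2 ≤ N / Real.pi) (hMu : (1 - g) * M ≤ Mu0)
    (hZ1 : Z1 ≤ 2 * (1 - εs) / τ * r1 * I2 + CD * I2 + 1) (hZ2 : Z2 ≤ 2 * (1 - εs) / τ * r2 * I2 + CD * I2 + 1)
    (hD1 : D1 ≤ (1 + g) * (A * Z1 + 2 * w * T + C7 * K ^ 4 / (τ * w) * T) + g * T)
    (hD2 : D2 ≤ (1 + g) * (T * Z2)) (hq : 0 ≤ q)
    (h1 : τ * (Real.pi * (C * (1 + CS))) ≤ g) (h2 : τ * (Real.pi * (q + 4)) ≤ g)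
    (h3 : τ * (20 * Real.pi * (q * CS * C ^ 2 * N)) ≤ g) (h4 : τ * CD ≤ g)
    (h5 : τ * (C7 * Real.pi ^ 2 * C ^ 4 * N ^ 2) ≤ g ^ 2)
    (hX : X ≤ A * (g * M))
    (hmain : A * (2 * Mu0 - K - (1 + g) * (R0 / ((1 - εs) * τ) * I2) - q) - CS * K * T -
      q * (20 * τ * (CS * K ^ 2 * T)) - (1 + g) * (D1 + D2) - 10 * (ε2 * (N / τ * T)) ≤ X) :
    A * (2 - R0 - 2 * r1) ≤ T * (2 * r2 + 50 * g) := by
  have hpi := Real.pi_pos
  have hT0 : 0 ≤ T := hA0.trans hAT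
  have hN0 : 0 < N := by linarith
  have hM0 : 0 < M := by rw [hM]; positivity
  have hτ0 := hτ
  -- (a) the terms with `A`
  have ha1 : R0 / ((1 - εs) * τ) * I2 ≤ (1 + 2 * g) * (R0 * M) := by
    have e1 : R0 / ((1 - εs) * τ) * I2 ≤ R0 / ((1 - εs) * τ) * (N / Real.pi) := by
      have : 0 < 1 - εs := by rw [hεs]; linarith
      gcongr
    have e2 : R0 / ((1 - εs) * τ) * (N / Real.pi) = 1 / (1 - εs) * (R0 * M) := by
      rw [hM]
      have : (1 - εs) ≠ 0 := by rw [hεs]; linarith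
      field_simp
    have e3 : 1 / (1 - εs) ≤ 1 + 2 * g := by
      rw [hεs, div_le_iff₀ (by linarith)]
      nlinarith
    calc _ ≤ _ := e1
      _ = 1 / (1 - εs) * (R0 * M) := e2
      _ ≤ (1 + 2 * g) * (R0 * M) := mul_le_mul_of_nonneg_right e3 (by positivity)
  have haZ : ∀ r Z : ℝ, 0 ≤ r → Z ≤ 2 * (1 - εs) / τ * r * I2 + CD * I2 + 1 → Z ≤ (2 * r + g) * M + 1 := by
    intro r Z hr hZ
    have e1 : 2 * (1 - εs) / τ * r * I2 ≤ 2 / τ * r * (N / Real.pi) := by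
      have : 2 * (1 - εs) ≤ 2 := by rw [hεs]; linarith
      have h0 : 0 ≤ 1 - εs := by rw [hεs]; linarith
      gcongr
    have e2 : CD * I2 ≤ CD * (N / Real.pi) := by gcongr
    have e3 : 2 / τ * r * (N / Real.pi) = 2 * r * M := by rw [hM]; field_simp
    have e4 : CD * (N / Real.pi) = (τ * CD) * M := by rw [hM]; field_simp
    have e5 : (τ * CD) * M ≤ g * M := mul_le_mul_of_nonneg_right h4 hM0.le
    rw [e3] at e1
    rw [e4] at e2
    linarith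
  have hz1 := haZ r1 Z1 hr1 hZ1
  have hz2 := haZ r2 Z2 hr2 hZ2
  -- (b) the small terms
  have hb1 : K * (1 + CS) ≤ g * M := by
    rw [hK, hM, mul_div_assoc', le_div_iff₀ (by positivity)]
    have := mul_le_mul_of_nonneg_right h1 hN0.le
    calc C * N * (1 + CS) * (Real.pi * τ) = τ * (Real.pi * (C * (1 + CS))) * N := by ring
      _ ≤ _ := this
  have hb2 : q + 4 ≤ g * M := by
    rw [hM, mul_div_assoc', le_div_iff₀ (by positivity)]
    have e2 : g * 1 ≤ g * N := mul_le_mul_of_nonneg_left hN hg.le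
    calc (q + 4) * (Real.pi * τ) = τ * (Real.pi * (q + 4)) := by ring
      _ ≤ _ := by linarith
  have hb3 : q * (20 * τ * (CS * K ^ 2)) ≤ g * M := by
    rw [hK, hM, mul_div_assoc', le_div_iff₀ (by positivity)]
    have e2 : τ * (τ * (20 * Real.pi * (q * CS * C ^ 2 * N))) ≤ 1 * g :=
      mul_le_mul hτ1 h3 (by positivity) (by norm_num)
    have e3 := mul_le_mul_of_nonneg_right e2 hN0.le
    calc q * (20 * τ * (CS * (C * N) ^ 2)) * (Real.pi * τ) =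
        τ * (τ * (20 * Real.pi * (q * CS * C ^ 2 * N))) * N := by ring
      _ ≤ _ := by linarith
  have hb4 : 10 * (ε2 * (N / τ)) = g * M := by
    rw [hε2, hM]
    field_simp
  have hb5 : C7 * K ^ 4 / (τ * w) ≤ g * M := by
    rw [hw]
    rw [div_le_iff₀ (by positivity), hK]
    have e1 : g * M * (τ * (g * M)) = g ^ 2 * N ^ 2 / (Real.pi ^ 2 * τ) := by rw [hM]; field_simp
    rw [e1, le_div_iff₀ (by positivity)]
    have e2 := mul_le_mul_of_nonneg_right h5 (sq_nonneg N)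
    calc C7 * (C * N) ^ 4 * (Real.pi ^ 2 * τ) = τ * (C7 * Real.pi ^ 2 * C ^ 4 * N ^ 2) * N ^ 2 := by ring
      _ ≤ _ := e2
  have hgM : 4 ≤ g * M := by linarith
  have hM1 : 1 ≤ M := by nlinarith
  -- the two weights
  have hd1 : (1 + g) * D1 ≤ A * (2 * r1) * M + 18 * g * (T * M) := by
    refine aux1 hA0 hAT hg hg1 hr1 hr11 hgM hM1 (hD1.trans ?_)
    have k1 : A * Z1 ≤ A * ((2 * r1 + g) * M + 1) := mul_le_mul_of_nonneg_left hz1 hA0
    have k2 : C7 * K ^ 4 / (τ * w) * T ≤ g * M * T := mul_le_mul_of_nonneg_right hb5 hT0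
    have k3 : A * Z1 + 2 * w * T + C7 * K ^ 4 / (τ * w) * T ≤
        A * ((2 * r1 + g) * M + 1) + 3 * (g * M) * T := by
      have e : 2 * w * T = 2 * (g * M) * T := by rw [hw]
      linarith
    have := mul_le_mul_of_nonneg_left k3 (by linarith : 0 ≤ 1 + g)
    linarith
  have hd2 : (1 + g) * D2 ≤ T * (2 * r2) * M + 10 * g * (T * M) := by
    refine aux2 hT0 hg hg1 hr2 hr21 hgM hM1 (hD2.trans ?_)
    exact mul_le_mul_of_nonneg_left (mul_le_mul_of_nonneg_left hz2 hT0) (by linarith)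
  -- conclusion
  have g1 := aux3 hA0 hAT hg hg1 hM0.le hR0 hR02 ha1
  have g3 : A * ((1 - g) * M) ≤ A * Mu0 := mul_le_mul_of_nonneg_left hMu hA0
  have g4 : T * (K * (1 + CS)) ≤ T * (g * M) := mul_le_mul_of_nonneg_left hb1 hT0
  have g5 : T * (q + 4) ≤ T * (g * M) := mul_le_mul_of_nonneg_left hb2 hT0
  have g6 : T * (q * (20 * τ * (CS * K ^ 2))) ≤ T * (g * M) := mul_le_mul_of_nonneg_left hb3 hT0
  have hK0 : 0 ≤ K := by rw [hK]; positivity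
  have g7 : A * K ≤ T * K := mul_le_mul_of_nonneg_right hAT hK0
  have g8 : A * q ≤ T * q := mul_le_mul_of_nonneg_right hAT hq
  have g9 : A * (g * M) ≤ T * (g * M) := mul_le_mul_of_nonneg_right hAT (by positivity)
  have g13 : 10 * (ε2 * (N / τ * T)) = T * (g * M) := by
    rw [← hb4]; ring
  rw [g13] at hmain
  have hkey : A * (2 - R0 - 2 * r1) * M ≤ T * (2 * r2 + 50 * g) * M :=
    aux4 hT0 (by positivity) g1 g3 g4 g5 g6 g7 g8 g9 hd1 hd2 (hmain.trans hX)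
  exact le_of_mul_le_mul_right hkey hM0

end Pool.Agent.K4H6.Cov
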