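import Pool.Agent.K4H6.Cov.Low3

set_option autoImplicit false

/-! Coverage: the mean of the long sums; the cutoff. -/

namespace Pool.Agent.K4H6.Cov

open Filter Topology MeasureTheory Complex Pool.Agent.Y745.SW Pool.Agent.Y274.SW

noncomputable section

lemma DPq_eq_DD (c : ℕ → ℂ) (B : ℝ → ℝ) (a Λ y t : ℝ) (X : ℕ) : DPq c B a (Λ * y) X t = DD X (qc c B a Λ y) t := rfl

/-- the mean of the weight -/
theorem high (hMV : P_MVB) {R : ℝ → ℝ} (hR : Continuous R) (hR0 : ∀ y, 0 ≤ R y)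
    {c : ℕ → ℂ} {B : ℝ → ℝ} (hB : Continuous B) {ε τ : ℝ} (hε : 0 < ε) (hε2 : ε < 1 / 2)
    (hτ : 0 < τ) (hτε : τ ≤ ε / 4) {η : ℝ} (hη : 0 < η) :
    ∀ᶠ T : ℝ in atTop, ∀ S : Set ℝ, S ⊆ Set.Icc (T + Real.log T) (2 * T - Real.log T) →
      ∫ t in S, Dq R c B ε τ (4 * τ) T t ≤ (1 + η) * (T * Zq R c B ε τ (4 * τ) T) := by
  have hTl : ∀ᶠ T : ℝ in atTop, T + Real.log T ≤ 2 * T - Real.log T := by
    have h1 := Real.isLittleO_log_id_atTop.def (c := 1 / 2) (by norm_num)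
    filter_upwards [h1, eventually_ge_atTop 1] with T hT hT1
    rw [Real.norm_eq_abs, Real.norm_eq_abs, id, abs_of_pos (by linarith : 0 < T)] at hT
    have := le_abs_self (Real.log T)
    linarith
  filter_upwards [ev_short hε hη, Real.tendsto_log_atTop.eventually_ge_atTop 1, eventually_ge_atTop 1, hTl]
    with T hE hL1 hT1 hTT
  intro S hSI
  set L := Real.log T with hLd
  have hL0 : 0 < L := by linarith
  have hT0 : 0 < T := by linarith
  set a := τ * L with ha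
  set Λ := (1 - ε) * L with hΛ
  set T1 := T + L with hT1d
  set T2 := 2 * T - L with hT2d
  have hT12 : T1 ≤ T2 := hTT
  have hT21 : T2 - T1 ≤ T := by rw [hT1d, hT2d]; linarith
  have h4τ : 4 * τ ≤ 1 := by linarith
  set Q := qc c B a Λ with hQ
  have hqcc := qc_cont (c := c) (B := B) (a := a) (Λ := Λ) hB
  have hDqc : Continuous (fun t : ℝ => Dq R c B ε τ (4 * τ) T t) :=
    Dq_cont hB hε hε2 hτ hτε le_rfl h4τ hR hL0
  have h1 : ∫ t in S, Dq R c B ε τ (4 * τ) T t ≤ ∫ t in Set.Icc T1 T2, Dq R c B ε τ (4 * τ) T t := by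
    refine setIntegral_mono_set (hDqc.continuousOn.integrableOn_compact isCompact_Icc)
      (Filter.Eventually.of_forall fun t => ?_) (Filter.Eventually.of_forall hSI)
    exact Dq_nonneg hε hε2 hτ hτε le_rfl h4τ (fun x _ => hR0 x) t
  rw [integral_Icc_eq_integral_Ioc, ← intervalIntegral.integral_of_le hT12] at h1
  refine h1.trans ?_
  have hFd := Fd_cont (XT ε T) R hR Q hqcc
  have e1 : ∫ t in T1..T2, Dq R c B ε τ (4 * τ) T t =
      2 * ∫ y in (4 * τ)..1, ∫ t in T1..T2, R y * ‖DD (XT ε T) (Q y) t‖ ^ 2 := by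
    rw [swapc (f := fun y t => R y * ‖DD (XT ε T) (Q y) t‖ ^ 2) hFd, ← intervalIntegral.integral_const_mul]
    refine intervalIntegral.integral_congr fun t _ => ?_
    beta_reduce
    rw [Dq_eq hε hε2 hτ hτε le_rfl h4τ R hL0]
    rfl
  rw [e1, Zq_eq hε hε2 hτ hτε R hL0]
  have c1' : Continuous (Function.uncurry fun y t : ℝ => R y * ‖DD (XT ε T) (Q y) t‖ ^ 2) := hFd
  have hAc := Aq_cont (XT ε T) Q hqcc
  have h2 : ∫ y in (4 * τ)..1, ∫ t in T1..T2, R y * ‖DD (XT ε T) (Q y) t‖ ^ 2 ≤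
      ∫ y in (4 * τ)..1, ((1 + η) * T) * (R y * Aq (XT ε T) Q y) := by
    refine intervalIntegral.integral_mono_on h4τ ((par_cont c1' T1 T2).intervalIntegrable _ _)
      (Continuous.intervalIntegrable (by fun_prop) _ _) fun y hy => ?_
    rw [intervalIntegral.integral_const_mul]
    have h3 := mv hMV (XT ε T) T1 T2 hT12 (Q y)
    have h4 := hE (XT ε T) (Nat.floor_le (by positivity))
    have h5 : T2 - T1 + 8 * (XT ε T : ℝ) * (1 + Real.log (XT ε T)) ≤ (1 + η) * T := by linarith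
    have h6 := h3.trans (mul_le_mul_of_nonneg_right h5 (Finset.sum_nonneg fun n _ => by positivity :
      0 ≤ ∑ n ∈ Finset.Icc 1 (XT ε T), ‖Q y n‖ ^ 2))
    calc R y * ∫ t in T1..T2, ‖DD (XT ε T) (Q y) t‖ ^ 2 ≤ R y * ((1 + η) * T * Aq (XT ε T) Q y) :=
          mul_le_mul_of_nonneg_left h6 (hR0 y)
      _ = _ := by ring
  rw [intervalIntegral.integral_const_mul] at h2
  calc _ ≤ 2 * ((1 + η) * T * ∫ y in (4 * τ)..1, R y * Aq (XT ε T) Q y) := by linarith
    _ = _ := by ring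

/-! ### the cutoff -/

/-- the cutoff -/
def chi (θ x : ℝ) : ℝ := max 0 (min 1 ((1 / 2 - x) / θ))

lemma chi_cont (θ : ℝ) : Continuous (chi θ) := by unfold chi; fun_prop

lemma chi_nonneg (θ x : ℝ) : 0 ≤ chi θ x := le_max_left _ _

lemma chi_le (θ x : ℝ) : chi θ x ≤ 1 := max_le (by norm_num) (min_le_left _ _)

lemma chi_zero {θ x : ℝ} (hθ : 0 < θ) (hx : 1 / 2 ≤ x) : chi θ x = 0 := by
  unfold chi
  refine max_eq_left ((min_le_right _ _).trans ?_)
  exact div_nonpos_of_nonpos_of_nonneg (by linarith) hθ.le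

lemma chi_one {θ x : ℝ} (hθ : 0 < θ) (hx : x ≤ 1 / 2 - θ) : chi θ x = 1 := by
  unfold chi
  have h1 : 1 ≤ (1 / 2 - x) / θ := by rw [le_div_iff₀ hθ]; linarith
  rw [min_eq_left h1]
  norm_num

lemma chi_lip {θ : ℝ} (hθ : 0 < θ) (x y : ℝ) : |chi θ x - chi θ y| ≤ 1 / θ * |x - y| := by
  unfold chi
  refine (abs_max_sub_max_le_max _ _ _ _).trans ?_
  rw [sub_self, abs_zero]
  have h0 : 0 ≤ 1 / θ * |x - y| := by positivity
  refine max_le h0 ?_
  refine (abs_min_sub_min_le_max _ _ _ _).trans ?_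
  rw [sub_self, abs_zero]
  refine max_le h0 ?_
  have e : (1 / 2 - x) / θ - (1 / 2 - y) / θ = 1 / θ * (y - x) := by field_simp; ring
  rw [e, abs_mul, abs_of_pos (by positivity), abs_sub_comm]

section

variable {R : ℝ → ℝ} (hR : Continuous R) (hR0 : ∀ x, 0 ≤ R x) (hRm : ∀ x, R x ≤ R 0)
  (hlip : ∃ K : ℝ, 0 < K ∧ ∀ x y : ℝ, |R x - R y| ≤ K * |x - y|)

/-- the low part -/
def R1 (R : ℝ → ℝ) (θ x : ℝ) : ℝ := R x * chi θ x

/-- the high part -/
def R2 (R : ℝ → ℝ) (θ x : ℝ) : ℝ := R x * (1 - chi θ x)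

lemma R12 (θ x : ℝ) : R1 R θ x + R2 R θ x = R x := by unfold R1 R2; ring

include hR in
lemma R1_cont (θ : ℝ) : Continuous (R1 R θ) := hR.mul (chi_cont θ)

include hR in
lemma R2_cont (θ : ℝ) : Continuous (R2 R θ) := hR.mul (continuous_const.sub (chi_cont θ))

include hR0 in
lemma R1_nonneg (θ x : ℝ) : 0 ≤ R1 R θ x := mul_nonneg (hR0 x) (chi_nonneg θ x)

include hR0 in
lemma R2_nonneg (θ x : ℝ) : 0 ≤ R2 R θ x := mul_nonneg (hR0 x) (by linarith [chi_le θ x])

include hR0 in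
lemma R1_leR (θ x : ℝ) : R1 R θ x ≤ R x := by
  unfold R1
  have := mul_le_mul_of_nonneg_left (chi_le θ x) (hR0 x)
  linarith

include hR0 in
lemma R2_leR (θ x : ℝ) : R2 R θ x ≤ R x := by
  have := R1_nonneg hR0 θ x
  have := R12 (R := R) θ x
  linarith

include hR0 hRm hlip in
lemma R1_lip {θ : ℝ} (hθ : 0 < θ) : ∃ K : ℝ, ∀ x y : ℝ, |R1 R θ x - R1 R θ y| ≤ K * |x - y| := by
  obtain ⟨K, hK, h⟩ := hlip
  refine ⟨K + R 0 * (1 / θ), fun x y => ?_⟩
  unfold R1
  have e : R x * chi θ x - R y * chi θ y = (R x - R y) * chi θ x + R y * (chi θ x - chi θ y) := by ring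
  rw [e]
  refine (abs_add_le _ _).trans ?_
  rw [abs_mul, abs_mul, abs_of_nonneg (chi_nonneg θ x), abs_of_nonneg (hR0 y), add_mul]
  refine add_le_add ?_ ?_
  · calc |R x - R y| * chi θ x ≤ |R x - R y| * 1 := mul_le_mul_of_nonneg_left (chi_le θ x) (abs_nonneg _)
      _ ≤ _ := by rw [mul_one]; exact h x y
  · calc R y * |chi θ x - chi θ y| ≤ R 0 * (1 / θ * |x - y|) :=
          mul_le_mul (hRm y) (chi_lip hθ x y) (abs_nonneg _) (hR0 0)
      _ = _ := by ring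

include hR0 hRm hlip in
lemma R2_lip {θ : ℝ} (hθ : 0 < θ) : ∃ K : ℝ, ∀ x y : ℝ, |R2 R θ x - R2 R θ y| ≤ K * |x - y| := by
  obtain ⟨K1, h1⟩ := R1_lip hR0 hRm hlip hθ
  obtain ⟨K, hK, h⟩ := hlip
  refine ⟨K + K1, fun x y => ?_⟩
  have e : R2 R θ x - R2 R θ y = (R x - R y) - (R1 R θ x - R1 R θ y) := by
    have := R12 (R := R) θ x
    have := R12 (R := R) θ y
    linarith
  rw [e, add_mul]
  exact (abs_sub _ _).trans (add_le_add (h x y) (h1 x y))

include hR hR0 in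
lemma R1_int {θ : ℝ} (hθ : 0 < θ) : ∫ x in (0:ℝ)..1, x * R1 R θ x ≤ (∫ x in (0:ℝ)..1, x * R x) - ∫ x in (1/2:ℝ)..1, x * R x := by
  have hc1 := R1_cont hR θ
  have e1 : (∫ x in (0:ℝ)..1, x * R x) - ∫ x in (1/2:ℝ)..1, x * R x = ∫ x in (0:ℝ)..(1/2), x * R x := by
    rw [← intervalIntegral.integral_add_adjacent_intervals (a := (0:ℝ)) (b := 1/2) (c := 1)
      (Continuous.intervalIntegrable (by fun_prop) _ _) (Continuous.intervalIntegrable (by fun_prop) _ _)]
    ring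
  rw [e1, ← intervalIntegral.integral_add_adjacent_intervals (a := (0:ℝ)) (b := 1/2) (c := 1)
      (Continuous.intervalIntegrable (by fun_prop) _ _) (Continuous.intervalIntegrable (by fun_prop) _ _)]
  have h2 : ∫ x in (1/2:ℝ)..1, x * R1 R θ x = 0 := by
    rw [intervalIntegral.integral_congr (g := fun _ => (0:ℝ))]
    · simp
    · intro y hy
      rw [Set.uIcc_of_le (by norm_num)] at hy
      beta_reduce
      unfold R1
      rw [chi_zero hθ hy.1, mul_zero, mul_zero]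
  rw [h2, add_zero]
  refine intervalIntegral.integral_mono_on (by norm_num) (Continuous.intervalIntegrable (by fun_prop) _ _)
    (Continuous.intervalIntegrable (by fun_prop) _ _) fun x hx => ?_
  exact mul_le_mul_of_nonneg_left (R1_leR hR0 θ x) hx.1

include hR hR0 hRm in
lemma R2_int {θ : ℝ} (hθ : 0 < θ) (hθ1 : θ ≤ 1 / 2) :
    ∫ x in (0:ℝ)..1, x * R2 R θ x ≤ (∫ x in (1/2:ℝ)..1, x * R x) + θ * R 0 := by
  have hc1 := R2_cont hR θ
  have hii : ∀ a b : ℝ, IntervalIntegrable (fun x => x * R2 R θ x) volume a b := fun a b =>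
    Continuous.intervalIntegrable (by fun_prop) _ _
  rw [← intervalIntegral.integral_add_adjacent_intervals (hii 0 (1/2)) (hii (1/2) 1),
    ← intervalIntegral.integral_add_adjacent_intervals (hii 0 (1/2 - θ)) (hii (1/2 - θ) (1/2))]
  have h1 : ∫ x in (0:ℝ)..(1/2 - θ), x * R2 R θ x = 0 := by
    rw [intervalIntegral.integral_congr (g := fun _ => (0:ℝ))]
    · simp
    · intro y hy
      rw [Set.uIcc_of_le (by linarith)] at hy
      beta_reduce
      unfold R2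
      rw [chi_one hθ hy.2]
      ring
  have h2 : ∫ x in (1/2 - θ)..(1/2), x * R2 R θ x ≤ ∫ _x in (1/2 - θ)..(1/2), R 0 := by
    refine intervalIntegral.integral_mono_on (by linarith) (hii _ _) intervalIntegrable_const fun x hx => ?_
    have h3 := (R2_leR hR0 θ x).trans (hRm x)
    have h4 := R2_nonneg hR0 θ x
    have h5 : 0 ≤ x := by linarith [hx.1]
    have h6 : x ≤ 1 := by linarith [hx.2]
    nlinarith
  rw [intervalIntegral.integral_const, smul_eq_mul] at h2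
  have h3 : ∫ x in (1/2:ℝ)..1, x * R2 R θ x ≤ ∫ x in (1/2:ℝ)..1, x * R x := by
    refine intervalIntegral.integral_mono_on (by norm_num) (hii _ _)
      (Continuous.intervalIntegrable (by fun_prop) _ _) fun x hx => ?_
    exact mul_le_mul_of_nonneg_left (R2_leR hR0 θ x) (by linarith [hx.1])
  rw [h1]
  linarith

include hR in
lemma Dq_split {c : ℕ → ℂ} {B : ℝ → ℝ} (hB : Continuous B) {ε τ T : ℝ} (hε : 0 < ε) (hε2 : ε < 1 / 2) (hτ : 0 < τ)
    (hτε : τ ≤ ε / 4) (hL : 0 < Real.log T) (θ t : ℝ) :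
    Dq R c B ε τ (4 * τ) T t = Dq (R1 R θ) c B ε τ (4 * τ) T t + Dq (R2 R θ) c B ε τ (4 * τ) T t := by
  have h4τ : 4 * τ ≤ 1 := by linarith
  rw [Dq_eq hε hε2 hτ hτε le_rfl h4τ R hL, Dq_eq hε hε2 hτ hτε le_rfl h4τ (R1 R θ) hL,
    Dq_eq hε hε2 hτ hτε le_rfl h4τ (R2 R θ) hL, ← mul_add]
  have hDc : Continuous (fun y : ℝ => DPq c B (τ * Real.log T) ((1 - ε) * Real.log T * y) (XT ε T) t) := by
    have h1 := (DPq_cont c hB (τ * Real.log T) (XT ε T)).comp (f := fun x : ℝ => ((1 - ε) * Real.log T * x, t))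
      (by fun_prop)
    simpa only [Function.comp_def] using h1
  have hc1 := R1_cont hR θ
  have hc2 := R2_cont hR θ
  have hi1 : IntervalIntegrable (fun y : ℝ => R1 R θ y *
      ‖DPq c B (τ * Real.log T) ((1 - ε) * Real.log T * y) (XT ε T) t‖ ^ 2) volume (4 * τ) 1 :=
    Continuous.intervalIntegrable (hc1.mul (hDc.norm.pow 2)) _ _
  have hi2 : IntervalIntegrable (fun y : ℝ => R2 R θ y *
      ‖DPq c B (τ * Real.log T) ((1 - ε) * Real.log T * y) (XT ε T) t‖ ^ 2) volume (4 * τ) 1 :=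
    Continuous.intervalIntegrable (hc2.mul (hDc.norm.pow 2)) _ _
  rw [← intervalIntegral.integral_add hi1 hi2]
  congr 1
  refine intervalIntegral.integral_congr fun y _ => ?_
  beta_reduce
  rw [← R12 (R := R) θ y]
  ring

end

end

end Pool.Agent.K4H6.Cov
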