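import Mathlib

set_option autoImplicit false

/-! Coverage of the critical line by simple zeros: kernels. -/

namespace Pool.Agent.K4H6.Cov

/-- a kernel with its spectral density -/
structure Ker (kt : ℂ → ℂ) (R : ℝ → ℝ) : Prop where
  gram : ∀ Λ : ℝ, ∃ (E : Type) (_ : NormedAddCommGroup E) (_ : InnerProductSpace ℂ E)
    (g : ℂ → E), ∀ z w, inner ℂ (g z) (g w) = kt (Λ * (w - (starRingEnd ℂ) z))
  keven : ∀ z, kt (-z) = kt z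
  kzero : kt 0 = 1
  im_le : ∀ (Λ L : ℝ) (z : ℂ), 0 ≤ Λ → Λ ≤ L → ‖kt (Λ * ((starRingEnd ℂ) z - z))‖ ≤ Real.exp (|z.im| * L)
  kcont : Continuous kt
  sq : ∀ z : ℂ, kt z ^ 2 = ∫ α in (-1 : ℝ)..1, (R α : ℂ) * Complex.exp (Complex.I * z * α)
  rcont : Continuous R
  rnonneg : ∀ x, 0 ≤ R x
  reven : ∀ x, R (-x) = R x
  rle : ∀ x, R x ≤ R 0
  rlip : ∃ K : ℝ, 0 < K ∧ ∀ x y : ℝ, |R x - R y| ≤ K * |x - y|

end Pool.Agent.K4H6.Cov
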