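import Pool.Agent.Y274.SW.SM

set_option autoImplicit false

/-! Coverage: the variance of the local mean square of a short sum over primes. -/

namespace Pool.Agent.K4H6.Cov

open Filter Topology MeasureTheory Complex Pool.Agent.Y745.SW Pool.Agent.Y274.SW

noncomputable section

/-- the coefficients of a product -/
def cv (X : ℕ) (b b' : ℕ → ℂ) (k : ℕ) : ℂ :=
  ∑ q ∈ (Finset.Icc 1 X ×ˢ Finset.Icc 1 X).filter (fun q => q.1 * q.2 = k), b q.1 * b' q.2

lemma maps_mul (X : ℕ) : ∀ q ∈ Finset.Icc 1 X ×ˢ Finset.Icc 1 X, q.1 * q.2 ∈ Finset.Icc 1 (X * X) := by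
  intro q hq
  rw [Finset.mem_product, Finset.mem_Icc, Finset.mem_Icc] at hq
  rw [Finset.mem_Icc]
  exact ⟨Nat.mul_pos hq.1.1 hq.2.1, Nat.mul_le_mul hq.1.2 hq.2.2⟩

lemma DD_mul (X : ℕ) (b b' : ℕ → ℂ) (t : ℝ) : DD X b t * DD X b' t = DD (X * X) (cv X b b') t := by
  unfold DD cv
  rw [Finset.sum_mul_sum, ← Finset.sum_product', ← Finset.sum_fiberwise_of_maps_to (maps_mul X)]
  refine Finset.sum_congr rfl fun k _ => ?_
  rw [Finset.sum_mul]
  refine Finset.sum_congr rfl fun q hq => ?_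
  rw [Finset.mem_filter] at hq
  rw [← hq.2, Nat.cast_mul, Complex.natCast_mul_natCast_cpow]
  ring

lemma cv_one (X : ℕ) (b b' : ℕ → ℂ) (hb : ∀ n : ℕ, ¬ n.Prime → b n = 0) (hb' : ∀ n : ℕ, ¬ n.Prime → b' n = 0)
    (k : ℕ) : ‖cv X b b' k‖ ^ 2 ≤
      ∑ q ∈ (Finset.Icc 1 X ×ˢ Finset.Icc 1 X).filter (fun q => q.1 * q.2 = k),
        (‖b q.1 * b' q.2‖ ^ 2 + ((b q.1 * b' q.2) * (starRingEnd ℂ) (b q.2 * b' q.1)).re) := by
  classical
  set F := (Finset.Icc 1 X ×ˢ Finset.Icc 1 X).filter (fun q => q.1 * q.2 = k) with hF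
  have hzero : ∀ q : ℕ × ℕ, ¬ (q.1.Prime ∧ q.2.Prime) → b q.1 * b' q.2 = 0 := by
    intro q hq
    by_cases h1 : q.1.Prime
    · have h2 : ¬ q.2.Prime := fun h => hq ⟨h1, h⟩
      rw [hb' _ h2, mul_zero]
    · rw [hb _ h1, zero_mul]
  set G := F.filter (fun q => q.1.Prime ∧ q.2.Prime) with hG
  have e1 : cv X b b' k = ∑ q ∈ G, b q.1 * b' q.2 := by
    unfold cv
    rw [← hF, hG]
    refine (Finset.sum_filter_of_ne fun q _ hq => ?_).symm
    by_contra hcon
    exact hq (hzero q hcon)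
  have e2 : ∑ q ∈ F, (‖b q.1 * b' q.2‖ ^ 2 + ((b q.1 * b' q.2) * (starRingEnd ℂ) (b q.2 * b' q.1)).re) =
      ∑ q ∈ G, (‖b q.1 * b' q.2‖ ^ 2 + ((b q.1 * b' q.2) * (starRingEnd ℂ) (b q.2 * b' q.1)).re) := by
    rw [hG]
    refine (Finset.sum_filter_of_ne fun q _ hq => ?_).symm
    by_contra hcon
    apply hq
    rw [hzero q hcon]
    simp
  rw [e1, e2]
  rcases G.eq_empty_or_nonempty with h0 | ⟨⟨p, r⟩, hpr⟩
  · rw [h0]; simp
  have hmem : ∀ x y : ℕ, (x, y) ∈ G ↔ ((1 ≤ x ∧ x ≤ X) ∧ (1 ≤ y ∧ y ≤ X)) ∧ x * y = k ∧ x.Prime ∧ y.Prime := by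
    intro x y
    rw [hG, Finset.mem_filter, hF, Finset.mem_filter, Finset.mem_product, Finset.mem_Icc, Finset.mem_Icc]
    tauto
  have hpr' := (hmem p r).1 hpr
  obtain ⟨⟨hp1, hr1⟩, hk, hp, hr⟩ := hpr'
  have hset : G = {(p, r), (r, p)} := by
    ext ⟨x, y⟩
    rw [hmem, Finset.mem_insert, Finset.mem_singleton, Prod.mk.injEq, Prod.mk.injEq]
    constructor
    · rintro ⟨-, hxy, hx, hy⟩
      rw [← hk] at hxy
      have h1 : x ∣ p * r := ⟨y, hxy.symm⟩
      rcases (Nat.Prime.dvd_mul hx).1 h1 with h2 | h2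
      · have h3 := (Nat.prime_dvd_prime_iff_eq hx hp).1 h2
        left
        refine ⟨h3, ?_⟩
        rw [h3] at hxy
        exact Nat.eq_of_mul_eq_mul_left hp.pos hxy
      · have h3 := (Nat.prime_dvd_prime_iff_eq hx hr).1 h2
        right
        refine ⟨h3, ?_⟩
        rw [h3, mul_comm p r] at hxy
        exact Nat.eq_of_mul_eq_mul_left hr.pos hxy
    · rintro (⟨rfl, rfl⟩ | ⟨rfl, rfl⟩)
      · exact ⟨⟨hp1, hr1⟩, hk, hp, hr⟩
      · exact ⟨⟨hr1, hp1⟩, by rw [mul_comm]; exact hk, hr, hp⟩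
  by_cases hne : p = r
  · subst hne
    rw [hset, Finset.pair_eq_singleton, Finset.sum_singleton, Finset.sum_singleton]
    simp only
    rw [Complex.mul_conj, Complex.normSq_eq_norm_sq, Complex.ofReal_re]
    nlinarith [sq_nonneg ‖b p * b' p‖]
  · have hne' : ((p, r) : ℕ × ℕ) ≠ (r, p) := by
      intro h
      rw [Prod.mk.injEq] at h
      exact hne h.1
    rw [hset, Finset.sum_pair hne', Finset.sum_pair hne']
    simp only
    set x := b p * b' r
    set y := b r * b' p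
    have e3 : ‖x + y‖ ^ 2 = ‖x‖ ^ 2 + ‖y‖ ^ 2 + 2 * (x * (starRingEnd ℂ) y).re := by
      rw [← Complex.normSq_eq_norm_sq, ← Complex.normSq_eq_norm_sq, ← Complex.normSq_eq_norm_sq, Complex.normSq_add]
    have e4 : (y * (starRingEnd ℂ) x).re = (x * (starRingEnd ℂ) y).re := by
      simp only [Complex.mul_re, Complex.conj_re, Complex.conj_im]; ring
    rw [e3, e4]
    linarith

lemma cv_sq (X : ℕ) (b b' : ℕ → ℂ) (hb : ∀ n : ℕ, ¬ n.Prime → b n = 0) (hb' : ∀ n : ℕ, ¬ n.Prime → b' n = 0) :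
    ∑ k ∈ Finset.Icc 1 (X * X), ‖cv X b b' k‖ ^ 2 ≤
      (∑ n ∈ Finset.Icc 1 X, ‖b n‖ ^ 2) * (∑ n ∈ Finset.Icc 1 X, ‖b' n‖ ^ 2) +
        ‖∑ n ∈ Finset.Icc 1 X, b n * (starRingEnd ℂ) (b' n)‖ ^ 2 := by
  refine (Finset.sum_le_sum fun k _ => cv_one X b b' hb hb' k).trans (le_of_eq ?_)
  rw [Finset.sum_fiberwise_of_maps_to (maps_mul X) (fun q => (‖b q.1 * b' q.2‖ ^ 2 +
    ((b q.1 * b' q.2) * (starRingEnd ℂ) (b q.2 * b' q.1)).re)), Finset.sum_add_distrib]
  congr 1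
  · rw [Finset.sum_mul_sum, ← Finset.sum_product']
    refine Finset.sum_congr rfl fun q _ => ?_
    rw [norm_mul, mul_pow]
  · rw [← Complex.re_sum]
    have e1 : ∑ q ∈ Finset.Icc 1 X ×ˢ Finset.Icc 1 X, (b q.1 * b' q.2) * (starRingEnd ℂ) (b q.2 * b' q.1) =
        (∑ n ∈ Finset.Icc 1 X, b n * (starRingEnd ℂ) (b' n)) *
          (starRingEnd ℂ) (∑ n ∈ Finset.Icc 1 X, b n * (starRingEnd ℂ) (b' n)) := by
      rw [map_sum, Finset.sum_mul_sum, ← Finset.sum_product']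
      refine Finset.sum_congr rfl fun q _ => ?_
      simp only [map_mul, Complex.conj_conj]
      ring
    rw [e1, Complex.mul_conj, Complex.normSq_eq_norm_sq, Complex.ofReal_re]

/-- the mean square, both bounds -/
lemma mv2 (h : P_MVB) (X : ℕ) (T1 T2 : ℝ) (hT : T1 ≤ T2) (b : ℕ → ℂ) :
    |(∫ t in T1..T2, ‖DD X b t‖ ^ 2) - (T2 - T1) * ∑ n ∈ Finset.Icc 1 X, ‖b n‖ ^ 2| ≤
      8 * X * (1 + Real.log X) * ∑ n ∈ Finset.Icc 1 X, ‖b n‖ ^ 2 := by
  have h1 := h X T1 T2 hT b b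
  have e1 : ∀ z : ℂ, z * (starRingEnd ℂ) z = ((‖z‖ ^ 2 : ℝ) : ℂ) := fun z => by
    rw [Complex.mul_conj, Complex.normSq_eq_norm_sq]
  simp only [e1] at h1
  rw [intervalIntegral.integral_ofReal, ← Complex.ofReal_sum, ← Complex.ofReal_mul,
    ← Complex.ofReal_sub, Complex.norm_real, Real.norm_eq_abs,
    Real.mul_self_sqrt (Finset.sum_nonneg fun n _ => by positivity)] at h1
  exact h1

lemma swapc {f : ℝ → ℝ → ℝ} (hf : Continuous (Function.uncurry f)) (a b c d : ℝ) :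
    ∫ x in a..b, ∫ y in c..d, f x y = ∫ y in c..d, ∫ x in a..b, f x y := by
  refine MeasureTheory.intervalIntegral_intervalIntegral_swap ?_
  refine (hf.continuousOn.integrableOn_compact (K := Set.uIcc a b ×ˢ Set.uIcc c d) ?_).mono_set ?_
  · exact isCompact_uIcc.prod isCompact_uIcc
  · exact Set.prod_mono Set.uIoc_subset_uIcc Set.uIoc_subset_uIcc

lemma par_cont {f : ℝ → ℝ → ℝ} (hf : Continuous (Function.uncurry f)) (a b : ℝ) :
    Continuous (fun x => ∫ y in a..b, f x y) :=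
  intervalIntegral.continuous_parametric_intervalIntegral_of_continuous' hf a b

section

variable (X : ℕ) (R : ℝ → ℝ) (hR : Continuous R) (b : ℝ → ℕ → ℂ) (hbc : ∀ n, Continuous fun y => b y n)

/-- the norm square of the coefficients -/
def Aq (X : ℕ) (b : ℝ → ℕ → ℂ) (y : ℝ) : ℝ := ∑ n ∈ Finset.Icc 1 X, ‖b y n‖ ^ 2

/-- the inner product of the coefficients -/
def Iq (X : ℕ) (b : ℝ → ℕ → ℂ) (y y' : ℝ) : ℂ := ∑ n ∈ Finset.Icc 1 X, b y n * (starRingEnd ℂ) (b y' n)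

include hbc in
lemma DDj_cont : Continuous (fun p : ℝ × ℝ => DD X (b p.1) p.2) := by
  unfold DD
  refine continuous_finsetSum _ fun n hn => ?_
  have hn0 : (n : ℂ) ≠ 0 := by
    have := (Finset.mem_Icc.1 hn).1
    exact_mod_cast (by omega : n ≠ 0)
  refine ((hbc n).comp continuous_fst).mul ?_
  exact Continuous.const_cpow (by fun_prop) (Or.inl hn0)

include hbc in
lemma Aq_cont : Continuous (Aq X b) := by
  unfold Aq
  have := hbc
  fun_prop

include hbc in
lemma Iq_cont : Continuous (fun p : ℝ × ℝ => Iq X b p.1 p.2) := by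
  unfold Iq
  refine continuous_finsetSum _ fun n _ => ?_
  exact ((hbc n).comp continuous_fst).mul (Complex.continuous_conj.comp ((hbc n).comp continuous_snd))

lemma Aq_nonneg (y : ℝ) : 0 ≤ Aq X b y := Finset.sum_nonneg fun n _ => by positivity

lemma Iq_le (y y' : ℝ) : ‖Iq X b y y'‖ ^ 2 ≤ Aq X b y * Aq X b y' := by
  unfold Iq Aq
  have h1 : ‖∑ n ∈ Finset.Icc 1 X, b y n * (starRingEnd ℂ) (b y' n)‖ ≤ ∑ n ∈ Finset.Icc 1 X, ‖b y n‖ * ‖b y' n‖ := by
    refine (norm_sum_le _ _).trans (le_of_eq ?_)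
    refine Finset.sum_congr rfl fun n _ => ?_
    rw [norm_mul, RCLike.norm_conj]
  exact (pow_le_pow_left₀ (norm_nonneg _) h1 2).trans (Finset.sum_mul_sq_le_sq_mul_sq _ _ _)

/-- the local mean square -/
def Dl (X : ℕ) (R : ℝ → ℝ) (b : ℝ → ℕ → ℂ) (α β t : ℝ) : ℝ := ∫ y in α..β, R y * ‖DD X (b y) t‖ ^ 2

/-- its expected value -/
def Zl (X : ℕ) (R : ℝ → ℝ) (b : ℝ → ℕ → ℂ) (α β : ℝ) : ℝ := ∫ y in α..β, R y * Aq X b y

/-- the variance -/
def Vl (X : ℕ) (R : ℝ → ℝ) (b : ℝ → ℕ → ℂ) (α β : ℝ) : ℝ :=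
  ∫ y in α..β, ∫ y' in α..β, R y * R y' * ‖Iq X b y y'‖ ^ 2

include hR hbc in
lemma Fd_cont : Continuous (fun p : ℝ × ℝ => R p.1 * ‖DD X (b p.1) p.2‖ ^ 2) :=
  (hR.comp continuous_fst).mul ((DDj_cont X b hbc).norm.pow 2)

include hR hbc in
lemma Dl_cont (α β : ℝ) : Continuous (Dl X R b α β) := by
  unfold Dl
  refine par_cont (f := fun t y => R y * ‖DD X (b y) t‖ ^ 2) ?_ α β
  exact (Fd_cont X R hR b hbc).comp (f := fun p : ℝ × ℝ => (p.2, p.1)) (by fun_prop)

include hR hbc in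
lemma Dl_sq (α β t : ℝ) : Dl X R b α β t ^ 2 =
    ∫ y in α..β, ∫ y' in α..β, R y * R y' * ‖DD (X * X) (cv X (b y) (b y')) t‖ ^ 2 := by
  unfold Dl
  rw [sq, ← intervalIntegral.integral_mul_const]
  refine intervalIntegral.integral_congr fun y _ => ?_
  rw [← intervalIntegral.integral_const_mul]
  refine intervalIntegral.integral_congr fun y' _ => ?_
  rw [← DD_mul, norm_mul]
  ring

include hR hbc in
theorem var_le (h : P_MVB) (hX : 1 ≤ X) {T1 T2 α β : ℝ} (hT : T1 ≤ T2) (hαβ : α ≤ β)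
    (hR0 : ∀ y ∈ Set.Icc α β, 0 ≤ R y) (hbp : ∀ y, ∀ n : ℕ, ¬ n.Prime → b y n = 0) :
    ∫ t in T1..T2, (Dl X R b α β t - Zl X R b α β) ^ 2 ≤ (T2 - T1) * Vl X R b α β +
      4 * (8 * (X * X : ℕ) * (1 + Real.log (X * X : ℕ))) * Zl X R b α β ^ 2 := by
  set E : ℝ := 8 * (X * X : ℕ) * (1 + Real.log (X * X : ℕ)) with hE
  set E1 : ℝ := 8 * X * (1 + Real.log X) with hE1
  have hX1 : (1 : ℝ) ≤ X := by exact_mod_cast hX
  have hlX : 0 ≤ Real.log X := Real.log_nonneg hX1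
  have hE1E : E1 ≤ E := by
    rw [hE, hE1]
    push_cast
    have h1 : (X : ℝ) ≤ X * X := by nlinarith
    have h2 : Real.log X ≤ Real.log (X * X) := Real.log_le_log (by linarith) h1
    have h3 : 0 ≤ 1 + Real.log X := by linarith
    have h4 : 8 * (X : ℝ) ≤ 8 * (X * X) := by linarith
    exact mul_le_mul h4 (by linarith) h3 (by positivity)
  have hE10 : 0 ≤ E1 := by rw [hE1]; positivity
  have hE0 : 0 ≤ E := hE10.trans hE1E
  set Z := Zl X R b α β with hZ
  set V := Vl X R b α β with hV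
  have hAc := Aq_cont X b hbc
  have hIc := Iq_cont X b hbc
  have hA0 := Aq_nonneg X b
  have hT0 : 0 ≤ T2 - T1 := by linarith
  have hZ0 : 0 ≤ Z := by
    rw [hZ]; unfold Zl
    exact intervalIntegral.integral_nonneg hαβ fun y hy => mul_nonneg (hR0 y hy) (hA0 y)
  -- the product of the integrals
  have hZZ : Z ^ 2 = ∫ y in α..β, ∫ y' in α..β, R y * R y' * (Aq X b y * Aq X b y') := by
    rw [hZ]; unfold Zl
    rw [sq, ← intervalIntegral.integral_mul_const]
    refine intervalIntegral.integral_congr fun y _ => ?_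
    rw [← intervalIntegral.integral_const_mul]
    refine intervalIntegral.integral_congr fun y' _ => ?_
    ring
  have hcA : Continuous (Function.uncurry fun y y' : ℝ => R y * R y' * (Aq X b y * Aq X b y')) := by
    have h1 : Continuous (fun p : ℝ × ℝ => R p.1 * R p.2 * (Aq X b p.1 * Aq X b p.2)) := by fun_prop
    exact h1
  have hcI : Continuous (Function.uncurry fun y y' : ℝ => R y * R y' * ‖Iq X b y y'‖ ^ 2) := by
    have h1 : Continuous (fun p : ℝ × ℝ => R p.1 * R p.2 * ‖Iq X b p.1 p.2‖ ^ 2) :=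
      ((hR.comp continuous_fst).mul (hR.comp continuous_snd)).mul (hIc.norm.pow 2)
    exact h1
  have hsl : ∀ {f : ℝ → ℝ → ℝ}, Continuous (Function.uncurry f) → ∀ y, Continuous (f y) := by
    intro f hf y
    exact hf.comp (f := fun x : ℝ => (y, x)) (by fun_prop)
  have hVZ : V ≤ Z ^ 2 := by
    rw [hZZ, hV]; unfold Vl
    refine intervalIntegral.integral_mono_on hαβ ((par_cont hcI α β).intervalIntegrable _ _)
      ((par_cont hcA α β).intervalIntegrable _ _) fun y hy => ?_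
    refine intervalIntegral.integral_mono_on hαβ ((hsl hcI y).intervalIntegrable _ _)
      ((hsl hcA y).intervalIntegrable _ _) fun y' hy' => ?_
    exact mul_le_mul_of_nonneg_left (Iq_le X b y y') (mul_nonneg (hR0 y hy) (hR0 y' hy'))
  -- the second moment
  have hF3 : Continuous (fun p : ℝ × ℝ × ℝ => R p.2.1 * R p.2.2 * ‖DD (X * X) (cv X (b p.2.1) (b p.2.2)) p.1‖ ^ 2) := by
    have h1 : ∀ p : ℝ × ℝ × ℝ, ‖DD (X * X) (cv X (b p.2.1) (b p.2.2)) p.1‖ =
        ‖DD X (b p.2.1) p.1‖ * ‖DD X (b p.2.2) p.1‖ := by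
      intro p
      rw [← DD_mul, norm_mul]
    simp_rw [h1]
    have h2 := (DDj_cont X b hbc).comp (f := fun p : ℝ × ℝ × ℝ => (p.2.1, p.1)) (by fun_prop)
    have h3 := (DDj_cont X b hbc).comp (f := fun p : ℝ × ℝ × ℝ => (p.2.2, p.1)) (by fun_prop)
    simp only [Function.comp_def] at h2 h3
    exact (((hR.comp (by fun_prop)).mul (hR.comp (by fun_prop))).mul ((h2.norm.mul h3.norm).pow 2))
  have hsec : ∫ t in T1..T2, Dl X R b α β t ^ 2 ≤ (T2 - T1 + E) * (Z ^ 2 + V) := by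
    simp_rw [Dl_sq X R hR b hbc α β]
    have s1 : ∫ t in T1..T2, ∫ y in α..β, ∫ y' in α..β, R y * R y' * ‖DD (X * X) (cv X (b y) (b y')) t‖ ^ 2 =
        ∫ y in α..β, ∫ y' in α..β, ∫ t in T1..T2, R y * R y' * ‖DD (X * X) (cv X (b y) (b y')) t‖ ^ 2 := by
      have c1 : Continuous (Function.uncurry fun t y : ℝ =>
          ∫ y' in α..β, R y * R y' * ‖DD (X * X) (cv X (b y) (b y')) t‖ ^ 2) := by
        have h2 : Continuous (fun p : ℝ × ℝ => ∫ y' in α..β, R p.2 * R y' *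
            ‖DD (X * X) (cv X (b p.2) (b y')) p.1‖ ^ 2) := by
          apply intervalIntegral.continuous_parametric_intervalIntegral_of_continuous'
          exact hF3.comp (f := fun p : (ℝ × ℝ) × ℝ => (p.1.1, p.1.2, p.2)) (by fun_prop)
        exact h2
      rw [swapc c1]
      refine intervalIntegral.integral_congr fun y _ => ?_
      rw [swapc (f := fun t y' => R y * R y' * ‖DD (X * X) (cv X (b y) (b y')) t‖ ^ 2)]
      exact hF3.comp (f := fun p : ℝ × ℝ => (p.1, y, p.2)) (by fun_prop)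
    rw [s1]
    have s2 : (T2 - T1 + E) * (Z ^ 2 + V) = ∫ y in α..β, ∫ y' in α..β, (T2 - T1 + E) *
        (R y * R y' * (Aq X b y * Aq X b y') + R y * R y' * ‖Iq X b y y'‖ ^ 2) := by
      rw [hZZ, hV]; unfold Vl
      rw [← intervalIntegral.integral_add ((par_cont hcA α β).intervalIntegrable _ _)
        ((par_cont hcI α β).intervalIntegrable _ _), ← intervalIntegral.integral_const_mul]
      refine intervalIntegral.integral_congr fun y _ => ?_
      rw [← intervalIntegral.integral_add ((hsl hcA y).intervalIntegrable _ _)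
        ((hsl hcI y).intervalIntegrable _ _), ← intervalIntegral.integral_const_mul]
    rw [s2]
    have c3 : Continuous (Function.uncurry fun y y' : ℝ =>
        ∫ t in T1..T2, R y * R y' * ‖DD (X * X) (cv X (b y) (b y')) t‖ ^ 2) := by
      have h2 : Continuous (fun p : ℝ × ℝ => ∫ t in T1..T2, R p.1 * R p.2 *
          ‖DD (X * X) (cv X (b p.1) (b p.2)) t‖ ^ 2) := by
        apply intervalIntegral.continuous_parametric_intervalIntegral_of_continuous'
        exact hF3.comp (f := fun p : (ℝ × ℝ) × ℝ => (p.2, p.1.1, p.1.2)) (by fun_prop)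
      exact h2
    have c4 : Continuous (Function.uncurry fun y y' : ℝ => (T2 - T1 + E) *
        (R y * R y' * (Aq X b y * Aq X b y') + R y * R y' * ‖Iq X b y y'‖ ^ 2)) := by
      have := continuous_const (y := (T2 - T1 + E)).mul (hcA.add hcI)
      exact this
    refine intervalIntegral.integral_mono_on hαβ ((par_cont c3 α β).intervalIntegrable _ _)
      ((par_cont c4 α β).intervalIntegrable _ _) fun y hy => ?_
    refine intervalIntegral.integral_mono_on hαβ ((hsl c3 y).intervalIntegrable _ _)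
      ((hsl c4 y).intervalIntegrable _ _) fun y' hy' => ?_
    rw [intervalIntegral.integral_const_mul]
    have h4 := mv h (X * X) T1 T2 hT (cv X (b y) (b y'))
    have h5 := cv_sq X (b y) (b y') (hbp y) (hbp y')
    have h6 : 0 ≤ R y * R y' := mul_nonneg (hR0 y hy) (hR0 y' hy')
    have h7 : ∫ t in T1..T2, ‖DD (X * X) (cv X (b y) (b y')) t‖ ^ 2 ≤ (T2 - T1 + E) *
        (Aq X b y * Aq X b y' + ‖Iq X b y y'‖ ^ 2) := by
      refine h4.trans ?_
      rw [← hE]
      exact mul_le_mul_of_nonneg_left h5 (by linarith)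
    calc R y * R y' * ∫ t in T1..T2, ‖DD (X * X) (cv X (b y) (b y')) t‖ ^ 2 ≤
        R y * R y' * ((T2 - T1 + E) * (Aq X b y * Aq X b y' + ‖Iq X b y y'‖ ^ 2)) :=
          mul_le_mul_of_nonneg_left h7 h6
      _ = _ := by ring
  -- the first moment
  have hfst : (T2 - T1 - E1) * Z ≤ ∫ t in T1..T2, Dl X R b α β t := by
    unfold Dl
    rw [swapc (f := fun t y => R y * ‖DD X (b y) t‖ ^ 2)
      ((Fd_cont X R hR b hbc).comp (f := fun p : ℝ × ℝ => (p.2, p.1)) (by fun_prop)), hZ]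
    unfold Zl
    rw [← intervalIntegral.integral_const_mul]
    have c1 : Continuous (Function.uncurry fun y t : ℝ => R y * ‖DD X (b y) t‖ ^ 2) := Fd_cont X R hR b hbc
    refine intervalIntegral.integral_mono_on hαβ (Continuous.intervalIntegrable (by fun_prop) _ _)
      ((par_cont c1 T1 T2).intervalIntegrable _ _) fun y hy => ?_
    rw [intervalIntegral.integral_const_mul]
    have h4 := (abs_le.1 (mv2 h X T1 T2 hT (b y))).1
    have h5 : (T2 - T1 - E1) * Aq X b y ≤ ∫ t in T1..T2, ‖DD X (b y) t‖ ^ 2 := by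
      unfold Aq
      rw [hE1]
      linarith
    calc (T2 - T1 - E1) * (R y * Aq X b y) = R y * ((T2 - T1 - E1) * Aq X b y) := by ring
      _ ≤ _ := mul_le_mul_of_nonneg_left h5 (hR0 y hy)
  -- conclusion
  have hDc := Dl_cont X R hR b hbc α β
  have hexp : ∫ t in T1..T2, (Dl X R b α β t - Z) ^ 2 =
      (∫ t in T1..T2, Dl X R b α β t ^ 2) - 2 * Z * (∫ t in T1..T2, Dl X R b α β t) + (T2 - T1) * Z ^ 2 := by
    have e : ∀ t, (Dl X R b α β t - Z) ^ 2 = Dl X R b α β t ^ 2 - 2 * Z * Dl X R b α β t + Z ^ 2 := fun t => by ring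
    simp_rw [e]
    rw [intervalIntegral.integral_add, intervalIntegral.integral_sub, intervalIntegral.integral_const_mul,
      intervalIntegral.integral_const, smul_eq_mul]
    all_goals exact Continuous.intervalIntegrable (by fun_prop) _ _
  rw [hexp]
  have h8 : Z * ((T2 - T1 - E1) * Z) ≤ Z * ∫ t in T1..T2, Dl X R b α β t := mul_le_mul_of_nonneg_left hfst hZ0
  have h9 : E * V ≤ E * Z ^ 2 := mul_le_mul_of_nonneg_left hVZ hE0
  have h10 : E1 * Z ^ 2 ≤ E * Z ^ 2 := mul_le_mul_of_nonneg_right hE1E (sq_nonneg Z)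
  nlinarith

end

end

end Pool.Agent.K4H6.Cov
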