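import Pool.Agent.K4H6.Cov.Lln
import Pool.Agent.Y745.SW.Blk3

set_option autoImplicit false

/-! Coverage: bounds for the coefficients of the short sums. -/

namespace Pool.Agent.K4H6.Cov

open Filter Topology MeasureTheory Complex Pool.Agent.Y745.SW Pool.Agent.Y274.SW

noncomputable section

/-- the coefficients without the condition -/
def qc (c : ℕ → ℂ) (B : ℝ → ℝ) (a Λ y : ℝ) (n : ℕ) : ℂ := c n * ((Real.sqrt n)⁻¹ * Gq B a (Λ * y) (Real.log n) : ℝ)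

/-- the coefficients at the primes -/
def pc (c : ℕ → ℂ) (B : ℝ → ℝ) (a Λ y : ℝ) (n : ℕ) : ℂ := if n.Prime then qc c B a Λ y n else 0

/-- the remaining coefficients -/
def rc (c : ℕ → ℂ) (B : ℝ → ℝ) (a Λ : ℝ) (X : ℕ) (y : ℝ) (n : ℕ) : ℂ := if n.Prime ∧ n ≤ X then 0 else qc c B a Λ y n

/-- the Gaussian integral -/
def ga (a u v : ℝ) : ℝ := ∫ ξ in (-1:ℝ)..1, Real.exp (-(u + ξ * a - v) ^ 2 / 2)

section

variable {c : ℕ → ℂ} {B : ℝ → ℝ} {a Λ K : ℝ}

lemma qc_cont (hB : Continuous B) (n : ℕ) : Continuous fun y => qc c B a Λ y n := by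
  unfold qc
  have h1 := (Gq_cont hB a (Real.log n)).comp (f := fun y : ℝ => Λ * y) (by fun_prop)
  simp only [Function.comp_def] at h1
  fun_prop

lemma pc_cont (hB : Continuous B) (n : ℕ) : Continuous fun y => pc c B a Λ y n := by
  unfold pc
  split_ifs
  · exact qc_cont hB n
  · exact continuous_const

lemma rc_cont (hB : Continuous B) (X n : ℕ) : Continuous fun y => rc c B a Λ X y n := by
  unfold rc
  split_ifs
  · exact continuous_const
  · exact qc_cont hB n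

lemma pc_prime (y : ℝ) (n : ℕ) (h : ¬ n.Prime) : pc c B a Λ y n = 0 := by
  unfold pc; rw [if_neg h]

lemma ga_nonneg (a u v : ℝ) : 0 ≤ ga a u v :=
  intervalIntegral.integral_nonneg (by norm_num) fun _ _ => (Real.exp_pos _).le

lemma ga_cont (a v : ℝ) : Continuous (fun u => ga a u v) := by
  unfold ga
  apply intervalIntegral.continuous_parametric_intervalIntegral_of_continuous'
  fun_prop

lemma Gq_le (hK : ∀ ξ, |B ξ| ≤ K) (u v : ℝ) : |Gq B a u v| ≤ K * ga a u v := by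
  unfold Gq ga
  have hs : 1 ≤ Real.sqrt (2 * Real.pi) := by
    rw [Real.one_le_sqrt]
    nlinarith [Real.pi_gt_three]
  have h1 : |∫ ξ in (-1:ℝ)..1, B ξ * Real.exp (-(u + ξ * a - v) ^ 2 / 2)| ≤
      ∫ ξ in (-1:ℝ)..1, K * Real.exp (-(u + ξ * a - v) ^ 2 / 2) := by
    rw [← Real.norm_eq_abs]
    refine intervalIntegral.norm_integral_le_of_norm_le (by norm_num : (-1:ℝ) ≤ 1)
      (Filter.Eventually.of_forall fun ξ _ => ?_) (Continuous.intervalIntegrable (by fun_prop) _ _)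
    rw [Real.norm_eq_abs, abs_mul, abs_of_pos (Real.exp_pos _)]
    exact mul_le_mul_of_nonneg_right (hK ξ) (Real.exp_pos _).le
  rw [intervalIntegral.integral_const_mul] at h1
  rw [abs_mul, abs_of_nonneg (by positivity)]
  have h2 : 1 / Real.sqrt (2 * Real.pi) ≤ 1 := by
    rw [div_le_one (by linarith)]; exact hs
  calc _ ≤ 1 * |∫ ξ in (-1:ℝ)..1, B ξ * Real.exp (-(u + ξ * a - v) ^ 2 / 2)| :=
        mul_le_mul_of_nonneg_right h2 (abs_nonneg _)
    _ ≤ _ := by rw [one_mul]; exact h1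

/-- the Gaussian integral over an interval -/
lemma gauss_int' (Λ w p q : ℝ) (hΛ : 0 < Λ) (hpq : p ≤ q) :
    ∫ y in p..q, Real.exp (-(Λ * y + w) ^ 2 / 2) ≤ Real.sqrt (2 * Real.pi) / Λ := by
  have h1 : ∀ y : ℝ, Real.exp (-(Λ * y + w) ^ 2 / 2) =
      Real.exp (-(Λ ^ 2 / 2) * (y - (-(w / Λ))) ^ 2) := by
    intro y
    congr 1
    field_simp
    ring
  have hb : 0 < Λ ^ 2 / 2 := by positivity
  have h2 : Integrable (fun y : ℝ => Real.exp (-(Λ ^ 2 / 2) * (y - (-(w / Λ))) ^ 2)) :=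
    (integrable_exp_neg_mul_sq hb).comp_sub_right _
  have h3 : ∫ y : ℝ, Real.exp (-(Λ ^ 2 / 2) * (y - (-(w / Λ))) ^ 2) = Real.sqrt (2 * Real.pi) / Λ := by
    rw [integral_sub_right_eq_self (fun y : ℝ => Real.exp (-(Λ ^ 2 / 2) * y ^ 2)), integral_gaussian]
    rw [show Real.pi / (Λ ^ 2 / 2) = 2 * Real.pi / Λ ^ 2 by field_simp, Real.sqrt_div (by positivity),
      Real.sqrt_sq hΛ.le]
  simp only [h1]
  rw [intervalIntegral.integral_of_le hpq, ← h3]
  exact setIntegral_le_integral h2 (Filter.Eventually.of_forall fun _ => (Real.exp_pos _).le)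

lemma ga_int (v p q : ℝ) (hΛ : 0 < Λ) (hpq : p ≤ q) :
    ∫ y in p..q, ga a (Λ * y) v ≤ 6 / Λ := by
  unfold ga
  rw [swapc (f := fun y ξ => Real.exp (-(Λ * y + ξ * a - v) ^ 2 / 2)) (by
    have : Continuous (fun p : ℝ × ℝ => Real.exp (-(Λ * p.1 + p.2 * a - v) ^ 2 / 2)) := by fun_prop
    exact this)]
  have hs : Real.sqrt (2 * Real.pi) ≤ 3 := by
    rw [Real.sqrt_le_left (by norm_num)]
    nlinarith [Real.pi_lt_four]
  have h1 : ∫ ξ in (-1:ℝ)..1, ∫ y in p..q, Real.exp (-(Λ * y + ξ * a - v) ^ 2 / 2) ≤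
      ∫ _ξ in (-1:ℝ)..1, 3 / Λ := by
    refine intervalIntegral.integral_mono_on (by norm_num) ?_ intervalIntegrable_const fun ξ _ => ?_
    · refine (par_cont (f := fun ξ y => Real.exp (-(Λ * y + ξ * a - v) ^ 2 / 2)) ?_ p q).intervalIntegrable _ _
      have : Continuous (fun p : ℝ × ℝ => Real.exp (-(Λ * p.2 + p.1 * a - v) ^ 2 / 2)) := by fun_prop
      exact this
    · have h2 := gauss_int' Λ (ξ * a - v) p q hΛ hpq
      have h3 : ∀ y : ℝ, Λ * y + (ξ * a - v) = Λ * y + ξ * a - v := fun y => by ring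
      simp_rw [h3] at h2
      refine h2.trans ?_
      gcongr
  refine h1.trans (le_of_eq ?_)
  rw [intervalIntegral.integral_const, smul_eq_mul]
  ring

lemma sum_ga (u : ℝ) (ha : 0 ≤ a) (hu : a ≤ u) (X : ℕ) :
    ∑ n ∈ Finset.Icc 1 X, ArithmeticFunction.vonMangoldt n ^ 2 / n * ga a u (Real.log n) ≤ c1 * (1 + u + a) := by
  unfold ga
  have hc : ∀ n : ℕ, Continuous fun ξ : ℝ => ArithmeticFunction.vonMangoldt n ^ 2 / n *
      Real.exp (-(u + ξ * a - Real.log n) ^ 2 / 2) := fun n => by fun_prop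
  have e1 : ∑ n ∈ Finset.Icc 1 X, ArithmeticFunction.vonMangoldt n ^ 2 / n *
      ∫ ξ in (-1:ℝ)..1, Real.exp (-(u + ξ * a - Real.log n) ^ 2 / 2) =
      ∫ ξ in (-1:ℝ)..1, ∑ n ∈ Finset.Icc 1 X, ArithmeticFunction.vonMangoldt n ^ 2 / n *
        Real.exp (-(u + ξ * a - Real.log n) ^ 2 / 2) := by
    rw [intervalIntegral.integral_finsetSum fun n _ => (hc n).intervalIntegrable _ _]
    refine Finset.sum_congr rfl fun n _ => ?_
    rw [intervalIntegral.integral_const_mul]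
  rw [e1]
  have h0 := c0_pos
  have h1 : ∫ ξ in (-1:ℝ)..1, ∑ n ∈ Finset.Icc 1 X, ArithmeticFunction.vonMangoldt n ^ 2 / n *
        Real.exp (-(u + ξ * a - Real.log n) ^ 2 / 2) ≤ ∫ _ξ in (-1:ℝ)..1, 5 * Real.exp 2 * c0 * (1 + u + a) := by
    refine intervalIntegral.integral_mono_on (by norm_num)
      ((continuous_finsetSum _ fun n _ => hc n).intervalIntegrable _ _) intervalIntegrable_const fun ξ hξ => ?_
    have h2 : 0 ≤ u + ξ * a := by nlinarith [hξ.1]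
    refine (sum_W (u + ξ * a) h2 X).trans ?_
    have h3 : 1 + (u + ξ * a) ≤ 1 + u + a := by nlinarith [hξ.2]
    exact mul_le_mul_of_nonneg_left h3 (by positivity)
  refine h1.trans (le_of_eq ?_)
  rw [intervalIntegral.integral_const, smul_eq_mul]
  unfold c1
  ring

lemma pc_norm (hc : ∀ n, ‖c n‖ ≤ ArithmeticFunction.vonMangoldt n) (hK : ∀ ξ, |B ξ| ≤ K) (y : ℝ) (n : ℕ) :
    ‖pc c B a Λ y n‖ ≤ ArithmeticFunction.vonMangoldt n * (Real.sqrt n)⁻¹ * (K * ga a (Λ * y) (Real.log n)) := by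
  have hK0 : 0 ≤ K := (abs_nonneg _).trans (hK 0)
  have hv : 0 ≤ ArithmeticFunction.vonMangoldt n := ArithmeticFunction.vonMangoldt_nonneg
  have hg := ga_nonneg a (Λ * y) (Real.log n)
  unfold pc
  split_ifs
  · unfold qc
    rw [norm_mul, Complex.norm_real, Real.norm_eq_abs, abs_mul, abs_of_nonneg (by positivity : 0 ≤ (Real.sqrt n)⁻¹),
      mul_assoc]
    refine mul_le_mul (hc n) ?_ (by positivity) hv
    exact mul_le_mul_of_nonneg_left (Gq_le hK _ _) (by positivity)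
  · rw [norm_zero]
    positivity

lemma Iq_ga (hc : ∀ n, ‖c n‖ ≤ ArithmeticFunction.vonMangoldt n) (hK : ∀ ξ, |B ξ| ≤ K) (X : ℕ) (y y' : ℝ) :
    ‖Iq X (pc c B a Λ) y y'‖ ≤ K ^ 2 * ∑ n ∈ Finset.Icc 1 X, ArithmeticFunction.vonMangoldt n ^ 2 / n *
      ga a (Λ * y) (Real.log n) * ga a (Λ * y') (Real.log n) := by
  unfold Iq
  rw [Finset.mul_sum]
  refine (norm_sum_le _ _).trans (Finset.sum_le_sum fun n hn => ?_)
  rw [norm_mul, RCLike.norm_conj]
  have hn0 : (0:ℝ) < n := by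
    have := (Finset.mem_Icc.1 hn).1
    exact_mod_cast (by omega : 0 < n)
  have h1 := pc_norm (a := a) (Λ := Λ) hc hK y n
  have h2 := pc_norm (a := a) (Λ := Λ) hc hK y' n
  refine (mul_le_mul h1 h2 (norm_nonneg _) ((norm_nonneg _).trans h1)).trans (le_of_eq ?_)
  have h3 : (Real.sqrt n)⁻¹ * (Real.sqrt n)⁻¹ = 1 / n := by
    rw [← mul_inv, Real.mul_self_sqrt hn0.le, one_div]
  calc _ = ArithmeticFunction.vonMangoldt n ^ 2 * ((Real.sqrt n)⁻¹ * (Real.sqrt n)⁻¹) *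
      (K * ga a (Λ * y) (Real.log n)) * (K * ga a (Λ * y') (Real.log n)) := by ring
    _ = _ := by rw [h3]; ring

/-- the integral of the inner products -/
lemma Iq_int (hB : Continuous B) (hc : ∀ n, ‖c n‖ ≤ ArithmeticFunction.vonMangoldt n) (hK : ∀ ξ, |B ξ| ≤ K) (X : ℕ)
    {p q : ℝ} (hp : 0 ≤ p) (hpq : p ≤ q) (hq : q ≤ 1) (ha : 0 < a) (hΛ : 1 ≤ Λ) (hpa : a ≤ Λ * p) (haΛ : a ≤ Λ) :
    ∫ y in p..q, ∫ y' in p..q, ‖Iq X (pc c B a Λ) y y'‖ ≤ 18 * c1 * K ^ 2 := by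
  have hΛ0 : 0 < Λ := by linarith
  have h1c := c1_pos
  have hIc := Iq_cont X (pc c B a Λ) (pc_cont hB)
  have hI2 : Continuous (Function.uncurry fun y y' : ℝ => ‖Iq X (pc c B a Λ) y y'‖) := hIc.norm
  have hgc : ∀ v : ℝ, Continuous fun y : ℝ => ga a (Λ * y) v := fun v =>
    (ga_cont a v).comp (f := fun y : ℝ => Λ * y) (by fun_prop)
  -- the inner integral
  have h1 : ∀ y ∈ Set.Icc p q, ∫ y' in p..q, ‖Iq X (pc c B a Λ) y y'‖ ≤ 18 * c1 * K ^ 2 := by
    intro y hy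
    have h2 : ∫ y' in p..q, ‖Iq X (pc c B a Λ) y y'‖ ≤ ∫ y' in p..q, K ^ 2 * ∑ n ∈ Finset.Icc 1 X,
        ArithmeticFunction.vonMangoldt n ^ 2 / n * ga a (Λ * y) (Real.log n) * ga a (Λ * y') (Real.log n) := by
      refine intervalIntegral.integral_mono_on hpq ?_ ?_ fun y' _ => Iq_ga hc hK X y y'
      · exact Continuous.intervalIntegrable (hI2.comp (f := fun y' : ℝ => (y, y')) (by fun_prop)) _ _
      · refine Continuous.intervalIntegrable ?_ _ _
        exact continuous_const.mul (continuous_finsetSum _ fun n _ => continuous_const.mul (hgc _))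
    refine h2.trans ?_
    have hii : ∀ n : ℕ, IntervalIntegrable (fun y' : ℝ => ArithmeticFunction.vonMangoldt n ^ 2 / n *
        ga a (Λ * y) (Real.log n) * ga a (Λ * y') (Real.log n)) volume p q := fun n =>
      (continuous_const.mul (hgc _)).intervalIntegrable _ _
    rw [intervalIntegral.integral_const_mul, intervalIntegral.integral_finsetSum fun n _ => hii n]
    have h3 : ∑ n ∈ Finset.Icc 1 X, ∫ y' in p..q, ArithmeticFunction.vonMangoldt n ^ 2 / n *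
        ga a (Λ * y) (Real.log n) * ga a (Λ * y') (Real.log n) ≤ ∑ n ∈ Finset.Icc 1 X,
        ArithmeticFunction.vonMangoldt n ^ 2 / n * ga a (Λ * y) (Real.log n) * (6 / Λ) := by
      refine Finset.sum_le_sum fun n _ => ?_
      rw [intervalIntegral.integral_const_mul]
      exact mul_le_mul_of_nonneg_left (ga_int (a := a) (Real.log n) p q hΛ0 hpq)
        (mul_nonneg (by positivity) (ga_nonneg _ _ _))
    rw [← Finset.sum_mul] at h3
    have hay : a ≤ Λ * y := hpa.trans (mul_le_mul_of_nonneg_left hy.1 hΛ0.le)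
    have h4 := sum_ga (Λ * y) ha.le hay X
    have h5 : 1 + Λ * y + a ≤ 3 * Λ := by
      have : Λ * y ≤ Λ * 1 := mul_le_mul_of_nonneg_left (hy.2.trans hq) hΛ0.le
      linarith
    have h6 : (∑ n ∈ Finset.Icc 1 X, ArithmeticFunction.vonMangoldt n ^ 2 / n *
        ga a (Λ * y) (Real.log n)) * (6 / Λ) ≤ (c1 * (3 * Λ)) * (6 / Λ) := by
      refine mul_le_mul_of_nonneg_right (h4.trans ?_) (by positivity)
      exact mul_le_mul_of_nonneg_left h5 h1c.le
    have h7 : (c1 * (3 * Λ)) * (6 / Λ) = 18 * c1 := by field_simp; ring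
    rw [h7] at h6
    calc _ ≤ K ^ 2 * (18 * c1) := mul_le_mul_of_nonneg_left (h3.trans h6) (sq_nonneg K)
      _ = _ := by ring
  have h8 : ∫ y in p..q, ∫ y' in p..q, ‖Iq X (pc c B a Λ) y y'‖ ≤ ∫ _y in p..q, 18 * c1 * K ^ 2 :=
    intervalIntegral.integral_mono_on hpq ((par_cont hI2 p q).intervalIntegrable _ _)
      intervalIntegrable_const h1
  rw [intervalIntegral.integral_const, smul_eq_mul] at h8
  refine h8.trans ?_
  have : 0 ≤ 18 * c1 * K ^ 2 := by positivity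
  nlinarith

/-- the norm square of the coefficients -/
lemma Aq_le (hc : ∀ n, ‖c n‖ ≤ ArithmeticFunction.vonMangoldt n) (hK : ∀ ξ, |B ξ| ≤ K) (X : ℕ)
    {τ y : ℝ} (hτ : 0 < τ) (hτ1 : τ ≤ 1) (ha : 1 ≤ a) (hy : a ≤ Λ * y) (hy1 : y ≤ 1) (hΛ : 0 ≤ Λ) (hΛa : Λ * τ ≤ a) :
    Aq X (pc c B a Λ) y ≤ 4 * c1 * K ^ 2 / τ := by
  have h1c := c1_pos
  have ha0 : 0 < a := by linarith
  have hu0 : 0 ≤ Λ * y := by linarith
  have h1 : Aq X (pc c B a Λ) y ≤ ∑ n ∈ Finset.Icc 1 X,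
      ArithmeticFunction.vonMangoldt n ^ 2 / n * Gp B a (Λ * y) (Real.log n) ^ 2 := by
    unfold Aq
    refine Finset.sum_le_sum fun n _ => ?_
    rw [Gp_eq B ha0 hy]
    unfold pc
    split_ifs
    · exact coef_sq c hc _ n
    · rw [norm_zero, zero_pow two_ne_zero]; positivity
  refine h1.trans ((sum_Gp B K a (Λ * y) hK ha hu0 X).trans ?_)
  have h2 : Λ * y / a ≤ 1 / τ := by
    rw [div_le_div_iff₀ ha0 hτ]
    have : Λ * y ≤ Λ := by nlinarith
    nlinarith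
  have h3 : (1:ℝ) ≤ 1 / τ := by rw [le_div_iff₀ hτ]; linarith
  calc 2 * c1 * K ^ 2 * (1 + Λ * y / a) ≤ 2 * c1 * K ^ 2 * (1 / τ + 1 / τ) := by gcongr
    _ = _ := by ring

/-- the variance -/
lemma Vl_le (hB : Continuous B) (hc : ∀ n, ‖c n‖ ≤ ArithmeticFunction.vonMangoldt n) (hK : ∀ ξ, |B ξ| ≤ K) (X : ℕ)
    {R : ℝ → ℝ} {Rm : ℝ} (hR : Continuous R) (hR0 : ∀ y, 0 ≤ R y) (hRm : ∀ y, R y ≤ Rm)
    {τ p q : ℝ} (hτ : 0 < τ) (hτ1 : τ ≤ 1) (ha : 1 ≤ a) (hp : 0 ≤ p) (hpq : p ≤ q) (hq : q ≤ 1) (hΛ : 1 ≤ Λ)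
    (hpa : a ≤ Λ * p) (haΛ : a ≤ Λ) (hΛa : Λ * τ ≤ a) :
    Vl X R (pc c B a Λ) p q ≤ 72 * c1 ^ 2 * (Rm ^ 2 * K ^ 4) / τ := by
  have h1c := c1_pos
  have hRm0 : 0 ≤ Rm := (hR0 0).trans (hRm 0)
  have hIc := Iq_cont X (pc c B a Λ) (pc_cont hB)
  set Am : ℝ := 4 * c1 * K ^ 2 / τ with hAm
  have hAm0 : 0 ≤ Am := by positivity
  have hA : ∀ y ∈ Set.Icc p q, Aq X (pc c B a Λ) y ≤ Am := fun y hy =>
    Aq_le hc hK X hτ hτ1 ha (hpa.trans (mul_le_mul_of_nonneg_left hy.1 (by linarith))) (hy.2.trans hq) (by linarith) hΛa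
  have hI : ∀ y ∈ Set.Icc p q, ∀ y' ∈ Set.Icc p q, ‖Iq X (pc c B a Λ) y y'‖ ^ 2 ≤ Am * ‖Iq X (pc c B a Λ) y y'‖ := by
    intro y hy y' hy'
    have h1 := Iq_le X (pc c B a Λ) y y'
    have h2 : Aq X (pc c B a Λ) y * Aq X (pc c B a Λ) y' ≤ Am ^ 2 := by
      rw [sq]
      exact mul_le_mul (hA y hy) (hA y' hy') (Aq_nonneg _ _ _) hAm0
    have h3 : ‖Iq X (pc c B a Λ) y y'‖ ≤ Am := by
      refine le_of_sq_le_sq ?_ hAm0
      exact h1.trans h2
    have h4 := norm_nonneg (Iq X (pc c B a Λ) y y')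
    nlinarith
  have hc2 : Continuous (Function.uncurry fun y y' : ℝ => R y * R y' * ‖Iq X (pc c B a Λ) y y'‖ ^ 2) := by
    have h1 : Continuous (fun p : ℝ × ℝ => R p.1 * R p.2 * ‖Iq X (pc c B a Λ) p.1 p.2‖ ^ 2) :=
      ((hR.comp continuous_fst).mul (hR.comp continuous_snd)).mul (hIc.norm.pow 2)
    exact h1
  have hc3 : Continuous (Function.uncurry fun y y' : ℝ => (Rm ^ 2 * Am) * ‖Iq X (pc c B a Λ) y y'‖) :=
    continuous_const.mul hIc.norm
  have h5 : Vl X R (pc c B a Λ) p q ≤ ∫ y in p..q, ∫ y' in p..q, (Rm ^ 2 * Am) * ‖Iq X (pc c B a Λ) y y'‖ := by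
    unfold Vl
    refine intervalIntegral.integral_mono_on hpq ((par_cont hc2 p q).intervalIntegrable _ _)
      ((par_cont hc3 p q).intervalIntegrable _ _) fun y hy => ?_
    refine intervalIntegral.integral_mono_on hpq
      (Continuous.intervalIntegrable (hc2.comp (f := fun y' : ℝ => (y, y')) (by fun_prop)) _ _)
      (Continuous.intervalIntegrable (hc3.comp (f := fun y' : ℝ => (y, y')) (by fun_prop)) _ _) fun y' hy' => ?_
    have h6 : R y * R y' ≤ Rm ^ 2 := by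
      rw [sq]; exact mul_le_mul (hRm y) (hRm y') (hR0 y') hRm0
    calc R y * R y' * ‖Iq X (pc c B a Λ) y y'‖ ^ 2 ≤ Rm ^ 2 * (Am * ‖Iq X (pc c B a Λ) y y'‖) :=
          mul_le_mul h6 (hI y hy y' hy') (by positivity) (by positivity)
      _ = _ := by ring
  refine h5.trans ?_
  simp_rw [intervalIntegral.integral_const_mul]
  have h7 := Iq_int (c := c) (B := B) (a := a) (Λ := Λ) hB hc hK X hp hpq hq (by linarith) hΛ hpa haΛ
  calc _ ≤ Rm ^ 2 * Am * (18 * c1 * K ^ 2) := mul_le_mul_of_nonneg_left h7 (by positivity)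
    _ = _ := by rw [hAm]; ring

end

end

end Pool.Agent.K4H6.Cov
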