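import Pool.Agent.K4H6.Cov.Low1
import Pool.Agent.Y498.SW.TI5

set_option autoImplicit false

/-! Coverage: the mean of the short sums over an arbitrary set. -/

namespace Pool.Agent.K4H6.Cov

open Filter Topology MeasureTheory Complex Pool.Agent.Y745.SW Pool.Agent.Y274.SW

noncomputable section

/-- the length of the short sums -/
def XS (ε T : ℝ) : ℕ := ⌊T ^ (1 / 2 - ε / 8)⌋₊

/-- the bound for the remaining coefficients -/
def rb (ε τ K L : ℝ) : ℝ := L ^ 2 * (1 + L) * (K * Real.exp (-(τ * L / 2) ^ 2 / 2)) ^ 2 +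
  L ^ 2 * K ^ 2 * (Real.exp (-(τ * L / 8)) * (2 * L * Pool.Agent.Y498.SW.K3)) +
  L ^ 2 * (1 + L) * (K * Real.exp (-(ε / 8 * L) ^ 2 / 2)) ^ 2

lemma lim_pow (q : ℕ) (c : ℝ) (hc : 0 < c) :
    Tendsto (fun L : ℝ => L ^ q * Real.exp (-(c * L))) atTop (𝓝 0) := by
  have h := Pool.Agent.Y498.SW.lim0 0 q c hc le_rfl
  refine h.congr fun L => ?_
  rw [zero_mul, Real.exp_zero, mul_one]

lemma sq_exp_le (K x : ℝ) : (K * Real.exp (-x ^ 2 / 2)) ^ 2 ≤ 2 * K ^ 2 * Real.exp (-x) := by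
  have h1 : Real.exp (-x ^ 2 / 2) ^ 2 = Real.exp (-x ^ 2) := by
    rw [← Real.exp_nat_mul]; congr 1; push_cast; ring
  have h2 : Real.exp (-x ^ 2) ≤ Real.exp (1 / 4) * Real.exp (-x) := by
    rw [← Real.exp_add]
    exact Real.exp_le_exp.2 (by nlinarith [sq_nonneg (x - 1 / 2)])
  have h3 : Real.exp (1 / 4) ≤ 2 := by
    have h4 : Real.exp (1 / 4) ^ 4 = Real.exp 1 := by
      rw [← Real.exp_nat_mul]; congr 1; norm_num
    have h5 := Real.exp_one_lt_d9
    by_contra h6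
    push Not at h6
    have h7 : (2:ℝ) ^ 4 < Real.exp (1 / 4) ^ 4 := pow_lt_pow_left₀ h6 (by norm_num) (by norm_num)
    rw [h4] at h7
    linarith
  rw [mul_pow, h1]
  have h8 := Real.exp_pos (-x)
  calc K ^ 2 * Real.exp (-x ^ 2) ≤ K ^ 2 * (Real.exp (1 / 4) * Real.exp (-x)) :=
        mul_le_mul_of_nonneg_left h2 (sq_nonneg K)
    _ ≤ K ^ 2 * (2 * Real.exp (-x)) :=
        mul_le_mul_of_nonneg_left (mul_le_mul_of_nonneg_right h3 h8.le) (sq_nonneg K)
    _ = _ := by ring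

lemma rb_lim {ε τ : ℝ} (K : ℝ) (hε : 0 < ε) (hτ : 0 < τ) : Tendsto (rb ε τ K) atTop (𝓝 0) := by
  have hK3 := Pool.Agent.Y498.SW.K3_nonneg
  set U : ℝ → ℝ := fun L => 4 * K ^ 2 * (L ^ 3 * Real.exp (-(τ / 2 * L))) +
    2 * K ^ 2 * Pool.Agent.Y498.SW.K3 * (L ^ 3 * Real.exp (-(τ / 8 * L))) +
    4 * K ^ 2 * (L ^ 3 * Real.exp (-(ε / 8 * L))) with hU
  have hUl : Tendsto U atTop (𝓝 0) := by
    have h1 := (lim_pow 3 (τ / 2) (by positivity)).const_mul (4 * K ^ 2)
    have h2 := (lim_pow 3 (τ / 8) (by positivity)).const_mul (2 * K ^ 2 * Pool.Agent.Y498.SW.K3)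
    have h3 := (lim_pow 3 (ε / 8) (by positivity)).const_mul (4 * K ^ 2)
    have h4 := (h1.add h2).add h3
    simpa using h4
  refine squeeze_zero' ?_ ?_ hUl
  · filter_upwards [eventually_ge_atTop 0] with L hL
    unfold rb
    positivity
  · filter_upwards [eventually_ge_atTop 1] with L hL
    have hL0 : 0 ≤ L := by linarith
    have hL3 : L ^ 2 * (1 + L) ≤ 2 * L ^ 3 := by nlinarith [sq_nonneg L, mul_nonneg (sq_nonneg L) (sub_nonneg.2 hL)]
    have e1 : L ^ 2 * (1 + L) * (K * Real.exp (-(τ * L / 2) ^ 2 / 2)) ^ 2 ≤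
        4 * K ^ 2 * (L ^ 3 * Real.exp (-(τ / 2 * L))) := by
      calc _ ≤ (2 * L ^ 3) * (2 * K ^ 2 * Real.exp (-(τ * L / 2))) :=
            mul_le_mul hL3 (sq_exp_le K _) (by positivity) (by positivity)
        _ = _ := by rw [show τ * L / 2 = τ / 2 * L by ring]; ring
    have e2 : L ^ 2 * K ^ 2 * (Real.exp (-(τ * L / 8)) * (2 * L * Pool.Agent.Y498.SW.K3)) =
        2 * K ^ 2 * Pool.Agent.Y498.SW.K3 * (L ^ 3 * Real.exp (-(τ / 8 * L))) := by
      rw [show τ * L / 8 = τ / 8 * L by ring]; ring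
    have e3 : L ^ 2 * (1 + L) * (K * Real.exp (-(ε / 8 * L) ^ 2 / 2)) ^ 2 ≤
        4 * K ^ 2 * (L ^ 3 * Real.exp (-(ε / 8 * L))) := by
      calc _ ≤ (2 * L ^ 3) * (2 * K ^ 2 * Real.exp (-(ε / 8 * L))) :=
            mul_le_mul hL3 (sq_exp_le K _) (by positivity) (by positivity)
        _ = _ := by ring
    unfold rb
    simp only [hU]
    linarith

/-- short sums have small error terms in the mean value theorem -/
lemma ev_short {ε κ : ℝ} (hε : 0 < ε) (hκ : 0 < κ) :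
    ∀ᶠ T : ℝ in atTop, ∀ X : ℕ, (X : ℝ) ≤ T ^ (1 - ε / 4) → 8 * (X : ℝ) * (1 + Real.log X) ≤ κ * T := by
  have h1 : ∀ᶠ T : ℝ in atTop, 8 * (1 + Real.log T) ≤ κ * T ^ (ε / 4) := by
    have h2 := (isLittleO_log_rpow_atTop (by positivity : 0 < ε / 4)).bound
      (by positivity : (0 : ℝ) < κ / 16)
    have h3 := (tendsto_rpow_atTop (by positivity : 0 < ε / 4)).eventually_ge_atTop (16 / κ)
    filter_upwards [h2, h3, eventually_ge_atTop (1 : ℝ)] with T h4 h5 h6
    rw [Real.norm_eq_abs, Real.norm_eq_abs, abs_of_nonneg (Real.log_nonneg h6),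
      abs_of_nonneg (by positivity)] at h4
    rw [div_le_iff₀ hκ] at h5
    linarith
  filter_upwards [h1, eventually_ge_atTop (1 : ℝ)] with T h2 h3
  intro X h4
  have hT : 0 < T := by linarith
  have h5 : Real.log X ≤ Real.log T := by
    rcases Nat.eq_zero_or_pos X with h0 | h0
    · rw [h0, Nat.cast_zero, Real.log_zero]
      exact Real.log_nonneg h3
    · refine Real.log_le_log (by exact_mod_cast h0) (h4.trans ?_)
      calc T ^ (1 - ε / 4) ≤ T ^ (1 : ℝ) := Real.rpow_le_rpow_of_exponent_le h3 (by linarith)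
        _ = T := Real.rpow_one T
  have h6 : 0 ≤ Real.log T := Real.log_nonneg h3
  calc 8 * (X : ℝ) * (1 + Real.log X)
      ≤ 8 * (X : ℝ) * (1 + Real.log T) :=
        mul_le_mul_of_nonneg_left (by linarith) (by positivity)
    _ = (X : ℝ) * (8 * (1 + Real.log T)) := by ring
    _ ≤ T ^ (1 - ε / 4) * (κ * T ^ (ε / 4)) := mul_le_mul h4 h2 (by positivity) (by positivity)
    _ = κ * (T ^ (1 - ε / 4) * T ^ (ε / 4)) := by ring
    _ = κ * T := by
        rw [← Real.rpow_add hT]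
        norm_num

section

variable {c : ℕ → ℂ} {B : ℝ → ℝ} {ε τ K T : ℝ}

/-- the remaining coefficients are small -/
lemma rc_small (hc : ∀ n, ‖c n‖ ≤ ArithmeticFunction.vonMangoldt n) (hK : ∀ ξ, |B ξ| ≤ K)
    (hε : 0 < ε) (hε2 : ε < 1 / 2) (hτ : 0 < τ) (hτε : τ ≤ ε / 4) (hT : 1 ≤ T) (hL : 1 ≤ Real.log T)
    {y : ℝ} (hy : 4 * τ ≤ y) (hy2 : y ≤ 1 / 2) :
    Aq (XT ε T) (rc c B (τ * Real.log T) ((1 - ε) * Real.log T) (XS ε T)) y ≤ rb ε τ K (Real.log T) := by
  set L := Real.log T with hLd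
  have hL0 : 0 < L := by linarith
  have hT0 : 0 < T := by linarith
  set a := τ * L with ha
  set u := (1 - ε) * L * y with hu
  have hu2 : 2 * a ≤ u := u_ge (ηs := 4 * τ) hε hε2 hτ hτε le_rfl (by linarith) hL0 hy
  have ha0 : 0 < a := mul_pos hτ hL0
  have hH : Pool.Agent.Y498.SW.Hyp c B K L τ a u (XT ε T) := by
    refine ⟨hc, fun ξ _ => hK ξ, hL, hτ, rfl, hu2, fun n h1 h2 => ?_⟩
    have h3 : (n : ℝ) ≤ XT ε T := by exact_mod_cast h2
    have h4 : (XT ε T : ℝ) ≤ T ^ (1 - ε / 4) := Nat.floor_le (by positivity)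
    refine Real.log_le_log (by exact_mod_cast h1) ((h3.trans h4).trans ?_)
    calc T ^ (1 - ε / 4) ≤ T ^ (1 : ℝ) := Real.rpow_le_rpow_of_exponent_le hT (by linarith)
      _ = T := Real.rpow_one T
  have h1 := hH.small 0 (Real.exp_pos _).le
  have h2 := hH.sumg (K * Real.exp (-(ε / 8 * L) ^ 2 / 2))
  have h3 : ∀ n ∈ Finset.Icc 1 (XT ε T), ‖rc c B a ((1 - ε) * L) (XS ε T) y n‖ ^ 2 ≤
      (if n.Prime ∧ (0:ℝ) < n then 0 else ‖dp c B a u n‖ ^ 2) +
      ArithmeticFunction.vonMangoldt n ^ 2 * (1 / (n:ℝ)) * (K * Real.exp (-(ε / 8 * L) ^ 2 / 2)) ^ 2 := by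
    intro n hn
    have hn1 := (Finset.mem_Icc.1 hn).1
    have hn0 : (0:ℝ) < n := by exact_mod_cast (by omega : 0 < n)
    have hpos : 0 ≤ ArithmeticFunction.vonMangoldt n ^ 2 * (1 / (n:ℝ)) * (K * Real.exp (-(ε / 8 * L) ^ 2 / 2)) ^ 2 := by
      positivity
    have hdq : dp c B a u n = qc c B a ((1 - ε) * L) y n := by
      unfold dp qc
      rw [Gp_eq B ha0 (by linarith)]
    have hif : 0 ≤ (if n.Prime ∧ (0:ℝ) < n then 0 else ‖dp c B a u n‖ ^ 2) := by
      split_ifs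
      · exact le_rfl
      · positivity
    unfold rc
    by_cases h4 : n.Prime ∧ n ≤ XS ε T
    · rw [if_pos h4, norm_zero, zero_pow two_ne_zero]
      linarith
    · rw [if_neg h4, ← hdq]
      by_cases h5 : n.Prime
      · have h6 : XS ε T < n := by
          by_contra hcon
          exact h4 ⟨h5, not_lt.1 hcon⟩
        have h7 : T ^ (1 / 2 - ε / 8) < n := by
          have := (Nat.floor_lt (by positivity)).1 h6
          exact this
        have h8 : (1 / 2 - ε / 8) * L ≤ Real.log n := by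
          rw [hLd, ← Real.log_rpow hT0]
          exact Real.log_le_log (by positivity) h7.le
        have h9 : a + ε / 8 * L ≤ |Real.log n - u| := by
          refine le_trans ?_ (le_abs_self _)
          have h10 : u ≤ (1 - ε) * L * (1 / 2) :=
            mul_le_mul_of_nonneg_left hy2 (mul_nonneg (by linarith) hL0.le)
          have h11 : a ≤ ε / 4 * L := mul_le_mul_of_nonneg_right hτε hL0.le
          linarith
        have h12 := hH.sq_le n _ (hH.Gr _ (ε / 8 * L) (by positivity) h9)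
        linarith
      · rw [if_neg (fun h => h5 h.1)]
        linarith
  unfold Aq
  refine (Finset.sum_le_sum h3).trans ?_
  rw [Finset.sum_add_distrib]
  unfold rb
  linarith

/-- splitting of the sum -/
lemma DD_split (hXX : XS ε T ≤ XT ε T) (a Λ y t : ℝ) :
    DPq c B a (Λ * y) (XT ε T) t = DD (XS ε T) (pc c B a Λ y) t + DD (XT ε T) (rc c B a Λ (XS ε T) y) t := by
  have e1 : DD (XS ε T) (pc c B a Λ y) t = DD (XT ε T) (fun n => if n.Prime ∧ n ≤ XS ε T then qc c B a Λ y n else 0) t := by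
    unfold DD
    have hsub : Finset.Icc 1 (XS ε T) ⊆ Finset.Icc 1 (XT ε T) := Finset.Icc_subset_Icc le_rfl hXX
    rw [← Finset.sum_subset hsub]
    · refine Finset.sum_congr rfl fun n hn => ?_
      have h1 := (Finset.mem_Icc.1 hn).2
      unfold pc
      beta_reduce
      by_cases h2 : n.Prime
      · rw [if_pos h2, if_pos ⟨h2, h1⟩]
      · rw [if_neg h2, if_neg (fun h => h2 h.1)]
    · intro n hn hn2
      have h1 := (Finset.mem_Icc.1 hn).1
      beta_reduce
      rw [if_neg, zero_mul]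
      rintro ⟨-, h3⟩
      exact hn2 (Finset.mem_Icc.2 ⟨h1, h3⟩)
  rw [e1]
  unfold DD DPq
  rw [← Finset.sum_add_distrib]
  refine Finset.sum_congr rfl fun n _ => ?_
  unfold rc qc
  beta_reduce
  split_ifs with h
  · rw [zero_mul, add_zero]
  · rw [zero_mul, zero_add]

end

end

end Pool.Agent.K4H6.Cov
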