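import Pool.Agent.K4H6.Cov.Low2
import Pool.Agent.Y745.SW.Blk4

set_option autoImplicit false

/-! Coverage: the mean of the short sums over an arbitrary set, main theorem. -/

namespace Pool.Agent.K4H6.Cov

open Filter Topology MeasureTheory Complex Pool.Agent.Y745.SW Pool.Agent.Y274.SW

noncomputable section

section

variable {c : ℕ → ℂ} {B : ℝ → ℝ} {ε τ K T : ℝ}

lemma Zq_eq (hε : 0 < ε) (hε2 : ε < 1 / 2) (hτ : 0 < τ) (hτε : τ ≤ ε / 4) (R : ℝ → ℝ) (hL : 0 < Real.log T) :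
    Zq R c B ε τ (4 * τ) T = 2 * ∫ y in (4 * τ)..1, R y *
      Aq (XT ε T) (qc c B (τ * Real.log T) ((1 - ε) * Real.log T)) y := by
  unfold Zq Aq
  congr 1
  refine intervalIntegral.integral_congr fun y hy => ?_
  rw [Set.uIcc_of_le (by linarith)] at hy
  beta_reduce
  congr 1
  refine Finset.sum_congr rfl fun n _ => ?_
  unfold dp qc
  have h1 := u_ge (ηs := 4 * τ) hε hε2 hτ hτε le_rfl (by linarith) hL hy.1
  have h2 := mul_pos hτ hL
  rw [Gp_eq B h2 (by linarith)]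

lemma Aq_pc_le (hXX : XS ε T ≤ XT ε T) (a Λ y : ℝ) :
    Aq (XS ε T) (pc c B a Λ) y ≤ Aq (XT ε T) (qc c B a Λ) y := by
  unfold Aq
  have hsub : Finset.Icc 1 (XS ε T) ⊆ Finset.Icc 1 (XT ε T) := Finset.Icc_subset_Icc le_rfl hXX
  refine le_trans ?_ (Finset.sum_le_sum_of_subset_of_nonneg hsub fun n _ _ => by positivity)
  refine Finset.sum_le_sum fun n _ => ?_
  unfold pc
  split_ifs
  · exact le_rfl
  · rw [norm_zero, zero_pow two_ne_zero]; positivity

lemma XS_le (hε : 0 < ε) (hT : 1 ≤ T) (hε2 : ε < 1 / 2) : XS ε T ≤ XT ε T := by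
  unfold XS XT
  refine Nat.floor_le_floor ?_
  exact Real.rpow_le_rpow_of_exponent_le hT (by linarith)

lemma XS_sq (hT : 1 ≤ T) : ((XS ε T * XS ε T : ℕ) : ℝ) ≤ T ^ (1 - ε / 4) := by
  have hT0 : 0 < T := by linarith
  have h1 : (XS ε T : ℝ) ≤ T ^ (1 / 2 - ε / 8) := Nat.floor_le (by positivity)
  push_cast
  calc (XS ε T : ℝ) * XS ε T ≤ T ^ (1 / 2 - ε / 8) * T ^ (1 / 2 - ε / 8) :=
        mul_le_mul h1 h1 (Nat.cast_nonneg _) (by positivity)
    _ = T ^ (1 - ε / 4) := by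
        rw [← Real.rpow_add hT0]
        congr 1
        ring

/-- the pointwise bound for the weight -/
lemma Dq_low_le (hB : Continuous B) {R : ℝ → ℝ} (hR : Continuous R) (hR0 : ∀ y, 0 ≤ R y)
    (hRz : ∀ y, 1 / 2 ≤ y → R y = 0) (hε : 0 < ε) (hε2 : ε < 1 / 2) (hτ : 0 < τ) (hτε : τ ≤ ε / 4)
    (hXX : XS ε T ≤ XT ε T) (hL : 0 < Real.log T) {η : ℝ} (hη : 0 < η) (t : ℝ) :
    Dq R c B ε τ (4 * τ) T t ≤
      (1 + η) * (2 * Dl (XS ε T) R (pc c B (τ * Real.log T) ((1 - ε) * Real.log T)) (4 * τ) (1 / 2) t) +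
      (1 + 1 / η) * (2 * Dl (XT ε T) R (rc c B (τ * Real.log T) ((1 - ε) * Real.log T) (XS ε T)) (4 * τ) (1 / 2) t) := by
  set L := Real.log T with hLd
  set a := τ * L with ha
  set Λ := (1 - ε) * L with hΛ
  rw [Dq_eq hε hε2 hτ hτε le_rfl (by linarith) R hL]
  have hDc : Continuous (fun y : ℝ => DPq c B a (Λ * y) (XT ε T) t) := by
    have h1 := (DPq_cont c hB a (XT ε T)).comp (f := fun x : ℝ => (Λ * x, t)) (by fun_prop)
    simpa only [Function.comp_def] using h1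
  have hFc : Continuous (fun y : ℝ => R y * ‖DPq c B a (Λ * y) (XT ε T) t‖ ^ 2) := hR.mul (hDc.norm.pow 2)
  have h1 : ∫ y in (4 * τ)..1, R y * ‖DPq c B a (Λ * y) (XT ε T) t‖ ^ 2 =
      ∫ y in (4 * τ)..(1 / 2), R y * ‖DPq c B a (Λ * y) (XT ε T) t‖ ^ 2 := by
    rw [← intervalIntegral.integral_add_adjacent_intervals (hFc.intervalIntegrable (4 * τ) (1 / 2))
      (hFc.intervalIntegrable (1 / 2) 1)]
    have h2 : ∫ y in (1 / 2 : ℝ)..1, R y * ‖DPq c B a (Λ * y) (XT ε T) t‖ ^ 2 = 0 := by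
      rw [intervalIntegral.integral_congr (g := fun _ => (0:ℝ))]
      · simp
      · intro y hy
        rw [Set.uIcc_of_le (by norm_num)] at hy
        beta_reduce
        rw [hRz y hy.1, zero_mul]
    rw [h2, add_zero]
  rw [h1]
  have hP1 := DDj_cont (XS ε T) (pc c B a Λ) (pc_cont hB)
  have hP2 := DDj_cont (XT ε T) (rc c B a Λ (XS ε T)) (rc_cont hB (XS ε T))
  have hP1' : Continuous (fun y : ℝ => DD (XS ε T) (pc c B a Λ y) t) :=
    hP1.comp (f := fun y : ℝ => (y, t)) (by fun_prop)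
  have hP2' : Continuous (fun y : ℝ => DD (XT ε T) (rc c B a Λ (XS ε T) y) t) :=
    hP2.comp (f := fun y : ℝ => (y, t)) (by fun_prop)
  have h3 : ∫ y in (4 * τ)..(1 / 2), R y * ‖DPq c B a (Λ * y) (XT ε T) t‖ ^ 2 ≤
      ∫ y in (4 * τ)..(1 / 2), ((1 + η) * (R y * ‖DD (XS ε T) (pc c B a Λ y) t‖ ^ 2) +
        (1 + 1 / η) * (R y * ‖DD (XT ε T) (rc c B a Λ (XS ε T) y) t‖ ^ 2)) := by
    refine intervalIntegral.integral_mono_on (by linarith) (hFc.intervalIntegrable _ _) ?_ fun y _ => ?_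
    · exact ((continuous_const.mul (hR.mul (hP1'.norm.pow 2))).add
        (continuous_const.mul (hR.mul (hP2'.norm.pow 2)))).intervalIntegrable _ _
    · rw [DD_split hXX]
      have h4 : ‖DD (XS ε T) (pc c B a Λ y) t + DD (XT ε T) (rc c B a Λ (XS ε T) y) t‖ ^ 2 ≤
          (1 + η) * ‖DD (XS ε T) (pc c B a Λ y) t‖ ^ 2 +
          (1 + 1 / η) * ‖DD (XT ε T) (rc c B a Λ (XS ε T) y) t‖ ^ 2 :=
        (pow_le_pow_left₀ (norm_nonneg _) (norm_add_le _ _) 2).trans (sq_split hη)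
      calc _ ≤ R y * ((1 + η) * ‖DD (XS ε T) (pc c B a Λ y) t‖ ^ 2 +
          (1 + 1 / η) * ‖DD (XT ε T) (rc c B a Λ (XS ε T) y) t‖ ^ 2) := mul_le_mul_of_nonneg_left h4 (hR0 y)
        _ = _ := by ring
  rw [intervalIntegral.integral_add, intervalIntegral.integral_const_mul, intervalIntegral.integral_const_mul] at h3
  · unfold Dl
    linarith
  · exact (continuous_const.mul (hR.mul (hP1'.norm.pow 2))).intervalIntegrable _ _
  · exact (continuous_const.mul (hR.mul (hP2'.norm.pow 2))).intervalIntegrable _ _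

end

/-- **the mean of the short sums over an arbitrary set** -/
theorem low (hMV : P_MVB) {R : ℝ → ℝ} {Rm : ℝ} (hR : Continuous R) (hR0 : ∀ y, 0 ≤ R y) (hRm : ∀ y, R y ≤ Rm)
    (hRz : ∀ y, 1 / 2 ≤ y → R y = 0) {c : ℕ → ℂ} (hc : ∀ n, ‖c n‖ ≤ ArithmeticFunction.vonMangoldt n)
    {B : ℝ → ℝ} (hB : Continuous B) {K : ℝ} (hK : ∀ ξ, |B ξ| ≤ K) {ε τ : ℝ} (hε : 0 < ε) (hε2 : ε < 1 / 2)
    (hτ : 0 < τ) (hτε : τ ≤ ε / 4) {η w : ℝ} (hη : 0 < η) (hw : 0 < w) :
    ∀ᶠ T : ℝ in atTop, ∀ S : Set ℝ, MeasurableSet S → S ⊆ Set.Icc (T + Real.log T) (2 * T - Real.log T) →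
      ∫ t in S, Dq R c B ε τ (4 * τ) T t ≤ (1 + η) * (volume.real S * Zq R c B ε τ (4 * τ) T + 2 * w * T +
        72 * c1 ^ 2 * (Rm ^ 2 * K ^ 4) / (τ * w) * T) + η * T := by
  have h1c := c1_pos
  have hRm0 : 0 ≤ Rm := (hR0 0).trans (hRm 0)
  set Zb : ℝ := Rm * (4 * c1 * K ^ 2 / τ) with hZb
  have hZb0 : 0 ≤ Zb := by positivity
  set κ : ℝ := min 1 (w ^ 2 / (4 * Zb ^ 2 + 1)) with hκ
  have hκ0 : 0 < κ := by positivity
  have hκ1 : 4 * κ * Zb ^ 2 ≤ w ^ 2 := by
    have h1 : κ ≤ w ^ 2 / (4 * Zb ^ 2 + 1) := min_le_right _ _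
    rw [le_div_iff₀ (by positivity)] at h1
    nlinarith
  set δ : ℝ := η / (4 * (1 + 1 / η) * (Rm + 1)) with hδ
  have hδ0 : 0 < δ := by positivity
  have hδ1 : (1 + 1 / η) * (2 * (Rm * (2 * δ))) ≤ η := by
    have h1 : (1 + 1 / η) * (2 * ((Rm + 1) * (2 * δ))) = η := by
      rw [hδ]; field_simp; ring
    have h2 : (1 + 1 / η) * (2 * (Rm * (2 * δ))) ≤ (1 + 1 / η) * (2 * ((Rm + 1) * (2 * δ))) := by
      gcongr
      linarith
    linarith
  have hTl : ∀ᶠ T : ℝ in atTop, T + Real.log T ≤ 2 * T - Real.log T := by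
    have h1 := Real.isLittleO_log_id_atTop.def (c := 1 / 2) (by norm_num)
    filter_upwards [h1, eventually_ge_atTop 1] with T hT hT1
    rw [Real.norm_eq_abs, Real.norm_eq_abs, id, abs_of_pos (by linarith : 0 < T)] at hT
    have := le_abs_self (Real.log T)
    linarith
  filter_upwards [ev_short hε hκ0, (rb_lim K hε hτ).comp Real.tendsto_log_atTop |>.eventually_le_const hδ0,
    Real.tendsto_log_atTop.eventually_ge_atTop (1 / τ), Real.tendsto_log_atTop.eventually_ge_atTop 2,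
    eventually_ge_atTop 1, hTl] with T hE hrb hL1 hL2 hT1 hTT
  intro S hS hSI
  simp only [Function.comp] at hrb
  set L := Real.log T with hLd
  have hL0 : 0 < L := by linarith
  have hT0 : 0 < T := by linarith
  set a := τ * L with ha
  set Λ := (1 - ε) * L with hΛ
  have ha1 : 1 ≤ a := by
    rw [div_le_iff₀ hτ] at hL1
    linarith
  have hΛ1 : 1 ≤ Λ := by nlinarith
  have haΛ : a ≤ Λ := by
    have : τ ≤ 1 - ε := by linarith
    exact mul_le_mul_of_nonneg_right this hL0.le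
  have hΛa : Λ * τ ≤ a := by
    rw [hΛ, ha]
    have : 0 ≤ ε * (L * τ) := by positivity
    nlinarith
  have h4τ : 4 * τ ≤ 1 / 2 := by linarith
  have hpa : a ≤ Λ * (4 * τ) := by
    have := u_ge (ηs := 4 * τ) hε hε2 hτ hτε le_rfl (by linarith) hL0 le_rfl
    linarith
  have hXX := XS_le (T := T) hε hT1 hε2
  set X := XS ε T with hX
  set P := pc c B a Λ with hP
  set Q := rc c B a Λ X with hQ
  set T1 := T + L with hT1d
  set T2 := 2 * T - L with hT2d
  have hT12 : T1 ≤ T2 := hTT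
  have hT21 : T2 - T1 ≤ T := by rw [hT1d, hT2d]; linarith
  set Z := Zl X R P (4 * τ) (1 / 2) with hZ
  have hpcc := pc_cont (c := c) (B := B) (a := a) (Λ := Λ) hB
  have hrcc := rc_cont (c := c) (B := B) (a := a) (Λ := Λ) hB X
  have hXp : 1 ≤ X := by
    rw [hX]; unfold XS
    rw [Nat.one_le_floor_iff]
    exact Real.one_le_rpow hT1 (by linarith)
  -- bounds for `Z`
  have hA0 := Aq_nonneg X P
  have hAc := Aq_cont X P hpcc
  have hZ0 : 0 ≤ Z := by
    rw [hZ]; unfold Zl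
    exact intervalIntegral.integral_nonneg h4τ fun y _ => mul_nonneg (hR0 y) (hA0 y)
  have hZle : Z ≤ Zb := by
    have h1 : Z ≤ ∫ _y in (4 * τ)..(1 / 2), Zb := by
      rw [hZ]; unfold Zl
      refine intervalIntegral.integral_mono_on h4τ (Continuous.intervalIntegrable (by fun_prop) _ _)
        intervalIntegrable_const fun y hy => ?_
      rw [hZb]
      refine mul_le_mul (hRm y) ?_ (hA0 y) hRm0
      exact Aq_le hc hK X hτ (by linarith) ha1 (hpa.trans (mul_le_mul_of_nonneg_left hy.1 (by linarith)))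
        (by linarith [hy.2]) (by linarith) hΛa
    rw [intervalIntegral.integral_const, smul_eq_mul] at h1
    nlinarith
  have hZq : 2 * Z ≤ Zq R c B ε τ (4 * τ) T := by
    rw [Zq_eq hε hε2 hτ hτε R hL0, hZ]
    unfold Zl
    have hqc := Aq_cont (XT ε T) (qc c B a Λ) (qc_cont hB)
    have hq0 := Aq_nonneg (XT ε T) (qc c B a Λ)
    have h1 : ∫ y in (4 * τ)..(1 / 2), R y * Aq X P y ≤ ∫ y in (4 * τ)..(1 / 2), R y * Aq (XT ε T) (qc c B a Λ) y := by
      refine intervalIntegral.integral_mono_on h4τ (Continuous.intervalIntegrable (by fun_prop) _ _)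
        (Continuous.intervalIntegrable (by fun_prop) _ _) fun y _ => ?_
      exact mul_le_mul_of_nonneg_left (Aq_pc_le hXX a Λ y) (hR0 y)
    have h2 : ∫ y in (4 * τ)..(1 / 2), R y * Aq (XT ε T) (qc c B a Λ) y ≤
        ∫ y in (4 * τ)..1, R y * Aq (XT ε T) (qc c B a Λ) y := by
      refine intervalIntegral.integral_mono_interval le_rfl h4τ (by norm_num) ?_
        (Continuous.intervalIntegrable (by fun_prop) _ _)
      exact Filter.Eventually.of_forall fun y => mul_nonneg (hR0 y) (hq0 y)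
    linarith
  -- the variance
  set V := ∫ t in T1..T2, (Dl X R P (4 * τ) (1 / 2) t - Z) ^ 2 with hV
  have hVle : V ≤ 72 * c1 ^ 2 * (Rm ^ 2 * K ^ 4) / τ * T + w ^ 2 * T := by
    have h1 := var_le X R hR P hpcc hMV hXp hT12 h4τ (fun y _ => hR0 y) (fun y n hn => pc_prime y n hn)
    have h2 := Vl_le (c := c) (B := B) (a := a) (Λ := Λ) hB hc hK X hR hR0 hRm hτ (by linarith) ha1
      (by linarith : (0:ℝ) ≤ 4 * τ) h4τ (by norm_num) hΛ1 hpa haΛ hΛa
    have h3 := hE (X * X) (XS_sq hT1)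
    have h4 : 4 * (8 * (X * X : ℕ) * (1 + Real.log (X * X : ℕ))) * Z ^ 2 ≤ w ^ 2 * T := by
      have h5 : Z ^ 2 ≤ Zb ^ 2 := pow_le_pow_left₀ hZ0 hZle 2
      calc 4 * (8 * (X * X : ℕ) * (1 + Real.log (X * X : ℕ))) * Z ^ 2 ≤ 4 * (κ * T) * Zb ^ 2 := by
            refine mul_le_mul ?_ h5 (sq_nonneg _) (by positivity)
            linarith
        _ = (4 * κ * Zb ^ 2) * T := by ring
        _ ≤ w ^ 2 * T := mul_le_mul_of_nonneg_right hκ1 hT0.le
    have h6 : (T2 - T1) * Vl X R P (4 * τ) (1 / 2) ≤ T * (72 * c1 ^ 2 * (Rm ^ 2 * K ^ 4) / τ) := by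
      have h7 : 0 ≤ T2 - T1 := by linarith
      calc (T2 - T1) * Vl X R P (4 * τ) (1 / 2) ≤ (T2 - T1) * (72 * c1 ^ 2 * (Rm ^ 2 * K ^ 4) / τ) :=
            mul_le_mul_of_nonneg_left h2 h7
        _ ≤ _ := mul_le_mul_of_nonneg_right hT21 (by positivity)
    rw [← hZ, ← hV] at h1
    linarith
  -- the remaining coefficients
  set W := ∫ t in T1..T2, Dl (XT ε T) R Q (4 * τ) (1 / 2) t with hW
  have hWle : W ≤ Rm * (2 * δ) * T := by
    have hFd := Fd_cont (XT ε T) R hR Q hrcc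
    have e1 : W = ∫ y in (4 * τ)..(1 / 2), ∫ t in T1..T2, R y * ‖DD (XT ε T) (Q y) t‖ ^ 2 := by
      rw [hW]; unfold Dl
      exact swapc (f := fun t y => R y * ‖DD (XT ε T) (Q y) t‖ ^ 2)
        (hFd.comp (f := fun p : ℝ × ℝ => (p.2, p.1)) (by fun_prop)) _ _ _ _
    have c1' : Continuous (Function.uncurry fun y t : ℝ => R y * ‖DD (XT ε T) (Q y) t‖ ^ 2) := hFd
    have h1 : W ≤ ∫ _y in (4 * τ)..(1 / 2), Rm * (2 * δ) * T := by
      rw [e1]
      refine intervalIntegral.integral_mono_on h4τ ((par_cont c1' T1 T2).intervalIntegrable _ _)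
        intervalIntegrable_const fun y hy => ?_
      rw [intervalIntegral.integral_const_mul]
      have h2 := mv hMV (XT ε T) T1 T2 hT12 (Q y)
      have h3 : ∑ n ∈ Finset.Icc 1 (XT ε T), ‖Q y n‖ ^ 2 ≤ δ :=
        (rc_small hc hK hε hε2 hτ hτε hT1 (by linarith : 1 ≤ Real.log T) hy.1 hy.2).trans hrb
      have h4 := hE (XT ε T) (Nat.floor_le (by positivity))
      have h5 : κ ≤ 1 := min_le_left _ _
      have h6 : T2 - T1 + 8 * (XT ε T : ℝ) * (1 + Real.log (XT ε T)) ≤ 2 * T := by nlinarith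
      have h7 : 0 ≤ ∑ n ∈ Finset.Icc 1 (XT ε T), ‖Q y n‖ ^ 2 := Finset.sum_nonneg fun n _ => by positivity
      have h8 : ∫ t in T1..T2, ‖DD (XT ε T) (Q y) t‖ ^ 2 ≤ 2 * T * δ :=
        h2.trans (mul_le_mul h6 h3 h7 (by positivity))
      have h9 : 0 ≤ ∫ t in T1..T2, ‖DD (XT ε T) (Q y) t‖ ^ 2 :=
        intervalIntegral.integral_nonneg hT12 fun _ _ => by positivity
      calc R y * ∫ t in T1..T2, ‖DD (XT ε T) (Q y) t‖ ^ 2 ≤ Rm * (2 * T * δ) :=
            mul_le_mul (hRm y) h8 h9 hRm0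
        _ = _ := by ring
    rw [intervalIntegral.integral_const, smul_eq_mul] at h1
    have : 0 ≤ Rm * (2 * δ) * T := by positivity
    nlinarith
  -- integration over `S`
  have hDpc := Dl_cont X R hR P hpcc (4 * τ) (1 / 2)
  have hDrc := Dl_cont (XT ε T) R hR Q hrcc (4 * τ) (1 / 2)
  have hDqc : Continuous (fun t : ℝ => Dq R c B ε τ (4 * τ) T t) :=
    Dq_cont hB hε hε2 hτ hτε le_rfl (by linarith) hR hL0
  have hSf : volume S ≠ ⊤ := ne_top_of_le_ne_top (by simp) (measure_mono hSI)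
  have hcI : ∀ f : ℝ → ℝ, Continuous f → IntegrableOn f S := fun f hf =>
    (hf.continuousOn.integrableOn_compact isCompact_Icc).mono_set hSI
  have hfin : IsFiniteMeasure (volume.restrict S) := ⟨by
    rw [Measure.restrict_apply_univ]; exact lt_top_iff_ne_top.2 hSf⟩
  set Dp : ℝ → ℝ := Dl X R P (4 * τ) (1 / 2) with hDp
  set Dr : ℝ → ℝ := Dl (XT ε T) R Q (4 * τ) (1 / 2) with hDr
  have hmono := setIntegral_mono_on (μ := volume) (s := S)
    (f := fun t => Dq R c B ε τ (4 * τ) T t)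
    (g := fun t => (1 + η) * ((2 * Z + w) + 1 / w * (Dp t - Z) ^ 2) + (1 + 1 / η) * (2 * Dr t))
    (hcI _ hDqc) (hcI _ (by fun_prop)) hS (fun t _ => by
      refine (Dq_low_le hB hR hR0 hRz hε hε2 hτ hτε hXX hL0 hη t).trans ?_
      refine add_le_add ?_ le_rfl
      refine mul_le_mul_of_nonneg_left ?_ (by positivity)
      have h1 : 0 ≤ (Dp t - Z - w) ^ 2 / w := by positivity
      have h2 : (Dp t - Z - w) ^ 2 / w = 1 / w * (Dp t - Z) ^ 2 - 2 * (Dp t - Z) + w := by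
        field_simp
        ring
      rw [h2] at h1
      linarith)
  have e1 : ∫ t in S, ((1 + η) * ((2 * Z + w) + 1 / w * (Dp t - Z) ^ 2) + (1 + 1 / η) * (2 * Dr t)) =
      (1 + η) * (volume.real S * (2 * Z + w) + 1 / w * ∫ t in S, (Dp t - Z) ^ 2) +
        (1 + 1 / η) * (2 * ∫ t in S, Dr t) := by
    rw [integral_add (hcI _ (by fun_prop)) (hcI _ (by fun_prop)), integral_const_mul, integral_const_mul,
      integral_const_mul, integral_add (hcI _ (by fun_prop)) (hcI _ (by fun_prop)), integral_const_mul,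
      setIntegral_const, smul_eq_mul]
  rw [e1] at hmono
  refine hmono.trans ?_
  have hb1 : ∫ t in S, (Dp t - Z) ^ 2 ≤ V := by
    have h1 : ∫ t in S, (Dp t - Z) ^ 2 ≤ ∫ t in Set.Icc T1 T2, (Dp t - Z) ^ 2 := by
      refine setIntegral_mono_set ((by fun_prop : Continuous fun t => (Dp t - Z) ^ 2).continuousOn.integrableOn_compact
        isCompact_Icc) (Filter.Eventually.of_forall fun t => sq_nonneg _) (Filter.Eventually.of_forall hSI)
    rw [integral_Icc_eq_integral_Ioc, ← intervalIntegral.integral_of_le hT12] at h1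
    exact h1
  have hb2 : ∫ t in S, Dr t ≤ W := by
    have h1 : ∫ t in S, Dr t ≤ ∫ t in Set.Icc T1 T2, Dr t := by
      refine setIntegral_mono_set (hDrc.continuousOn.integrableOn_compact isCompact_Icc)
        (Filter.Eventually.of_forall fun t => ?_) (Filter.Eventually.of_forall hSI)
      simp only [hDr, Dl, Pi.zero_apply]
      exact intervalIntegral.integral_nonneg h4τ fun y _ => mul_nonneg (hR0 y) (by positivity)
    rw [integral_Icc_eq_integral_Ioc, ← intervalIntegral.integral_of_le hT12] at h1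
    exact h1
  have hvS : volume.real S ≤ T := by
    have h1 : volume.real S ≤ volume.real (Set.Icc T1 T2) := measureReal_mono hSI (by simp)
    rw [Real.volume_real_Icc_of_le hT12] at h1
    linarith
  have hv0 : 0 ≤ volume.real S := measureReal_nonneg
  have hb3 : 1 / w * ∫ t in S, (Dp t - Z) ^ 2 ≤ 72 * c1 ^ 2 * (Rm ^ 2 * K ^ 4) / (τ * w) * T + w * T := by
    calc 1 / w * ∫ t in S, (Dp t - Z) ^ 2 ≤ 1 / w * (72 * c1 ^ 2 * (Rm ^ 2 * K ^ 4) / τ * T + w ^ 2 * T) :=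
          mul_le_mul_of_nonneg_left (hb1.trans hVle) (by positivity)
      _ = _ := by field_simp
  have hb4 : (1 + 1 / η) * (2 * ∫ t in S, Dr t) ≤ η * T := by
    calc (1 + 1 / η) * (2 * ∫ t in S, Dr t) ≤ (1 + 1 / η) * (2 * (Rm * (2 * δ) * T)) := by
          refine mul_le_mul_of_nonneg_left ?_ (by positivity)
          linarith
      _ = (1 + 1 / η) * (2 * (Rm * (2 * δ))) * T := by ring
      _ ≤ η * T := mul_le_mul_of_nonneg_right hδ1 hT0.le
  have hb5 : volume.real S * (2 * Z + w) ≤ volume.real S * Zq R c B ε τ (4 * τ) T + w * T := by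
    have h1 : volume.real S * (2 * Z) ≤ volume.real S * Zq R c B ε τ (4 * τ) T :=
      mul_le_mul_of_nonneg_left hZq hv0
    have h2 : volume.real S * w ≤ T * w := mul_le_mul_of_nonneg_right hvS hw.le
    linarith
  refine add_le_add ?_ hb4
  refine mul_le_mul_of_nonneg_left ?_ (by positivity)
  linarith

end

end Pool.Agent.K4H6.Cov
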