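import Pool.Agent.K4H6.Cov.Di
import Pool.Agent.Y655.SW.Trk

set_option autoImplicit false

/-!
Coverage of the critical line by simple zeros: the spectral form of the weighted pair sum, general kernel.
-/

namespace Pool.Agent.K4H6.Cov

open Filter Topology MeasureTheory Complex H370 Pool.Agent.Y745.SW Pool.Agent.Y655.SW

/-- TRK: the spectral form of the weighted pair sum -/
def P_TRKk (kt : ℂ → ℂ) (R : ℝ → ℝ) : Prop := ∀ (B : ℝ → ℝ) (a t Λ U1 U2 : ℝ), Continuous B →
  (∀ ξ, B (-ξ) = B ξ) → 1 ≤ U1 →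
  (∑ s ∈ Zf riemannZeta U1 U2, ∑ s' ∈ Zf riemannZeta U1 U2, (mult riemannZeta s : ℂ) * (mult riemannZeta s' : ℂ) *
      (vt B a t (zz s) * vt B a t (zz s') * kt (Λ * (zz s - zz s')) ^ 2)).re =
    2 * ∫ x in (0:ℝ)..1, R x * ‖St B a U1 U2 (Λ * x) t‖ ^ 2

theorem t_TRKk {kt : ℂ → ℂ} {R : ℝ → ℝ} (hk0 : Ker kt R) : P_TRKk kt R := by
  intro B a t Λ U1 U2 _ hB hU
  have hG : ∀ α : ℝ, ((‖St B a U1 U2 (Λ * α) t‖ ^ 2 : ℝ) : ℂ) =
      ∑ s ∈ Zf riemannZeta U1 U2, ∑ s' ∈ Zf riemannZeta U1 U2,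
        (mult riemannZeta s : ℂ) * (mult riemannZeta s' : ℂ) *
        (vt B a t (zz s) * vt B a t (zz s') * cexp (I * (Λ * (zz s - zz s')) * α)) := by
    intro α
    rw [← Complex.normSq_eq_norm_sq, ← Complex.mul_conj, St_conj hB a t _ hU]
    unfold St
    rw [Finset.sum_mul_sum]
    refine Finset.sum_congr rfl fun s _ => Finset.sum_congr rfl fun s' _ => ?_
    have e1 : cexp (I * (Λ * (zz s - zz s')) * α) =
        cexp (I * ((Λ * α : ℝ) : ℂ) * zz s) * cexp (I * ((-(Λ * α) : ℝ) : ℂ) * zz s') := by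
      rw [← Complex.exp_add]
      congr 1
      push_cast
      ring
    rw [e1]
    ring
  have h1 : ∀ s s' : ℂ, vt B a t (zz s) * vt B a t (zz s') * kt (Λ * (zz s - zz s')) ^ 2 =
      ∫ α in (-1 : ℝ)..1, (R α : ℂ) *
        (vt B a t (zz s) * vt B a t (zz s') * cexp (I * (Λ * (zz s - zz s')) * α)) := by
    intro s s'
    rw [hk0.sq, ← intervalIntegral.integral_const_mul]
    refine intervalIntegral.integral_congr fun α _ => ?_
    ring
  have h2 : ∑ s ∈ Zf riemannZeta U1 U2, ∑ s' ∈ Zf riemannZeta U1 U2,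
      (mult riemannZeta s : ℂ) * (mult riemannZeta s' : ℂ) *
      (vt B a t (zz s) * vt B a t (zz s') * kt (Λ * (zz s - zz s')) ^ 2) =
      ∫ α in (-1 : ℝ)..1, ((R α * ‖St B a U1 U2 (Λ * α) t‖ ^ 2 : ℝ) : ℂ) := by
    have h3 : ∀ α : ℝ, ((R α * ‖St B a U1 U2 (Λ * α) t‖ ^ 2 : ℝ) : ℂ) =
        ∑ s ∈ Zf riemannZeta U1 U2, ∑ s' ∈ Zf riemannZeta U1 U2,
          (mult riemannZeta s : ℂ) * (mult riemannZeta s' : ℂ) * ((R α : ℂ) *
          (vt B a t (zz s) * vt B a t (zz s') * cexp (I * (Λ * (zz s - zz s')) * α))) := by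
      intro α
      rw [Complex.ofReal_mul, hG, Finset.mul_sum]
      refine Finset.sum_congr rfl fun s _ => ?_
      rw [Finset.mul_sum]
      refine Finset.sum_congr rfl fun s' _ => ?_
      ring
    rw [intervalIntegral.integral_congr (fun α _ => h3 α)]
    have hc : ∀ s s' : ℂ, Continuous fun α : ℝ =>
        (mult riemannZeta s : ℂ) * (mult riemannZeta s' : ℂ) * ((R α : ℂ) *
          (vt B a t (zz s) * vt B a t (zz s') * cexp (I * (Λ * (zz s - zz s')) * α))) := by
      intro s s'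
      have := hk0.rcont
      fun_prop
    rw [intervalIntegral.integral_finsetSum]
    swap
    · intro s _
      exact (continuous_finsetSum _ fun s' _ => hc s s').intervalIntegrable _ _
    refine Finset.sum_congr rfl fun s _ => ?_
    rw [intervalIntegral.integral_finsetSum]
    swap
    · intro s' _
      exact (hc s s').intervalIntegrable _ _
    refine Finset.sum_congr rfl fun s' _ => ?_
    rw [h1, intervalIntegral.integral_const_mul]
  rw [h2, intervalIntegral.integral_ofReal, Complex.ofReal_re]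
  obtain ⟨G, hGd⟩ : ∃ G : ℝ → ℝ, G = fun α => R α * ‖St B a U1 U2 (Λ * α) t‖ ^ 2 := ⟨_, rfl⟩
  have hGc : Continuous G := by
    rw [hGd]
    have h5 : Continuous (fun α : ℝ => St B a U1 U2 (Λ * α) t) :=
      (St_cont B a t U1 U2).comp (by fun_prop)
    exact hk0.rcont.mul (h5.norm.pow 2)
  have hGe : ∀ α, G (-α) = G α := by
    intro α
    rw [hGd]
    simp only
    rw [hk0.reven, mul_neg, ← St_conj hB a t _ hU, RCLike.norm_conj]
  have h4 : ∫ α in (-1 : ℝ)..1, G α = 2 * ∫ α in (0 : ℝ)..1, G α := by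
    rw [← intervalIntegral.integral_add_adjacent_intervals (b := 0)
      (hGc.intervalIntegrable _ _) (hGc.intervalIntegrable _ _)]
    have h5 : ∫ α in (-1 : ℝ)..0, G α = ∫ α in (0 : ℝ)..1, G α := by
      have := intervalIntegral.integral_comp_neg (a := (0 : ℝ)) (b := 1) G
      simp_rw [hGe] at this
      rw [neg_zero] at this
      exact this.symm
    rw [h5]; ring
  rw [hGd] at h4
  exact h4



end Pool.Agent.K4H6.Cov
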